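import Pool.Agent.QD.In.CongZ

/-!
# QD-In-CongL: the local data `D` at the primes of `T`

PLAN.  Unfold `sgx`, `LocData.sg`, ...; `Finset.prod_congr`, `dif_pos`; for `p ∈ T` prime put
`haveI := Fact.mk h`.  For `v` over `p` (`(p : 𝓞 K) ∈ v.asIdeal`) we have `¬ Away K T v`, so `v ∈ S`.
Both not squares: `alg_congr` (N4Main) and `D.sgn_iso`, `D.cond_iso`, `D.pol_iso`.  `y` a square and
`x` not: `x ∈ HSet S` (as in `tt_congr`), `alg_one` and `D.sgn_iso`, `D.sgn_prod`; the product over `T`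
of squares is the square of the product (`Finset.prod_pow`).  Module finiteness of
`ℚ_[p] ⊗[ℚ] F` and of a product is an instance.
`sgx_cases`: `D.sgn_sq`; a product of numbers `±1`.  `cdx_pos`: `D.cond_pos`.
-/

namespace Pool.Agent.QD.In

open NumberField IsDedekindDomain Pool.Agent.HWR

open scoped TensorProduct

variable {K : Type} [Field K] [NumberField K] {T : Finset ℕ} (D : LocData T)

open Classical in
/-- product over the primes of `T` of a function of `ℚ_p ⊗ F` -/
private noncomputable def pr {α : Type} [CommMonoid α] (T : Finset ℕ)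
    (f : ∀ (p : ℕ) [Fact p.Prime] (R : Type) [CommRing R] [Algebra ℚ_[p] R], α)
    (F : Type) [Field F] [NumberField F] : α :=
  ∏ p ∈ T, if h : p.Prime then haveI := Fact.mk h; f p (ℚ_[p] ⊗[ℚ] F) else 1

private theorem pr_sq {α : Type} [CommMonoid α]
    (f : ∀ (p : ℕ) [Fact p.Prime] (R : Type) [CommRing R] [Algebra ℚ_[p] R], α)
    (hiso : ∀ (p : ℕ) [Fact p.Prime] (R R' : Type) [CommRing R] [Algebra ℚ_[p] R]
      [CommRing R'] [Algebra ℚ_[p] R'] [Module.Finite ℚ_[p] R] [Module.Finite ℚ_[p] R'],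
      Nonempty (R ≃ₐ[ℚ_[p]] R') → f p R = f p R')
    (hprod : ∀ (p : ℕ) [Fact p.Prime] (R R' : Type) [CommRing R] [Algebra ℚ_[p] R]
      [CommRing R'] [Algebra ℚ_[p] R'] [Module.Finite ℚ_[p] R] [Module.Finite ℚ_[p] R'],
      f p (R × R') = f p R * f p R')
    {S : Finset (HeightOneSpectrum (𝓞 K))} (hST : ∀ v, ¬ Away K T v → v ∈ S) {x : Kˣ}
    (hx : x ∈ HSub S) (Q : QF K x) (hns : ¬ IsSquare x) : pr T f Q.L = pr T f K ^ 2 := by
  unfold pr
  rw [← Finset.prod_pow]
  apply Finset.prod_congr rfl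
  intro p hp
  by_cases hpr : p.Prime
  · haveI := Fact.mk hpr
    rw [dif_pos hpr, dif_pos hpr]
    have h1 := alg_one Q.L Q.deg x Q.θ Q.sq hns S hx p fun v hv => hST v fun h => h p hp hv
    rw [hiso p _ _ h1, hprod, pow_two]
  · rw [dif_neg hpr, dif_neg hpr, one_pow]

private theorem pr_congr {α : Type} [CommMonoid α]
    (f : ∀ (p : ℕ) [Fact p.Prime] (R : Type) [CommRing R] [Algebra ℚ_[p] R], α)
    (hiso : ∀ (p : ℕ) [Fact p.Prime] (R R' : Type) [CommRing R] [Algebra ℚ_[p] R]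
      [CommRing R'] [Algebra ℚ_[p] R'] [Module.Finite ℚ_[p] R] [Module.Finite ℚ_[p] R'],
      Nonempty (R ≃ₐ[ℚ_[p]] R') → f p R = f p R')
    {S : Finset (HeightOneSpectrum (𝓞 K))} (hST : ∀ v, ¬ Away K T v → v ∈ S) {x y : Kˣ}
    (h : x / y ∈ HSub S) (Q : QF K x) (hns : ¬ IsSquare x) (Q' : QF K y)
    (hns' : ¬ IsSquare y) : pr T f Q.L = pr T f Q'.L := by
  unfold pr
  apply Finset.prod_congr rfl
  intro p hp
  by_cases hpr : p.Prime
  · haveI := Fact.mk hpr
    rw [dif_pos hpr, dif_pos hpr]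
    have h1 := alg_congr Q.L Q.deg x Q.θ Q.sq hns Q'.L Q'.deg y Q'.θ Q'.sq hns' S h p
      fun v hv => hST v fun h => h p hp hv
    exact hiso p _ _ h1
  · rw [dif_neg hpr, dif_neg hpr]

private theorem mem_of_isSquare {S : Finset (HeightOneSpectrum (𝓞 K))} {x y : Kˣ}
    (h : x / y ∈ HSub S) (hy : IsSquare y) : x ∈ HSub S := by
  obtain ⟨z, hz⟩ := hy
  have h1 : x = x / y * y := by rw [div_mul_cancel]
  rw [h1]
  apply (HSub S).mul_mem h
  rw [hz, ← pow_two]
  exact sq_mem_HSub S z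

open Classical in
private theorem main {α : Type} [CommMonoid α]
    (f : ∀ (p : ℕ) [Fact p.Prime] (R : Type) [CommRing R] [Algebra ℚ_[p] R], α)
    (hiso : ∀ (p : ℕ) [Fact p.Prime] (R R' : Type) [CommRing R] [Algebra ℚ_[p] R]
      [CommRing R'] [Algebra ℚ_[p] R'] [Module.Finite ℚ_[p] R] [Module.Finite ℚ_[p] R'],
      Nonempty (R ≃ₐ[ℚ_[p]] R') → f p R = f p R')
    (hprod : ∀ (p : ℕ) [Fact p.Prime] (R R' : Type) [CommRing R] [Algebra ℚ_[p] R]
      [CommRing R'] [Algebra ℚ_[p] R'] [Module.Finite ℚ_[p] R] [Module.Finite ℚ_[p] R'],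
      f p (R × R') = f p R * f p R')
    {S : Finset (HeightOneSpectrum (𝓞 K))} (hST : ∀ v, ¬ Away K T v → v ∈ S) {x y : Kˣ}
    (h : x / y ∈ HSub S) :
    (if h : IsSquare x then pr T f K ^ 2 else pr T f (qf h).L) =
      if h : IsSquare y then pr T f K ^ 2 else pr T f (qf h).L := by
  by_cases hx : IsSquare x
  · rw [dif_pos hx]
    by_cases hy : IsSquare y
    · rw [dif_pos hy]
    · rw [dif_neg hy]
      have h1 : y / x ∈ HSub S := by
        have h2 := (HSub S).inv_mem h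
        rwa [inv_div] at h2
      exact (pr_sq f hiso hprod hST (mem_of_isSquare h1 hx) (qf hy) hy).symm
  · rw [dif_neg hx]
    by_cases hy : IsSquare y
    · rw [dif_pos hy]
      exact pr_sq f hiso hprod hST (mem_of_isSquare h hy) (qf hx) hx
    · rw [dif_neg hy]
      exact pr_congr f hiso hST h (qf hx) hx (qf hy) hy

private theorem sg_cases (F : Type) [Field F] [NumberField F] : D.sg F = 1 ∨ D.sg F = -1 := by
  unfold LocData.sg
  refine Finset.prod_induction _ (fun z : ℤ => z = 1 ∨ z = -1) ?_ (Or.inl rfl) ?_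
  · rintro a b (rfl | rfl) (rfl | rfl) <;> simp
  · intro p _
    split_ifs with hpr
    · haveI := Fact.mk hpr
      exact D.sgn_sq p _
    · exact Or.inl rfl

private theorem cd_pos (F : Type) [Field F] [NumberField F] : 0 < D.cd F := by
  unfold LocData.cd
  apply Finset.prod_pos
  intro p _
  split_ifs with hpr
  · haveI := Fact.mk hpr
    exact D.cond_pos p _
  · exact one_pos

theorem sgx_cases (x : Kˣ) : sgx D x = 1 ∨ sgx D x = -1 := by
  unfold sgx
  split_ifs with h
  · left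
    rcases sg_cases D K with h1 | h1 <;> rw [h1] <;> norm_num
  · exact sg_cases D _

theorem wx_cases (x : Kˣ) : wx D x = 1 ∨ wx D x = -1 := by
  unfold wx
  rcases sgx_cases D x with h1 | h1 <;> rcases neg_one_pow_eq_or ℂ (nr x + nc x) with h2 | h2 <;>
    rw [h1, h2] <;> norm_num

theorem cdx_pos (x : Kˣ) : 0 < cdx D x := by
  unfold cdx
  split_ifs with h
  · exact pow_pos (cd_pos D K) 2
  · exact cd_pos D _

variable {S : Finset (HeightOneSpectrum (𝓞 K))} (hST : ∀ v, ¬ Away K T v → v ∈ S) {x y : Kˣ}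
  (h : x / y ∈ HSub S)
include hST h

theorem sgx_congr : sgx D x = sgx D y :=
  main D.sgn D.sgn_iso D.sgn_prod hST h

theorem cdx_congr : cdx D x = cdx D y :=
  main D.cond D.cond_iso D.cond_prod hST h

theorem plx_congr : plx D x = plx D y := by
  funext s
  refine main (fun p _ R _ _ => (D.pol p R).eval ((p : ℂ) ^ (-s))) ?_ ?_ hST h
  · intro p _ R R' _ _ _ _ _ _ h1
    rw [D.pol_iso p R R' h1]
  · intro p _ R R' _ _ _ _ _ _
    rw [D.pol_prod, Polynomial.eval_mul]

theorem wx_congr : wx D x = wx D y := by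
  unfold wx
  rw [sgx_congr D hST h, nr_congr h, nc_congr h]

end Pool.Agent.QD.In
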