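import Pool.Agent.QD.In.Pl
import Pool.Agent.HWR.LocalEst

/-!
# QD-In-LocF: local factors `FF a q u` for `q ≥ 101`; more on the polynomials at `T`
-/

namespace Pool.Agent.QD.In

open NumberField IsDedekindDomain Pool.Agent.HWR

/-- inverse of the Euler factor -/
noncomputable def efi (a : ℕ → ℝ) (q : ℕ) (s : ℂ) : ℂ :=
  1 - (a q : ℂ) * (q : ℂ) ^ (-s) + (q : ℂ) ^ (1 - 2 * s)

theorem efac_inv (a : ℕ → ℝ) (q : ℕ) (s : ℂ) : (efac a q s)⁻¹ = efi a q s := by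
  unfold efac efi
  rw [inv_inv]

theorem efi_diff (a : ℕ → ℝ) {q : ℕ} (hq : q ≠ 0) : Differentiable ℂ (efi a q) := by
  have h0 : (q : ℂ) ≠ 0 := by exact_mod_cast hq
  intro s
  unfold efi
  refine DifferentiableAt.add (DifferentiableAt.sub (differentiableAt_const _)
    (DifferentiableAt.mul (differentiableAt_const _) ?_)) ?_
  · exact differentiableAt_id.neg.const_cpow (Or.inl h0)
  · exact DifferentiableAt.const_cpow (by fun_prop) (Or.inl h0)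

theorem efi_bdd (a : ℕ → ℝ) {q : ℕ} (hq : q ≠ 0) (x y : ℝ) : ∃ C : ℝ, 0 ≤ C ∧
    ∀ s : ℂ, x ≤ s.re → s.re ≤ y → ‖efi a q s‖ ≤ C := by
  have hq0 : (0 : ℝ) < q := by exact_mod_cast Nat.pos_of_ne_zero hq
  obtain ⟨B1, h1⟩ := ps_cpow_bdd hq0 (-y) (-x)
  obtain ⟨B2, h2⟩ := ps_cpow_bdd hq0 (1 - 2 * y) (1 - 2 * x)
  refine ⟨1 + |a q| * |B1| + |B2|, by positivity, fun s h3 h4 => ?_⟩
  have e1 : (-s).re = -s.re := Complex.neg_re s
  have e2 : (1 - 2 * s).re = 1 - 2 * s.re := by simp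
  have h5 := h1 (-s) (by rw [e1]; linarith) (by rw [e1]; linarith)
  have h6 := h2 (1 - 2 * s) (by rw [e2]; linarith) (by rw [e2]; linarith)
  rw [Complex.ofReal_natCast] at h5 h6
  unfold efi
  refine (norm_add_le _ _).trans (add_le_add ((norm_sub_le _ _).trans ?_)
    (h6.trans (le_abs_self B2)))
  rw [norm_one, norm_mul, Complex.norm_real, Real.norm_eq_abs]
  have := h5.trans (le_abs_self B1)
  gcongr

theorem efi_ne {a : ℕ → ℝ} (ha : ∀ q : ℕ, |a q| ≤ 2 * Real.sqrt q) {q : ℕ} (hq : 101 ≤ q) {s : ℂ}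
    (hs : s.re ≤ 0) : efi a q s ≠ 0 := by
  have hq1 : (101 : ℝ) ≤ q := by exact_mod_cast hq
  have hq0 : (0 : ℝ) < q := by linarith
  set Y : ℝ := (q : ℝ) ^ (1 / 2 - s.re) with hY
  have hY10 : 10 ≤ Y := by
    have h1 : Real.sqrt q ≤ Y := by
      rw [Real.sqrt_eq_rpow, hY]
      exact Real.rpow_le_rpow_of_exponent_le (by linarith) (by linarith)
    have h2 : (10 : ℝ) ≤ Real.sqrt q := by
      apply Real.le_sqrt_of_sq_le
      linarith
    linarith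
  have n1 : ‖(q : ℂ) ^ (1 - 2 * s)‖ = Y ^ 2 := by
    rw [Complex.norm_natCast_cpow_of_pos (by omega), hY, ← Real.rpow_natCast, ← Real.rpow_mul hq0.le]
    congr 1
    simp
    ring
  have n2 : ‖(a q : ℂ) * (q : ℂ) ^ (-s)‖ ≤ 2 * Y := by
    rw [norm_mul, Complex.norm_natCast_cpow_of_pos (by omega), Complex.norm_real,
      Real.norm_eq_abs, Complex.neg_re]
    calc |a q| * (q : ℝ) ^ (-s.re) ≤ (2 * Real.sqrt q) * (q : ℝ) ^ (-s.re) := by
          gcongr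
          exact ha q
      _ = 2 * Y := by
          rw [hY, Real.sqrt_eq_rpow, mul_assoc, ← Real.rpow_add hq0]
          congr 2
  intro h0
  unfold efi at h0
  have h1 : (q : ℂ) ^ (1 - 2 * s) = (a q : ℂ) * (q : ℂ) ^ (-s) - 1 := by
    linear_combination h0
  have h2 : Y ^ 2 ≤ 2 * Y + 1 := by
    rw [← n1, h1]
    refine (norm_sub_le _ _).trans ?_
    rw [norm_one]
    linarith
  nlinarith

section FFsec

variable (a : ℕ → ℝ) {q : ℕ}

/-- formula for the inverse -/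
theorem ffi_eq (q : ℕ) (u s : ℂ) : (FF a q u s)⁻¹ =
    if u = 1 then efi a q s ^ 2 else if u = -1 then efi a (q ^ 2) s else efi a q s := by
  unfold FF F1 Fm
  split_ifs
  · rw [← inv_pow, efac_inv]
  · rw [efac_inv]
  · rw [efac_inv]

theorem ffi_diff (hq : q ≠ 0) (u : ℂ) : Differentiable ℂ fun s => (FF a q u s)⁻¹ := by
  have h0 : (fun s => (FF a q u s)⁻¹) = fun s =>
    if u = 1 then efi a q s ^ 2 else if u = -1 then efi a (q ^ 2) s else efi a q s :=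
      funext fun s => ffi_eq a q u s
  rw [h0]
  split_ifs
  · exact (efi_diff a hq).pow 2
  · exact efi_diff a (pow_ne_zero 2 hq)
  · exact efi_diff a hq

theorem ffi_bdd (hq : q ≠ 0) (u : ℂ) (x y : ℝ) : ∃ C : ℝ,
    ∀ s : ℂ, x ≤ s.re → s.re ≤ y → ‖(FF a q u s)⁻¹‖ ≤ C := by
  obtain ⟨C1, hC1, h1⟩ := efi_bdd a hq x y
  obtain ⟨C2, hC2, h2⟩ := efi_bdd a (pow_ne_zero 2 hq) x y
  refine ⟨C1 ^ 2 + C2 + C1, fun s h3 h4 => ?_⟩
  rw [ffi_eq]
  have h5 := h1 s h3 h4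
  have h6 := h2 s h3 h4
  split_ifs
  · rw [norm_pow]
    have : ‖efi a q s‖ ^ 2 ≤ C1 ^ 2 := pow_le_pow_left₀ (norm_nonneg _) h5 2
    linarith
  · have : 0 ≤ C1 ^ 2 := by positivity
    linarith
  · have : 0 ≤ C1 ^ 2 := by positivity
    linarith

theorem ffi_ord (hq : q ≠ 0) (u : ℂ) : FinOrd fun s => (FF a q u s)⁻¹ :=
  Z.finOrd_of_bdd fun x y => ffi_bdd a hq u x y

variable {a}

theorem ffi_ne (ha : ∀ q : ℕ, |a q| ≤ 2 * Real.sqrt q) (hq : 101 ≤ q) (u : ℂ) {s : ℂ}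
    (hs : s.re ≤ 0) : (FF a q u s)⁻¹ ≠ 0 := by
  rw [ffi_eq]
  have hq2 : 101 ≤ q ^ 2 := by nlinarith
  split_ifs
  · exact pow_ne_zero 2 (efi_ne ha hq hs)
  · exact efi_ne ha hq2 hs
  · exact efi_ne ha hq hs

theorem ff_ne (ha : ∀ q : ℕ, |a q| ≤ 2 * Real.sqrt q) (hq : 101 ≤ q) (u : ℂ) {s : ℂ}
    (hs : 1 ≤ s.re) : FF a q u s ≠ 0 := by
  unfold FF F1 Fm
  have hq2 : 101 ≤ q ^ 2 := by nlinarith
  split_ifs
  · exact pow_ne_zero 2 (efac_ne ha hq hs)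
  · exact efac_ne ha hq2 hs
  · exact efac_ne ha hq hs

theorem ff_bdd (ha : ∀ q : ℕ, |a q| ≤ 2 * Real.sqrt q) (hq : 101 ≤ q) (u : ℂ) {s : ℂ}
    (hs : 1 ≤ s.re) : ‖FF a q u s‖ ≤ 16 := by
  have hq2 : 101 ≤ q ^ 2 := by nlinarith
  have key : ∀ q : ℕ, 101 ≤ q → ‖efac a q s‖ ≤ 4 := by
    intro q hq
    have h1 := efac_sub_one ha hq hs
    have h2 : (q : ℝ) ^ (1 / 2 - s.re) ≤ 1 :=
      Real.rpow_le_one_of_one_le_of_nonpos (by exact_mod_cast (by omega : 1 ≤ q)) (by linarith)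
    calc ‖efac a q s‖ = ‖(efac a q s - 1) + 1‖ := by ring_nf
      _ ≤ ‖efac a q s - 1‖ + ‖(1 : ℂ)‖ := norm_add_le _ _
      _ ≤ 4 := by rw [norm_one]; linarith
  unfold FF F1 Fm
  split_ifs
  · rw [norm_pow]
    have := key q hq
    nlinarith [norm_nonneg (efac a q s)]
  · linarith [key (q ^ 2) hq2]
  · linarith [key q hq]

theorem ff_diff (ha : ∀ q : ℕ, |a q| ≤ 2 * Real.sqrt q) (hq : 101 ≤ q) (u : ℂ) {s : ℂ}
    (hs : 1 ≤ s.re) : DifferentiableAt ℂ (FF a q u) s := by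
  have h1 : FF a q u = fun s => ((FF a q u s)⁻¹)⁻¹ := funext fun s => (inv_inv _).symm
  rw [h1]
  exact (ffi_diff a (by omega) u s).fun_inv (inv_ne_zero (ff_ne ha hq u hs))

theorem ff_ratio_bd (ha : ∀ q : ℕ, |a q| ≤ 2 * Real.sqrt q) (hq : 101 ≤ q) (u : ℂ) :
    PolyStrip (1 / 2) fun s => FF a q u (2 - s) * (FF a q u s)⁻¹ := by
  refine ps_mul (ps_of_bdd fun x y hy => ⟨16, fun s _ h => ?_⟩)
    (ps_of_bdd fun x y _ => ffi_bdd a (by omega) u x y)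
  refine ff_bdd ha hq u ?_
  rw [Complex.sub_re]
  have : (2 : ℂ).re = 2 := rfl
  rw [this]
  linarith

theorem ff_ratio_diff (ha : ∀ q : ℕ, |a q| ≤ 2 * Real.sqrt q) (hq : 101 ≤ q) (u : ℂ) {s : ℂ}
    (hs : s.re ≤ 1 / 2) :
    DifferentiableAt ℂ (fun s => FF a q u (2 - s) * (FF a q u s)⁻¹) s := by
  refine DifferentiableAt.mul ?_ (ffi_diff a (by omega) u s)
  refine DifferentiableAt.comp s (ff_diff ha hq u ?_)
    ((differentiableAt_const _).sub differentiableAt_id)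
  rw [Complex.sub_re]
  have : (2 : ℂ).re = 2 := rfl
  rw [this]
  linarith

end FFsec

/-! ### More on the polynomials at `T` -/

variable {T : Finset ℕ} (D : LocData T) (F : Type) [Field F] [NumberField F]

theorem pl_ord : FinOrd (D.pl F) := by
  obtain ⟨L, hL, h⟩ := pl_list D F
  refine Z.finOrd_of_bdd fun x y => ?_
  obtain ⟨C, _, h1⟩ := plL_bdd L (fun x hx => (hL x hx).1.ne_zero) x y
  exact ⟨C, fun s h2 h3 => by rw [h]; exact h1 s h2 h3⟩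

theorem plL_ne (L : List (ℂ × ℕ)) (hL : ∀ x ∈ L, x.2.Prime ∧ ‖x.1‖ ≤ Real.sqrt x.2) {s : ℂ}
    (hs : 1 / 2 < s.re) : plL L s ≠ 0 := by
  unfold plL
  rw [Ne, List.prod_eq_zero_iff, List.mem_map]
  rintro ⟨x, hx, h0⟩
  obtain ⟨h1, h2⟩ := hL x hx
  have h3 : (1 : ℝ) < x.2 := by exact_mod_cast h1.one_lt
  have h4 : ‖x.1 * (x.2 : ℂ) ^ (-s)‖ = 1 := by
    have : x.1 * (x.2 : ℂ) ^ (-s) = 1 := by linear_combination -h0
    rw [this, norm_one]
  rw [norm_mul, Complex.norm_natCast_cpow_of_pos h1.pos, Complex.neg_re] at h4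
  have h5 : ‖x.1‖ * (x.2 : ℝ) ^ (-s.re) < 1 := by
    calc ‖x.1‖ * (x.2 : ℝ) ^ (-s.re) ≤ Real.sqrt x.2 * (x.2 : ℝ) ^ (-s.re) := by gcongr
      _ = (x.2 : ℝ) ^ (1 / 2 - s.re) := by
          rw [Real.sqrt_eq_rpow, ← Real.rpow_add (by linarith), sub_eq_add_neg]
      _ < 1 := Real.rpow_lt_one_of_one_lt_of_neg h3 (by linarith)
  linarith

theorem plL_ne_left (L : List (ℂ × ℕ)) (hL : ∀ x ∈ L, x.2.Prime) :
    ∃ b : ℝ, ∀ s : ℂ, s.re < b → plL L s ≠ 0 := by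
  induction L with
  | nil => exact ⟨0, fun s _ => by rw [plL, List.map_nil, List.prod_nil]; exact one_ne_zero⟩
  | cons x L ih =>
    obtain ⟨b, hb⟩ := ih fun y hy => hL y (List.mem_cons_of_mem _ hy)
    have hx := hL x List.mem_cons_self
    have hx1 : (1 : ℝ) < x.2 := by exact_mod_cast hx.one_lt
    by_cases h0 : x.1 = 0
    · refine ⟨b, fun s hs => ?_⟩
      rw [plL, List.map_cons, List.prod_cons, h0, zero_mul, sub_zero, one_mul]
      exact hb s hs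
    · have hx0 : 0 < ‖x.1‖ := norm_pos_iff.2 h0
      refine ⟨min b (Real.log ‖x.1‖ / Real.log x.2), fun s hs => ?_⟩
      have hs1 := lt_of_lt_of_le hs (min_le_left _ _)
      have hs2 := lt_of_lt_of_le hs (min_le_right _ _)
      rw [plL, List.map_cons, List.prod_cons]
      refine mul_ne_zero ?_ (hb s hs1)
      intro h1
      have h4 : ‖x.1 * (x.2 : ℂ) ^ (-s)‖ = 1 := by
        have : x.1 * (x.2 : ℂ) ^ (-s) = 1 := by linear_combination -h1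
        rw [this, norm_one]
      rw [norm_mul, Complex.norm_natCast_cpow_of_pos hx.pos, Complex.neg_re] at h4
      have h5 := congrArg Real.log h4
      have hp : 0 < (x.2 : ℝ) ^ (-s.re) := Real.rpow_pos_of_pos (by linarith) _
      rw [Real.log_mul hx0.ne' hp.ne', Real.log_rpow (by linarith), Real.log_one] at h5
      have hl : 0 < Real.log x.2 := Real.log_pos hx1
      rw [lt_div_iff₀ hl] at hs2
      linarith

theorem pl_ne' {s : ℂ} (hs : 1 / 2 < s.re) : D.pl F s ≠ 0 := by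
  obtain ⟨L, hL, h⟩ := pl_list D F
  rw [h]
  exact plL_ne L (fun x hx => ⟨(hL x hx).1, (hL x hx).2.2⟩) hs

theorem pl_ne_left : ∃ b : ℝ, ∀ s : ℂ, s.re < b → D.pl F s ≠ 0 := by
  obtain ⟨L, hL, h⟩ := pl_list D F
  obtain ⟨b, hb⟩ := plL_ne_left L fun x hx => (hL x hx).1
  exact ⟨b, fun s hs => by rw [h]; exact hb s hs⟩

end Pool.Agent.QD.In
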