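import Pool.Agent.QD.In.CongD
import Pool.Agent.QD.In.CongL
import Pool.Agent.QD.In.LocF

/-!
# QD-In-GGX: the factor `GGX` of the functional equation of the L-function

`GGX S D a x s = wx * (D0^2 cdx)^(1-s) * (gam1(2-s)/gam1(s))^(2n) * plx(s)/plx(2-s) * ∏ FF(2-s)/FF(s)`
(In/Def.lean).

PLAN.  `GGX_congr`: `wx_congr`, `D0_congr`, `cdx_congr`, `plx_congr`, `tt_congr`.
`GGX_diff`, `GGX_bd`: `gam1_ratio_diff`, `gam1_ratio_bd` (In/Strip.lean, with `ps_mono`), `pl_ratio_bd`,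
`pl_ratio_diff` (In/Pl.lean; `plx` is `D.pl` of a field or the square of one), `ff_ratio_bd`,
`ff_ratio_diff` (In/LocF.lean; `nrm_ge` for places away from `T`), `ps_mul`, `ps_prod`, `ps_cpow`.
`GGX_insert`: `Finset.filter_insert`, `Finset.prod_insert`, `D0_insert`, `Complex.mul_cpow_ofReal_nonneg`,
`tt x v = uK v x` (`tt_uK`).
`GGX_ne`: `wx_cases`; `gam1 s ≠ 0` if `Im s ≠ 0` (`Complex.Gamma_ne_zero`: `s` is not `-m`);
`gam1 (2-s) ≠ 0` (`gam1_ne`); `pl_ne_left`, `pl_ne'`; `ff_ne`, `ffi_ne`.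
`loc_id`: `FF a q (-1) s = ((1 - λ X + q X²)(1 + λ X + q X²))⁻¹`, `X = q^(-s)`, `FF a q 0 s = (1 - λ X + q X²)⁻¹`;
with `Y = q^(-(2-s)) = q^(-2) X⁻¹`: `1 + λ Y + q Y² = q^(-3) X^(-2) (1 + λ q X + q³ X²)`; the factors at `2-s` are
not zero (`efac_den_ne`, `Fm_den_ne` in HWR/LocalEst.lean).
-/

namespace Pool.Agent.QD.In

open NumberField IsDedekindDomain Pool.Agent.HWR

private theorem q_pow2 {q : ℕ} (w : ℂ) : ((q ^ 2 : ℕ) : ℂ) ^ w = ((q : ℂ) ^ w) ^ 2 := by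
  have h1 : ((q ^ 2 : ℕ) : ℂ) = (q : ℂ) * (q : ℂ) := by push_cast; ring
  rw [h1, Complex.natCast_mul_natCast_cpow, pow_two]

private theorem q_one_sub {q : ℕ} (hq : q ≠ 0) (s : ℂ) :
    (q : ℂ) ^ (1 - s) = q * (q : ℂ) ^ (-s) := by
  have h0 : (q : ℂ) ≠ 0 := by exact_mod_cast hq
  rw [sub_eq_add_neg, Complex.cpow_add _ _ h0, Complex.cpow_one]

private theorem q_one_sub2 {q : ℕ} (hq : q ≠ 0) (s : ℂ) :
    (q : ℂ) ^ (1 - 2 * s) = q * ((q : ℂ) ^ (-s)) ^ 2 := by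
  have h0 : (q : ℂ) ≠ 0 := by exact_mod_cast hq
  have h1 : (1 : ℂ) - 2 * s = 1 + (-s + -s) := by ring
  rw [h1, Complex.cpow_add _ _ h0, Complex.cpow_one, Complex.cpow_add _ _ h0, pow_two]

private theorem efi_sq {a : ℕ → ℝ} {q : ℕ} (hq : q ≠ 0) (h2 : a (q ^ 2) = a q ^ 2 - 2 * q)
    (s : ℂ) : efi a (q ^ 2) s =
      (1 - (a q : ℂ) * (q : ℂ) ^ (-s) + q * ((q : ℂ) ^ (-s)) ^ 2) *
        (1 + (a q : ℂ) * (q : ℂ) ^ (-s) + q * ((q : ℂ) ^ (-s)) ^ 2) := by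
  unfold efi
  rw [q_pow2, q_pow2, q_one_sub2 hq, h2]
  push_cast
  ring

private theorem efi_lin {a : ℕ → ℝ} {q : ℕ} (hq : q ≠ 0) (s : ℂ) : efi a q s =
      1 - (a q : ℂ) * (q : ℂ) ^ (-s) + q * ((q : ℂ) ^ (-s)) ^ 2 := by
  unfold efi
  rw [q_one_sub2 hq]

/-- the local identity at `v0` -/
theorem loc_id {a : ℕ → ℝ} (ha : ∀ q : ℕ, |a q| ≤ 2 * Real.sqrt q) {q : ℕ} (hq : 101 ≤ q)
    (h2 : a (q ^ 2) = a q ^ 2 - 2 * q) {s : ℂ} (hs : s.re < 1 / 2) :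
    FF a q (-1 : ℤ) (2 - s) * (FF a q (-1 : ℤ) s)⁻¹ *
        (1 + (a q : ℂ) * (q : ℂ) ^ (1 - s) + (q : ℂ) ^ (3 - 2 * s)) =
      (q : ℂ) ^ (2 * (1 - s)) * (FF a q (0 : ℤ) (2 - s) * (FF a q (0 : ℤ) s)⁻¹) *
        ((q : ℂ) * (1 + (a q : ℂ) * (q : ℂ) ^ (-s) + (q : ℂ) ^ (1 - 2 * s))) := by
  have hq0 : q ≠ 0 := by omega
  have h0 : (q : ℂ) ≠ 0 := by exact_mod_cast hq0
  have hre : 1 ≤ (2 - s).re := by
    rw [Complex.sub_re]
    have : (2 : ℂ).re = 2 := rfl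
    rw [this]
    linarith
  have e1 : ((-1 : ℤ) : ℂ) = -1 := by norm_num
  have e0 : ((0 : ℤ) : ℂ) = 0 := by norm_num
  have hne : FF a q (-1) (2 - s) ≠ 0 := ff_ne ha hq (-1) hre
  have hm : ∀ z : ℂ, (FF a q (-1) z)⁻¹ = efi a (q ^ 2) z := by
    intro z
    rw [ffi_eq, if_neg (by norm_num), if_pos rfl]
  have hz : ∀ z : ℂ, (FF a q 0 z)⁻¹ = efi a q z := by
    intro z
    rw [ffi_eq, if_neg (by norm_num), if_neg (by norm_num)]
  have hm' : FF a q (-1) (2 - s) = (efi a (q ^ 2) (2 - s))⁻¹ := by rw [← hm, inv_inv]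
  have hz' : FF a q 0 (2 - s) = (efi a q (2 - s))⁻¹ := by rw [← hz, inv_inv]
  have hAB : efi a (q ^ 2) (2 - s) ≠ 0 := by
    rw [← hm]
    exact inv_ne_zero hne
  rw [e1, e0, hm, hz, hm', hz', efi_sq hq0 h2, efi_sq hq0 h2, efi_lin hq0, efi_lin hq0]
  rw [efi_sq hq0 h2] at hAB
  set X : ℂ := (q : ℂ) ^ (-s) with hX
  set Y : ℂ := (q : ℂ) ^ (-(2 - s)) with hY
  have hX0 : X ≠ 0 := by
    rw [hX, Complex.cpow_ne_zero_iff]
    exact Or.inl h0
  have hXY : (q : ℂ) ^ 2 * X * Y = 1 := by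
    have h3 : (q : ℂ) ^ (-(2 - s)) = ((q : ℂ) ^ 2)⁻¹ * ((q : ℂ) ^ (-s))⁻¹ := by
      have h4 : -(2 - s) = -(2 : ℂ) + -(-s) := by ring
      rw [h4, Complex.cpow_add _ _ h0, Complex.cpow_neg (q : ℂ) (-s), Complex.cpow_neg (q : ℂ) 2]
      congr 2
      exact Complex.cpow_ofNat (q : ℂ) 2
    rw [hY, h3, ← hX]
    field_simp
  have h5 : (q : ℂ) ^ (1 - s) = q * X := q_one_sub hq0 s
  have h6 : (q : ℂ) ^ (1 - 2 * s) = q * X ^ 2 := q_one_sub2 hq0 s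
  have h7 : (q : ℂ) ^ (3 - 2 * s) = q ^ 3 * X ^ 2 := by
    have h8 : (3 : ℂ) - 2 * s = 2 + (1 - 2 * s) := by ring
    have h9 : (q : ℂ) ^ (2 : ℂ) = (q : ℂ) ^ 2 := Complex.cpow_ofNat (q : ℂ) 2
    rw [h8, Complex.cpow_add _ _ h0, h6, h9]
    ring
  have h8 : (q : ℂ) ^ (2 * (1 - s)) = q ^ 2 * X ^ 2 := by
    have h9 : (2 : ℂ) * (1 - s) = (1 - s) + (1 - s) := by ring
    rw [h9, Complex.cpow_add _ _ h0, h5]
    ring
  rw [h5, h6, h7, h8]
  have hA : 1 - (a q : ℂ) * Y + q * Y ^ 2 ≠ 0 := left_ne_zero_of_mul hAB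
  have hB : 1 + (a q : ℂ) * Y + q * Y ^ 2 ≠ 0 := right_ne_zero_of_mul hAB
  have key : 1 + (a q : ℂ) * (q * X) + q ^ 3 * X ^ 2
      = q ^ 3 * X ^ 2 * (1 + (a q : ℂ) * Y + q * Y ^ 2) := by
    linear_combination (-(q : ℂ) * X * (a q : ℂ) - ((q : ℂ) ^ 2 * X * Y + 1)) * hXY
  rw [key, mul_inv]
  have h10 : (1 - (a q : ℂ) * Y + q * Y ^ 2)⁻¹ * (1 + (a q : ℂ) * Y + q * Y ^ 2)⁻¹ *
      ((1 - (a q : ℂ) * X + q * X ^ 2) * (1 + (a q : ℂ) * X + q * X ^ 2)) *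
      (q ^ 3 * X ^ 2 * (1 + (a q : ℂ) * Y + q * Y ^ 2))
      = (1 - (a q : ℂ) * Y + q * Y ^ 2)⁻¹ *
        ((1 - (a q : ℂ) * X + q * X ^ 2) * (1 + (a q : ℂ) * X + q * X ^ 2)) *
        (q ^ 3 * X ^ 2) * ((1 + (a q : ℂ) * Y + q * Y ^ 2)⁻¹ *
          (1 + (a q : ℂ) * Y + q * Y ^ 2)) := by ring
  rw [h10, inv_mul_cancel₀ hB]
  ring

variable {K : Type} [Field K] [NumberField K] {T : Finset ℕ} (D : LocData T)
  (S : Finset (HeightOneSpectrum (𝓞 K))) {a : ℕ → ℝ}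

theorem GGX_congr (h2 : ∀ v : HeightOneSpectrum (𝓞 K), (2 : 𝓞 K) ∈ v.asIdeal → v ∈ S)
    (hST : ∀ v, ¬ Away K T v → v ∈ S) {x y : Kˣ}
    (h : x / y ∈ HSub S) : GGX S D a x = GGX S D a y := by
  classical
  funext s
  unfold GGX
  rw [wx_congr D hST h, cdx_congr D hST h, plx_congr D hST h, D0_congr S h2 h]
  congr 1
  refine Finset.prod_congr rfl fun v hv => ?_
  rw [tt_congr h v (Finset.mem_filter.1 hv).1]

private theorem plx_ratio_bd (x : Kˣ) :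
    PolyStrip (1 / 2) fun s => plx D x s * (plx D x (2 - s))⁻¹ := by
  by_cases h : IsSquare x
  · have h1 := ps_pow (pl_ratio_bd D K) 2
    refine ps_congr h1 fun s _ => ?_
    unfold plx
    rw [dif_pos h, dif_pos h, mul_pow, inv_pow]
  · have h1 := pl_ratio_bd D (qf h).L
    refine ps_congr h1 fun s _ => ?_
    unfold plx
    rw [dif_neg h, dif_neg h]

private theorem plx_ratio_diff (x : Kˣ) {s : ℂ} (hs : s.re ≤ 1 / 2) :
    DifferentiableAt ℂ (fun s => plx D x s * (plx D x (2 - s))⁻¹) s := by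
  by_cases h : IsSquare x
  · have h1 := (pl_ratio_diff D K hs).pow 2
    have h2 : (fun s => plx D x s * (plx D x (2 - s))⁻¹) =
        fun s => (D.pl K s * (D.pl K (2 - s))⁻¹) ^ 2 := by
      funext s
      unfold plx
      rw [dif_pos h, dif_pos h, mul_pow, inv_pow]
    rw [h2]
    exact h1
  · have h1 := pl_ratio_diff D (qf h).L hs
    have h2 : (fun s => plx D x s * (plx D x (2 - s))⁻¹) =
        fun s => D.pl (qf h).L s * (D.pl (qf h).L (2 - s))⁻¹ := by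
      funext s
      unfold plx
      rw [dif_neg h, dif_neg h]
    rw [h2]
    exact h1

private theorem plx_ne (x : Kˣ) {s : ℂ} (hs : 1 / 2 < s.re) : plx D x s ≠ 0 := by
  unfold plx
  split_ifs with h
  · exact pow_ne_zero 2 (pl_ne' D K hs)
  · exact pl_ne' D _ hs

private theorem plx_ne_left (x : Kˣ) : ∃ b : ℝ, ∀ s : ℂ, s.re < b → plx D x s ≠ 0 := by
  by_cases h : IsSquare x
  · obtain ⟨b, hb⟩ := pl_ne_left D K
    refine ⟨b, fun s hs => ?_⟩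
    unfold plx
    rw [dif_pos h]
    exact pow_ne_zero 2 (hb s hs)
  · obtain ⟨b, hb⟩ := pl_ne_left D (qf h).L
    refine ⟨b, fun s hs => ?_⟩
    unfold plx
    rw [dif_neg h]
    exact hb s hs

private theorem AA_pos (x : Kˣ) : 0 < D0 S x ^ 2 * cdx D x :=
  mul_pos (pow_pos (D0_pos S x) 2) (cdx_pos D x)

variable (hT : ∀ p : ℕ, p.Prime → p < 101 → p ∈ T) (ha : ∀ q : ℕ, |a q| ≤ 2 * Real.sqrt q) (x : Kˣ)
include hT ha

theorem GGX_diff {s : ℂ} (hs : s.re < 1 / 2) : DifferentiableAt ℂ (GGX S D a x) s := by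
  classical
  have h0 : ((D0 S x ^ 2 * cdx D x : ℝ) : ℂ) ≠ 0 := by
    exact_mod_cast (AA_pos D S x).ne'
  have h1 : DifferentiableAt ℂ (fun s : ℂ => ((D0 S x ^ 2 * cdx D x : ℝ) : ℂ) ^ (1 - s)) s :=
    DifferentiableAt.const_cpow (by fun_prop) (Or.inl h0)
  have h2 : DifferentiableAt ℂ
      (fun s : ℂ => (gam1 (2 - s) * (gam1 s)⁻¹) ^ (2 * Module.finrank ℚ K)) s :=
    (gam1_ratio_diff (by linarith)).pow _
  have h3 := plx_ratio_diff D x hs.le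
  have h4 : ∀ R : Finset (HeightOneSpectrum (𝓞 K)), (∀ v ∈ R, Away K T v) →
      DifferentiableAt ℂ (fun s => ∏ v ∈ R,
        (FF a (nrm v) (tt x v) (2 - s) * (FF a (nrm v) (tt x v) s)⁻¹)) s := by
    intro R
    induction R using Finset.induction_on with
    | empty =>
      intro _
      simp only [Finset.prod_empty]
      exact differentiableAt_const _
    | insert v R hv ih =>
      intro hR
      have h5 := ih fun w hw => hR w (Finset.mem_insert_of_mem hw)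
      have h6 := ff_ratio_diff ha (nrm_ge K T hT v (hR v (Finset.mem_insert_self v R)))
        (tt x v : ℂ) hs.le
      have h7 : (fun s => ∏ v ∈ insert v R,
          (FF a (nrm v) (tt x v) (2 - s) * (FF a (nrm v) (tt x v) s)⁻¹)) =
          fun s => (FF a (nrm v) (tt x v) (2 - s) * (FF a (nrm v) (tt x v) s)⁻¹) *
            ∏ v ∈ R, (FF a (nrm v) (tt x v) (2 - s) * (FF a (nrm v) (tt x v) s)⁻¹) := by
        funext z
        rw [Finset.prod_insert hv]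
      rw [h7]
      exact h6.mul h5
  have h5 := h4 (S.filter fun v => Away K T v) fun v hv => (Finset.mem_filter.1 hv).2
  exact ((((differentiableAt_const (wx D x)).mul h1).mul h2).mul h3).mul h5

theorem GGX_bd : PolyStrip (1 / 2) (GGX S D a x) := by
  classical
  have h1 := ps_cpow (1 / 2) (AA_pos D S x) (-1) 1
  have h2 := ps_pow (ps_mono gam1_ratio_bd (by norm_num : (1 / 2 : ℝ) ≤ 1))
    (2 * Module.finrank ℚ K)
  have h4 : PolyStrip (1 / 2) fun s => ∏ v ∈ S.filter (fun v => Away K T v),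
      (FF a (nrm v) (tt x v) (2 - s) * (FF a (nrm v) (tt x v) s)⁻¹) :=
    ps_prod _ fun v hv => ff_ratio_bd ha (nrm_ge K T hT v (Finset.mem_filter.1 hv).2) _
  refine ps_congr (ps_mul (ps_mul (ps_mul (ps_mul (ps_const (1 / 2) (wx D x)) h1) h2)
    (plx_ratio_bd D x)) h4) fun s _ => ?_
  have h5 : ((-1 : ℝ) : ℂ) * s + ((1 : ℝ) : ℂ) = 1 - s := by
    push_cast
    ring
  rw [h5]
  rfl

theorem GGX_ne : ∃ b0 : ℝ, ∀ s : ℂ, s.re < b0 → s.im ≠ 0 → GGX S D a x s ≠ 0 := by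
  classical
  obtain ⟨b, hb⟩ := plx_ne_left D x
  refine ⟨min b 0, fun s hs him => ?_⟩
  have hs1 : s.re < b := hs.trans_le (min_le_left _ _)
  have hs0 : s.re < 0 := hs.trans_le (min_le_right _ _)
  have hre : (2 - s).re = 2 - s.re := by
    rw [Complex.sub_re]
    rfl
  have hw : wx D x ≠ 0 := by
    rcases wx_cases D x with h | h <;> rw [h] <;> norm_num
  have hA : ((D0 S x ^ 2 * cdx D x : ℝ) : ℂ) ^ (1 - s) ≠ 0 := by
    rw [Complex.cpow_ne_zero_iff]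
    left
    exact_mod_cast (AA_pos D S x).ne'
  have hg : gam1 s ≠ 0 := by
    unfold gam1
    refine mul_ne_zero ?_ (Complex.Gamma_ne_zero fun m hm => ?_)
    · rw [Complex.cpow_ne_zero_iff]
      left
      exact_mod_cast (by positivity : (2 * Real.pi : ℝ) ≠ 0)
    · apply him
      rw [hm]
      simp
  have hg2 : gam1 (2 - s) ≠ 0 := by
    unfold gam1
    refine mul_ne_zero ?_ (Complex.Gamma_ne_zero_of_re_pos (by rw [hre]; linarith))
    rw [Complex.cpow_ne_zero_iff]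
    left
    exact_mod_cast (by positivity : (2 * Real.pi : ℝ) ≠ 0)
  have hp : plx D x (2 - s) ≠ 0 := plx_ne D x (by rw [hre]; linarith)
  unfold GGX
  refine mul_ne_zero (mul_ne_zero (mul_ne_zero (mul_ne_zero hw hA) (pow_ne_zero _
    (mul_ne_zero hg2 (inv_ne_zero hg)))) (mul_ne_zero (hb s hs1) (inv_ne_zero hp))) ?_
  refine Finset.prod_ne_zero_iff.2 fun v hv => ?_
  have hq := nrm_ge K T hT v (Finset.mem_filter.1 hv).2
  exact mul_ne_zero (ff_ne ha hq _ (by rw [hre]; linarith)) (ffi_ne ha hq _ hs0.le)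

omit hT ha in
/-- one more place, not over `2`, away from `T` -/
theorem GGX_insert [DecidableEq (HeightOneSpectrum (𝓞 K))] (v : HeightOneSpectrum (𝓞 K))
    (hv : v ∉ S) (h2 : (2 : 𝓞 K) ∉ v.asIdeal) (hvT : Away K T v) (x : Kˣ) (s : ℂ) :
    GGX (insert v S) D a x s = GGX S D a x s *
      ((if Odd (ordK v x) then (nrm v : ℂ) ^ (2 * (1 - s)) else 1) *
        (FF a (nrm v) (uK v x) (2 - s) * (FF a (nrm v) (uK v x) s)⁻¹)) := by
  classical
  unfold GGX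
  rw [Finset.filter_insert, if_pos hvT, Finset.prod_insert
    (fun h => hv (Finset.mem_filter.1 h).1), D0_insert S v hv, tt_uK x v h2]
  have h1 : (((D0 S x * ((if Odd (ordK v x) then nrm v else 1 : ℕ) : ℝ)) ^ 2 * cdx D x : ℝ) : ℂ)
        ^ (1 - s) = ((D0 S x ^ 2 * cdx D x : ℝ) : ℂ) ^ (1 - s) *
      (if Odd (ordK v x) then (nrm v : ℂ) ^ (2 * (1 - s)) else 1) := by
    have h3 : (D0 S x * ((if Odd (ordK v x) then nrm v else 1 : ℕ) : ℝ)) ^ 2 * cdx D x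
        = (D0 S x ^ 2 * cdx D x) * (((if Odd (ordK v x) then nrm v else 1 : ℕ) : ℝ)) ^ 2 := by
      ring
    rw [h3, Complex.ofReal_mul, Complex.mul_cpow_ofReal_nonneg (AA_pos D S x).le
      (by positivity)]
    congr 1
    split_ifs with h4
    · have h5 : (((nrm v : ℝ) ^ 2 : ℝ) : ℂ) = ((nrm v ^ 2 : ℕ) : ℂ) := by push_cast; ring
      rw [h5, q_pow2, pow_two, ← Complex.cpow_add _ _ (by exact_mod_cast nrm_ne_zero v)]
      congr 1
      ring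
    · simp
  rw [h1]
  ring

/-- the relation between the two factors -/
theorem GGX_rel [DecidableEq (HeightOneSpectrum (𝓞 K))] (ha2 : SqRel K T a)
    (h2 : ∀ v : HeightOneSpectrum (𝓞 K), (2 : 𝓞 K) ∈ v.asIdeal → v ∈ S)
    (hST : ∀ v, ¬ Away K T v → v ∈ S) (v : HeightOneSpectrum (𝓞 K)) (hv : v ∉ S) {z1 z2 : Kˣ}
    (h12 : z1 / z2 ∈ HSub S) (h1 : uK v z1 = -1) (h3 : Odd (ordK v z2)) {s : ℂ}
    (hs : s.re < 1 / 2) :
    GGX (insert v S) D a z1 s *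
        (1 + (a (nrm v) : ℂ) * (nrm v : ℂ) ^ (1 - s) + (nrm v : ℂ) ^ (3 - 2 * s)) =
      GGX (insert v S) D a z2 s *
        ((nrm v : ℂ) * (1 + (a (nrm v) : ℂ) * (nrm v : ℂ) ^ (-s) + (nrm v : ℂ) ^ (1 - 2 * s))) := by
  have hvT : Away K T v := by
    by_contra h
    exact hv (hST v h)
  have hv2 : (2 : 𝓞 K) ∉ v.asIdeal := fun h => hv (h2 v h)
  have hodd : ¬ Odd (ordK v z1) := by
    intro h
    unfold uK at h1
    rw [if_pos h] at h1
    norm_num at h1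
  have hu2 : uK v z2 = 0 := by
    unfold uK
    rw [if_pos h3]
  have key := loc_id ha (nrm_ge K T hT v hvT) (ha2 v hvT) hs
  rw [GGX_insert D S v hv hv2 hvT, GGX_insert D S v hv hv2 hvT, if_neg hodd, if_pos h3, h1, hu2,
    GGX_congr D S h2 hST h12, one_mul, mul_assoc (GGX S D a z2 s), mul_assoc (GGX S D a z2 s),
    key]

end Pool.Agent.QD.In
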