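import Pool.Agent.QD.In.V0a

/-!
# QD-In-V0b: the local sums

PLAN.  `q = nrm v0`, `X = q^(-w)`, `Y = q^(w-1) = q^(-(1-w))`, `X Y = 1/q`, `s = q^(1/2-w) = √q X`.
`zr q 1 w = (1-X)²/(1-Y)²`, `zr q (-1) w = (1-X)(1+X)/((1-Y)(1+Y))`, `zr q 0 w = (1-X)/(1-Y)`.
Expand the sum over the four `j` (`Fintype.sum_prod_type`, `Fintype.sum_bool`); `rp`: `1, p, e, e p`; orders:
`1` and `e` even, `p` and `e p` odd (`uK_cases`: `uK v0 e = -1 ≠ 0`, `uK_eq_zero_iff`, `ordK_mul`); symbols `uK`: `1, -1, 0, 0`.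
`m0_e` (`uK v0 x = -1`, so even order): by `hs_parity` (In/Alg.lean) `hs v0 x 1 = hs v0 x e = 1`,
`hs v0 x p = hs v0 x (e p) = uK v0 x = -1`:
`m0 = zr(1) + zr(-1) - 2 s zr(0) = (1-X)/((1-Y)²(1+Y)) * 2 (1 - XY - s (1 - Y²))` and
`1 - 1/q - s + s Y² = (1 - s)(1 + q^(w-3/2))`.
`m0_p` (odd order): `hs v0 x 1 = 1` , `hs v0 x e = uK v0 e = -1`, `hs v0 x (e p) = - hs v0 x p`
(`hs_comm`, `hs_mul_left` of N2Main): `m0 = zr(1) - zr(-1) = (1-X)/((1-Y)²(1+Y)) * 2 (Y - X)`, and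
`Y - X = (1 + q^(w-1/2)) (1 - q^(1/2-w)) / √q`.
`ph_ne`: for `Re w < 0`: `‖X‖ > 1`, `‖Y‖ < 1`, `‖q^(1/2-w)‖ > 1`.
-/

set_option linter.unusedSectionVars false

namespace Pool.Agent.QD.In

open NumberField IsDedekindDomain Pool.Agent.HWR

/-- the common factor -/
noncomputable def ph (q : ℕ) (w : ℂ) : ℂ :=
  2 * (1 - (q : ℂ) ^ (-w)) * ((1 - (q : ℂ) ^ (w - 1)) ^ 2 * (1 + (q : ℂ) ^ (w - 1)))⁻¹ *
    (1 - (q : ℂ) ^ (1 / 2 - w)) * ((Real.sqrt q : ℝ) : ℂ)⁻¹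

private theorem b_q {q : ℕ} (hq : 2 ≤ q) : (q : ℂ) ≠ 0 := by
  have : q ≠ 0 := by omega
  exact_mod_cast this

private theorem b_norm {q : ℕ} (hq : 2 ≤ q) (w : ℂ) : ‖(q : ℂ) ^ w‖ = (q : ℝ) ^ w.re :=
  Complex.norm_natCast_cpow_of_pos (by omega) w

private theorem b_lt {q : ℕ} (hq : 2 ≤ q) {w : ℂ} (hw : w.re < 0) : ‖(q : ℂ) ^ w‖ < 1 := by
  have hq1 : (1 : ℝ) < q := by
    have : 1 < q := by omega
    exact_mod_cast this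
  rw [b_norm hq]
  exact Real.rpow_lt_one_of_one_lt_of_neg hq1 hw

private theorem b_gt {q : ℕ} (hq : 2 ≤ q) {w : ℂ} (hw : 0 < w.re) : 1 < ‖(q : ℂ) ^ w‖ := by
  have hq1 : (1 : ℝ) < q := by
    have : 1 < q := by omega
    exact_mod_cast this
  rw [b_norm hq]
  exact Real.one_lt_rpow hq1 hw

private theorem b_ne_one {z : ℂ} (h : ‖z‖ ≠ 1) : 1 - z ≠ 0 := by
  intro h'
  have : z = 1 := (sub_eq_zero.1 h').symm
  rw [this, norm_one] at h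
  exact h rfl

private theorem b_ne_neg {z : ℂ} (h : ‖z‖ ≠ 1) : 1 + z ≠ 0 := by
  have := b_ne_one (z := -z) (by rwa [norm_neg])
  rwa [sub_neg_eq_add] at this

/-- the square root -/
private theorem b_sqrt {q : ℕ} : ((Real.sqrt q : ℝ) : ℂ) = (q : ℂ) ^ (1 / 2 : ℂ) := by
  rw [Real.sqrt_eq_rpow, Complex.ofReal_cpow (by positivity)]
  push_cast
  rfl

private theorem b_sqrt_ne {q : ℕ} (hq : 2 ≤ q) : ((Real.sqrt q : ℝ) : ℂ) ≠ 0 := by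
  have : (0 : ℝ) < q := by
    have : 0 < q := by omega
    exact_mod_cast this
  exact_mod_cast (Real.sqrt_pos.2 this).ne'

/-- relations between the powers -/
private theorem b_rel {q : ℕ} (hq : 2 ≤ q) (w : ℂ) :
    (q : ℂ) ^ (1 / 2 - w) = ((Real.sqrt q : ℝ) : ℂ) * (q : ℂ) ^ (-w) ∧
    (q : ℂ) ^ (w - 1 / 2) = ((Real.sqrt q : ℝ) : ℂ) * (q : ℂ) ^ (w - 1) ∧
    ((Real.sqrt q : ℝ) : ℂ) * (q : ℂ) ^ (w - 3 / 2) = (q : ℂ) ^ (w - 1) ∧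
    ((Real.sqrt q : ℝ) : ℂ) * ((Real.sqrt q : ℝ) : ℂ) * ((q : ℂ) ^ (-w) * (q : ℂ) ^ (w - 1)) = 1 := by
  have h0 := b_q hq
  rw [b_sqrt]
  refine ⟨?_, ?_, ?_, ?_⟩
  · rw [← Complex.cpow_add _ _ h0]; congr 1
  · rw [← Complex.cpow_add _ _ h0]; congr 1; ring
  · rw [← Complex.cpow_add _ _ h0]; congr 1; ring
  · rw [← Complex.cpow_add _ _ h0, ← Complex.cpow_add _ _ h0, ← Complex.cpow_add _ _ h0]
    have : (1 / 2 + 1 / 2 + (-w + (w - 1)) : ℂ) = 0 := by ring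
    rw [this, Complex.cpow_zero]

theorem ph_ne {q : ℕ} (hq : 2 ≤ q) {w : ℂ} (hw : w.re < 0) : ph q w ≠ 0 := by
  have h1 : 1 - (q : ℂ) ^ (-w) ≠ 0 :=
    b_ne_one (b_gt hq (by rw [Complex.neg_re]; linarith)).ne'
  have hY : ‖(q : ℂ) ^ (w - 1)‖ < 1 :=
    b_lt hq (by rw [Complex.sub_re, Complex.one_re]; linarith)
  have h2 : 1 - (q : ℂ) ^ (w - 1) ≠ 0 := b_ne_one hY.ne
  have h3 : 1 + (q : ℂ) ^ (w - 1) ≠ 0 := b_ne_neg hY.ne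
  have h4 : 1 - (q : ℂ) ^ (1 / 2 - w) ≠ 0 := by
    refine b_ne_one (b_gt hq ?_).ne'
    have : (1 / 2 : ℂ).re = 1 / 2 := by norm_num
    rw [Complex.sub_re, this]
    linarith
  have h5 := b_sqrt_ne hq
  unfold ph
  exact mul_ne_zero (mul_ne_zero (mul_ne_zero (mul_ne_zero two_ne_zero h1)
    (inv_ne_zero (mul_ne_zero (pow_ne_zero _ h2) h3))) h4) (inv_ne_zero h5)

/-- `1 + q^(w-3/2) ≠ 0` -/
theorem fac_ne {q : ℕ} (hq : 2 ≤ q) {w : ℂ} (hw : w.re < 0) :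
    ((Real.sqrt q : ℝ) : ℂ) * (1 + (q : ℂ) ^ (w - 3 / 2)) ≠ 0 := by
  refine mul_ne_zero (b_sqrt_ne hq) (b_ne_neg (b_lt hq ?_).ne)
  have : (3 / 2 : ℂ).re = 3 / 2 := by norm_num
  rw [Complex.sub_re, this]
  linarith

private theorem b_zr (q : ℕ) (t : ℤ) (w : ℂ) : zr q t w =
    ((1 - (q : ℂ) ^ (w - 1))⁻¹ * (1 - (t : ℂ) * (q : ℂ) ^ (w - 1))⁻¹) *
      ((1 - (q : ℂ) ^ (-w)) * (1 - (t : ℂ) * (q : ℂ) ^ (-w))) := by
  unfold zr zf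
  rw [mul_inv, inv_inv, inv_inv, neg_sub]

private theorem b_main_e {X Y r : ℂ} (hr : r ≠ 0) (h1 : 1 - Y ≠ 0) (h2 : 1 + Y ≠ 0)
    (h : r * r * (X * Y) = 1) :
    ((1 - Y)⁻¹ * (1 - 1 * Y)⁻¹) * ((1 - X) * (1 - 1 * X)) +
      ((1 - Y)⁻¹ * (1 - (-1) * Y)⁻¹) * ((1 - X) * (1 - (-1) * X)) -
      2 * (r * X) * (((1 - Y)⁻¹ * (1 - 0 * Y)⁻¹) * ((1 - X) * (1 - 0 * X))) =
    (r + Y) * (2 * (1 - X) * ((1 - Y) ^ 2 * (1 + Y))⁻¹ * (1 - r * X) * r⁻¹) := by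
  have e1 : 1 - (-1) * Y = 1 + Y := by ring
  have e2 : 1 - 1 * Y = 1 - Y := by ring
  have e3 : 1 - 0 * Y = 1 := by ring
  rw [e1, e2, e3]
  field_simp
  linear_combination (2 * (1 - X) * Y) * h

private theorem b_main_p {X Y r : ℂ} (hr : r ≠ 0) (h1 : 1 - Y ≠ 0) (h2 : 1 + Y ≠ 0)
    (h : r * r * (X * Y) = 1) :
    ((1 - Y)⁻¹ * (1 - 1 * Y)⁻¹) * ((1 - X) * (1 - 1 * X)) -
      ((1 - Y)⁻¹ * (1 - (-1) * Y)⁻¹) * ((1 - X) * (1 - (-1) * X)) =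
    (1 + r * Y) * (2 * (1 - X) * ((1 - Y) ^ 2 * (1 + Y))⁻¹ * (1 - r * X) * r⁻¹) := by
  have e1 : 1 - (-1) * Y = 1 + Y := by ring
  have e2 : 1 - 1 * Y = 1 - Y := by ring
  rw [e1, e2]
  field_simp
  linear_combination (2 * (1 - X)) * h

variable {K : Type} [Field K] [NumberField K] (v0 : HeightOneSpectrum (𝓞 K))
  (h2 : (2 : 𝓞 K) ∉ v0.asIdeal) {e p : Kˣ} (he : uK v0 e = -1) (hp : Odd (ordK v0 p))
include h2 he hp

/-- the sum in explicit form -/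
private theorem b_m0 (x : Kˣ) (w : ℂ) :
    m0 v0 e p x w = (hs v0 x 1 : ℂ) * zr (nrm v0) 1 w + (hs v0 x e : ℂ) * zr (nrm v0) (-1) w +
      ((hs v0 x p : ℂ) + (hs v0 x (e * p) : ℂ)) * ((nrm v0 : ℂ) ^ (1 / 2 - w) * zr (nrm v0) 0 w) := by
  have he2 : Even (ordK v0 e) := (uK_eq_neg_one_iff.1 he).1
  have hep : Odd (ordK v0 (e * p)) := by
    rw [ordK_mul]
    exact he2.add_odd hp
  have u1 : uK v0 p = 0 := uK_eq_zero_iff.2 hp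
  have u2 : uK v0 (e * p) = 0 := uK_eq_zero_iff.2 hep
  have o1 : ¬ Odd (ordK v0 (1 : Kˣ)) := by rw [ordK_one]; decide
  have o2 : ¬ Odd (ordK v0 e) := Int.not_odd_iff_even.2 he2
  unfold m0
  rw [Fintype.sum_prod_type, Fintype.sum_bool, Fintype.sum_bool, Fintype.sum_bool]
  simp only [rp, if_true, if_false, Bool.false_eq_true, mul_one, one_mul, if_pos hp, if_pos hep,
    if_neg o1, if_neg o2, u1, u2, he, uK_one v0]
  ring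

theorem m0_e {x : Kˣ} (hx : uK v0 x = -1) {w : ℂ} (hw : w.re < 0) :
    m0 v0 e p x w = ((Real.sqrt (nrm v0) : ℝ) : ℂ) * (1 + (nrm v0 : ℂ) ^ (w - 3 / 2)) *
      ph (nrm v0) w := by
  have hx2 : Even (ordK v0 x) := (uK_eq_neg_one_iff.1 hx).1
  have he2 : Even (ordK v0 e) := (uK_eq_neg_one_iff.1 he).1
  have hep : Odd (ordK v0 (e * p)) := by
    rw [ordK_mul]
    exact he2.add_odd hp
  have hq := two_le_nrm v0
  have h1 : hs v0 x 1 = 1 := (hs_parity v0 x 1).2.2 hx2 (by rw [ordK_one]; decide)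
  have h2' : hs v0 x e = 1 := (hs_parity v0 x e).2.2 hx2 he2
  have h3 : hs v0 x p = -1 := ((hs_parity v0 x p).2.1 hx2 hp).trans hx
  have h4 : hs v0 x (e * p) = -1 := ((hs_parity v0 x (e * p)).2.1 hx2 hep).trans hx
  have hY : ‖(nrm v0 : ℂ) ^ (w - 1)‖ < 1 :=
    b_lt hq (by rw [Complex.sub_re, Complex.one_re]; linarith)
  obtain ⟨r1, r2, r3, r4⟩ := b_rel hq w
  rw [b_m0 v0 h2 he hp, h1, h2', h3, h4, b_zr, b_zr, b_zr]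
  have key := b_main_e (b_sqrt_ne hq) (b_ne_one hY.ne) (b_ne_neg hY.ne) r4
  unfold ph
  rw [mul_add, mul_one, r3, r1, ← key]
  push_cast
  ring

theorem m0_p {x : Kˣ} (hx : Odd (ordK v0 x)) {w : ℂ} (hw : w.re < 0) :
    m0 v0 e p x w = (1 + (nrm v0 : ℂ) ^ (w - 1 / 2)) * ph (nrm v0) w := by
  have he2 : Even (ordK v0 e) := (uK_eq_neg_one_iff.1 he).1
  have hq := two_le_nrm v0
  have h1 : hs v0 x 1 = 1 :=
    ((hs_parity v0 x 1).1 hx (by rw [ordK_one]; decide)).trans (uK_one v0)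
  have h2' : hs v0 x e = -1 := ((hs_parity v0 x e).1 hx he2).trans he
  have h4 : hs v0 x (e * p) = - hs v0 x p := by
    rw [hs_comm v0 h2, hs_mul_left v0 h2, hs_comm v0 h2 e x, h2', hs_comm v0 h2 p x]
    ring
  have hY : ‖(nrm v0 : ℂ) ^ (w - 1)‖ < 1 :=
    b_lt hq (by rw [Complex.sub_re, Complex.one_re]; linarith)
  obtain ⟨r1, r2, r3, r4⟩ := b_rel hq w
  rw [b_m0 v0 h2 he hp, h1, h2', h4, b_zr, b_zr, b_zr]
  have key := b_main_p (b_sqrt_ne hq) (b_ne_one hY.ne) (b_ne_neg hY.ne) r4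
  unfold ph
  rw [r2, r1, ← key]
  push_cast
  ring

end Pool.Agent.QD.In
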