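import Pool.Agent.QD.In.V0a

/-!
# QD-In-V0c: some `Mx S' x w` is not zero

PLAN.  `∑_g Mx S' (out g) w = ∑_b GamX S' (out b) w ∑_g Bc S' g b = |G| GamX S' (out 1) w` by `sum_Bc`
(In/Cls.lean; `Finset.sum_comm`), `Bc S' g 1 = 1` (`Bc_mk` with `y = 1`, `BS_recip`, `BS_comm`); it is not
zero for `w = -1 + i` by `GamX_ne`.  If all `Mx` vanished the sum would vanish.
-/

namespace Pool.Agent.QD.In

open NumberField IsDedekindDomain Pool.Agent.HWR

variable {K : Type} [Field K] [NumberField K]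

theorem Mx_congr {T1 : Finset ℕ} {S' : Finset (HeightOneSpectrum (𝓞 K))} (hS' : Nic T1 S')
    {x y : Kˣ} (h : x / y ∈ HSub S') (w : ℂ) : Mx S' x w = Mx S' y w := by
  have _ := hS'
  unfold Mx
  rw [(mk_eq_iff S' x y).2 h]

theorem Bc_one_right {T1 : Finset ℕ} {S' : Finset (HeightOneSpectrum (𝓞 K))} (hS' : Nic T1 S')
    (g : GS S') : Bc S' g 1 = 1 := by
  have h1 : Bc S' 1 g = Bc S' 1 g * Bc S' 1 g :=
    (congrArg (fun t => Bc S' t g) (mul_one (1 : GS S'))).symm.trans (Bc_mul hS' 1 1 g)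
  rw [Bc_comm hS']
  rcases Bc_sq hS' 1 g with h | h
  · exact h
  · rw [h] at h1
    norm_num at h1

theorem exists_Mx_ne {T1 : Finset ℕ} {S' : Finset (HeightOneSpectrum (𝓞 K))} (hS' : Nic T1 S') :
    ∃ (x : Kˣ) (w : ℂ), w.re < 0 ∧ Mx S' x w ≠ 0 := by
  classical
  let _ : Fintype (GS S') := Fintype.ofFinite _
  have hre : (-1 + Complex.I : ℂ).re < 0 := by simp
  have him : (-1 + Complex.I : ℂ).im ≠ 0 := by simp
  generalize (-1 + Complex.I : ℂ) = w at hre him
  by_contra hcon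
  push Not at hcon
  have h0 : ∑ g : GS S', Mx S' (Quotient.out g) w = 0 :=
    Finset.sum_eq_zero fun g _ => hcon _ _ hre
  have h1 : ∑ g : GS S', Mx S' (Quotient.out g) w =
      ∑ g : GS S', ∑ b : GS S', Bc S' g b * GamX S' (Quotient.out b) w := by
    refine Finset.sum_congr rfl fun g _ => ?_
    unfold Mx
    rw [QuotientGroup.out_eq']
  rw [h1, Finset.sum_comm] at h0
  have h2 : ∀ b : GS S', ∑ g : GS S', Bc S' g b * GamX S' (Quotient.out b) w =
      if b = 1 then (Fintype.card (GS S') : ℂ) * GamX S' (Quotient.out b) w else 0 := by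
    intro b
    rw [← Finset.sum_mul]
    split_ifs with hb
    · subst hb
      congr 1
      rw [Finset.sum_congr rfl fun g _ => Bc_one_right hS' g]
      simp
    · rw [sum_Bc hS' b hb, zero_mul]
  rw [Finset.sum_congr rfl fun b _ => h2 b, Finset.sum_ite_eq' Finset.univ (1 : GS S')] at h0
  rw [if_pos (Finset.mem_univ _)] at h0
  rcases mul_eq_zero.1 h0 with h3 | h3
  · exact Fintype.card_ne_zero (Nat.cast_eq_zero.1 h3)
  · exact GamX_ne S' _ hre him h3

end Pool.Agent.QD.In
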