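import Pool.Agent.QD.In.Def

/-!
# QD-In-Ex: existence of a good finite set of places and of the auxiliary place

PLAN.  `not_away_finite`: for `p ∈ T` (`p ≠ 0`) the places containing `p` are finitely many
(`finite_mem` in N3/Basic.lean).
`exists_good`: the class group is finite; for every class `C` choose an integral ideal `I_C ≠ 0` of
class `C` (`ClassGroup.mk0` is surjective), let `N` be the product of the absolute norms `Ideal.absNorm I_C`, and
`T1 = T ∪ N.primeFactors`.  If `v` is away from `T1` then `v` contains no `I_C` (a prime ideal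
containing `I_C` contains its norm, `Ideal.absNorm_mem`, hence a prime factor of `N`), so the order of
`I_C` at `v` is `0`.  With `C` = class of `v`: `ClassGroup.mk0_eq_mk0_iff`: `(α) v = (β) I_C` with
`α, β ≠ 0`; `x = β / α` or its inverse: order `1` at `v`, and order `0` at every other place away
from `T1` (compare orders of the ideals `v`, `I_C` there; N3/Basic has `le_ordK_iff_of_int`, or
`Associates.count`/`HeightOneSpectrum.intValuation`).
`exists_v0`: some place `v1 ∉ S'` exists (infinitely many places: above the primes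
`p > max T1`, or use `exists_inert` of N3Main for any nonsquare); a nonsquare exists: `x` with
`ordK v1 x = 1` (`nic_pi`) is not a square (a square has even order); then `exists_inert S' x`
(N3Main) gives `v0 ∉ S'` with `uK v0 x = -1`: `e = x`; `p` from `nic_pi` at `v0`.
-/

namespace Pool.Agent.QD.In

open NumberField IsDedekindDomain Pool.Agent.HWR

theorem not_away_finite (K : Type) [Field K] [NumberField K] (T : Finset ℕ)
    (hTp : ∀ p ∈ T, p.Prime) : {v : HeightOneSpectrum (𝓞 K) | ¬ Away K T v}.Finite := by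
  have h : {v : HeightOneSpectrum (𝓞 K) | ¬ Away K T v} ⊆
      ⋃ p ∈ (T : Set ℕ), {v : HeightOneSpectrum (𝓞 K) | ((p : ℕ) : 𝓞 K) ∈ v.asIdeal} := by
    intro v hv
    simp only [Set.mem_ofPred_eq, Away, not_forall, not_not] at hv
    obtain ⟨p, hp, hv⟩ := hv
    simp only [Set.mem_iUnion, Set.mem_ofPred_eq]
    exact ⟨p, hp, hv⟩
  refine Set.Finite.subset (Set.Finite.biUnion T.finite_toSet (fun p hp => ?_)) h
  refine finite_mem _ ?_
  exact_mod_cast (hTp p hp).ne_zero

private theorem ex_prime_mem {K : Type} [Field K] [NumberField K]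
    (v : HeightOneSpectrum (𝓞 K)) (n : ℕ) :
    n ≠ 0 → ((n : ℕ) : 𝓞 K) ∈ v.asIdeal →
      ∃ p : ℕ, p.Prime ∧ p ∣ n ∧ ((p : ℕ) : 𝓞 K) ∈ v.asIdeal := by
  induction n using induction_on_primes with
  | zero => exact fun h => absurd rfl h
  | one =>
    intro _ h
    exfalso
    rw [Nat.cast_one] at h
    exact v.isPrime.ne_top ((Ideal.eq_top_iff_one _).2 h)
  | prime_mul p a hp ih =>
    intro h1 h2
    rw [Nat.cast_mul] at h2
    rcases v.isPrime.mem_or_mem h2 with h3 | h3
    · exact ⟨p, hp, dvd_mul_right p a, h3⟩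
    · obtain ⟨q, hq1, hq2, hq3⟩ := ih (fun h => h1 (by rw [h, mul_zero])) h3
      exact ⟨q, hq1, hq2.mul_left p, hq3⟩

theorem exists_good (K : Type) [Field K] [NumberField K] (T : Finset ℕ)
    (hTp : ∀ p ∈ T, p.Prime) (h2 : 2 ∈ T) :
    ∃ (T1 : Finset ℕ) (S : Finset (HeightOneSpectrum (𝓞 K))), T ⊆ T1 ∧ (∀ p ∈ T1, p.Prime) ∧
      OverT T1 S ∧ Good S := by
  classical
  choose I hI using (ClassGroup.mk0_surjective (R := 𝓞 K))
  have hI0 : ∀ C : ClassGroup (𝓞 K), (I C : Ideal (𝓞 K)) ≠ 0 := fun C =>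
    nonZeroDivisors.coe_ne_zero (I C)
  set N : ℕ := ∏ C : ClassGroup (𝓞 K), Ideal.absNorm (I C : Ideal (𝓞 K)) with hN
  have hN0 : N ≠ 0 := by
    rw [hN, Finset.prod_ne_zero_iff]
    intro C _
    rw [Ne, Ideal.absNorm_eq_zero_iff]
    exact hI0 C
  set T1 : Finset ℕ := T ∪ N.primeFactors with hT1
  have hT1p : ∀ p ∈ T1, p.Prime := by
    intro p hp
    rw [hT1, Finset.mem_union] at hp
    rcases hp with hp | hp
    · exact hTp p hp
    · exact Nat.prime_of_mem_primeFactors hp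
  have hfin := not_away_finite K T1 hT1p
  have hS : ∀ v : HeightOneSpectrum (𝓞 K), v ∈ hfin.toFinset ↔ ¬ Away K T1 v := by
    intro v
    rw [Set.Finite.mem_toFinset, Set.mem_ofPred_eq]
  refine ⟨T1, hfin.toFinset, Finset.subset_union_left, hT1p, hS, ?_, ?_⟩
  · intro v hv
    rw [hS]
    intro ha
    exact ha 2 (Finset.mem_union_left _ h2) (by exact_mod_cast hv)
  · -- the places outside `S` are principal modulo `S`
    have haway : ∀ v : HeightOneSpectrum (𝓞 K), v ∉ hfin.toFinset →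
        ∀ C, ¬ (v.asIdeal ∣ (I C : Ideal (𝓞 K))) := by
      intro v hv C hdvd
      rw [hS, not_not] at hv
      have h3 : ((Ideal.absNorm (I C : Ideal (𝓞 K)) : ℕ) : 𝓞 K) ∈ v.asIdeal :=
        Ideal.le_of_dvd hdvd (Ideal.absNorm_mem _)
      have h4 : ((N : ℕ) : 𝓞 K) ∈ v.asIdeal := by
        obtain ⟨M, hM⟩ : Ideal.absNorm (I C : Ideal (𝓞 K)) ∣ N :=
          Finset.dvd_prod_of_mem _ (Finset.mem_univ C)
        rw [hM, Nat.cast_mul]
        exact Ideal.mul_mem_right _ _ h3
      obtain ⟨p, hp1, hp2, hp3⟩ := ex_prime_mem v N hN0 h4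
      exact hv p (Finset.mem_union_right _ (Nat.mem_primeFactors.2 ⟨hp1, hp2, hN0⟩)) hp3
    intro v hv
    set J : nonZeroDivisors (Ideal (𝓞 K)) :=
      ⟨v.asIdeal, mem_nonZeroDivisors_iff_ne_zero.2 v.ne_bot⟩ with hJ
    set C := ClassGroup.mk0 J with hC
    have h5 : ClassGroup.mk0 J = ClassGroup.mk0 (I C) := by rw [hI, ← hC]
    rw [ClassGroup.mk0_eq_mk0_iff] at h5
    obtain ⟨α, β, hα, hβ, h6⟩ := h5
    have h7 : Ideal.span {α} * v.asIdeal = Ideal.span {β} * (I C : Ideal (𝓞 K)) := h6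
    have hα' : algebraMap (𝓞 K) K α ≠ 0 := by simpa using hα
    have hβ' : algebraMap (𝓞 K) K β ≠ 0 := by simpa using hβ
    set A : Kˣ := Units.mk0 _ hα' with hA
    set B : Kˣ := Units.mk0 _ hβ' with hB
    have hdA : ∀ (w : HeightOneSpectrum (𝓞 K)) (n : ℕ), (n : ℤ) ≤ ordK w A ↔
        w.asIdeal ^ n ∣ Ideal.span {α} := by
      intro w n
      rw [le_ordK_iff_of_int w A α rfl n, Ideal.dvd_span_singleton]
    have hdB : ∀ (w : HeightOneSpectrum (𝓞 K)) (n : ℕ), (n : ℤ) ≤ ordK w B ↔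
        w.asIdeal ^ n ∣ Ideal.span {β} := by
      intro w n
      rw [le_ordK_iff_of_int w B β rfl n, Ideal.dvd_span_singleton]
    have hA0 : ∀ w, 0 ≤ ordK w A := fun w => ordK_nonneg_of_int w A α rfl
    have hB0 : ∀ w, 0 ≤ ordK w B := fun w => ordK_nonneg_of_int w B β rfl
    have hdBI : ∀ (w : HeightOneSpectrum (𝓞 K)) (n : ℕ), w ∉ hfin.toFinset →
        ((n : ℤ) ≤ ordK w B ↔ w.asIdeal ^ n ∣ Ideal.span {α} * v.asIdeal) := by
      intro w n hw
      rw [hdB, h7]
      exact ⟨fun h => h.mul_right _,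
        fun h => w.prime.pow_dvd_of_dvd_mul_right n (haway w hw C) h⟩
    refine ⟨B / A, ?_, ?_⟩
    · rw [ordK_div]
      have h8 : ∀ n : ℕ, (n : ℤ) ≤ ordK v A ↔ ((n + 1 : ℕ) : ℤ) ≤ ordK v B := by
        intro n
        rw [hdA, hdBI v (n + 1) hv, pow_succ]
        exact (mul_dvd_mul_iff_right v.ne_bot).symm
      obtain ⟨a, ha⟩ := Int.eq_ofNat_of_zero_le (hA0 v)
      obtain ⟨b, hb⟩ := Int.eq_ofNat_of_zero_le (hB0 v)
      have h9 := (h8 a).1 ha.ge
      have h10 : b - 1 ≤ a := by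
        rcases Nat.eq_zero_or_pos b with h0 | h0
        · omega
        · have := (h8 (b - 1)).2 (by rw [hb]; push_cast; omega)
          rw [ha] at this
          exact_mod_cast this
      rw [hb] at h9
      have h11 : a + 1 ≤ b := by exact_mod_cast h9
      rw [ha, hb]
      push_cast
      omega
    · intro w hw hwv
      rw [ordK_div]
      have hnd : ¬ (w.asIdeal ∣ v.asIdeal) := by
        intro h
        apply hwv
        have h12 : v.asIdeal ≤ w.asIdeal := Ideal.le_of_dvd h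
        have h13 : v.asIdeal = w.asIdeal := v.isMaximal.eq_of_le w.isPrime.ne_top h12
        exact HeightOneSpectrum.ext h13.symm
      have h8 : ∀ n : ℕ, (n : ℤ) ≤ ordK w A ↔ (n : ℤ) ≤ ordK w B := by
        intro n
        rw [hdA, hdBI w n hw]
        exact ⟨fun h => h.mul_right _, fun h => w.prime.pow_dvd_of_dvd_mul_right n hnd h⟩
      obtain ⟨a, ha⟩ := Int.eq_ofNat_of_zero_le (hA0 w)
      obtain ⟨b, hb⟩ := Int.eq_ofNat_of_zero_le (hB0 w)
      have h9 := (h8 a).1 ha.ge
      have h10 := (h8 b).2 hb.ge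
      rw [hb] at h9
      rw [ha] at h10
      rw [ha, hb]
      have h11 : a ≤ b := by exact_mod_cast h9
      have h12 : b ≤ a := by exact_mod_cast h10
      omega

private theorem exists_nonsq (K : Type) [Field K] [NumberField K] : ∃ x : Kˣ, ¬ IsSquare x := by
  obtain ⟨P, hP1, hP2⟩ := Ring.not_isField_iff_exists_prime.1 (RingOfIntegers.not_isField K)
  set v : HeightOneSpectrum (𝓞 K) := ⟨P, hP2, hP1⟩ with hv
  obtain ⟨π, hπ⟩ := v.valuation_exists_uniformizer K
  have hπ0 : π ≠ 0 := by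
    rintro rfl
    rw [map_zero] at hπ
    exact WithZero.exp_ne_zero hπ.symm
  refine ⟨Units.mk0 π hπ0, ?_⟩
  rintro ⟨y, hy⟩
  have h1 : ordK v (Units.mk0 π hπ0) = 1 := by
    rw [ordK_eq_iff]
    simpa using hπ
  rw [hy, ordK_mul] at h1
  omega

theorem exists_v0 {K : Type} [Field K] [NumberField K] {T1 : Finset ℕ}
    {S' : Finset (HeightOneSpectrum (𝓞 K))} (hS' : Nic T1 S') :
    ∃ (v0 : HeightOneSpectrum (𝓞 K)) (e p : Kˣ), v0 ∉ S' ∧ uK v0 e = -1 ∧ Odd (ordK v0 p) := by
  obtain ⟨x, hx⟩ := exists_nonsq K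
  obtain ⟨v0, h1, h2⟩ := exists_inert S' x hx
  obtain ⟨y, hy, -⟩ := nic_pi hS' v0 h1
  exact ⟨v0, x, y, h1, h2, by rw [hy]; exact odd_one⟩

end Pool.Agent.QD.In
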