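import Pool.Agent.QD.N3Main
import Pool.Agent.QD.N4.Uu

/-!
# QD-In-Alg: the algebraic part of the instantiation

`S` is a finite set of places with `Nic T S` (QD/N3Main.lean); `Io S` the places outside `S`;
`Rel S b c`: some `x : Kˣ` has the orders `b` outside `S` and the class `c` in `GS S = Kˣ / H_S`.

PLAN.
`good_of_nic`: `Nic.ex`, enlarging `S'` to `S`.
`rel_exists`: product of `x_v ^ (b v)` (`Good`), `ordK_mul`, `ordK_pow`.
`rel_iff`: quotient of two elements.
`rel_perp`: `U_perp` and `QuotientGroup.eq`.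
`sq_of_rel`: two elements with the same orders outside `S` and the same class: the quotient is in
`HSub S` and an `S`-unit, so a square (`sunit_sq`).
`uK_of_rel`: `uK` does not change under multiplication by a square (`uK_congr`, `LSq_sq`).
`square_iff`: `x` is a square iff all orders outside `S` are even and its class is `1`: (←) take `y`
with orders `b v / 2` (`rel_exists`), `x / y^2` is an `S`-unit in `HSub S` (`sq_mem_HSub`).
`hs_parity`: `hs v x y = uK v ((-1)^(ab) x^b y^(-a))`, `a = ordK v x`, `b = ordK v y`; modulo squares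
this is `y` (`a` odd, `b` even), `x` (`a` even, `b` odd), `1` (both even); `uK_congr` with `LSq_sq`.
-/

namespace Pool.Agent.QD.In

open NumberField IsDedekindDomain Pool.Agent.HWR

variable {K : Type} [Field K] [NumberField K]

/-- places outside `S` -/
abbrev Io (S : Finset (HeightOneSpectrum (𝓞 K))) : Type := {v : HeightOneSpectrum (𝓞 K) // v ∉ S}

/-- `R(b, c)` -/
def Rel (S : Finset (HeightOneSpectrum (𝓞 K))) (b : Io S →₀ ℕ) (c : GS S) : Prop :=
  ∃ x : Kˣ, (∀ v : Io S, ordK v.1 x = (b v : ℤ)) ∧ (QuotientGroup.mk x : GS S) = c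

private theorem alg_uK {v : HeightOneSpectrum (𝓞 K)} {z y r : Kˣ} (h : z / y = r ^ 2) :
    uK v z = uK v y :=
  N4.uK_congr v (by rw [h]; exact N4.LSq_sq v r)

private theorem alg_one (v : HeightOneSpectrum (𝓞 K)) : ordK v (1 : Kˣ) = 0 := by
  have h := N4.ordK_pow v (1 : Kˣ) 0
  simpa using h

private theorem alg_div (v : HeightOneSpectrum (𝓞 K)) (x y : Kˣ) :
    ordK v (x / y) = ordK v x - ordK v y := by
  rw [div_eq_mul_inv, N4.ordK_mul, N4.ordK_inv, sub_eq_add_neg]

theorem hs_parity (v : HeightOneSpectrum (𝓞 K)) (x y : Kˣ) :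
    (Odd (ordK v x) → Even (ordK v y) → hs v x y = uK v y) ∧
    (Even (ordK v x) → Odd (ordK v y) → hs v x y = uK v x) ∧
    (Even (ordK v x) → Even (ordK v y) → hs v x y = 1) := by
  have hsign : ∀ a b : ℤ, Even (a * b) → ((-1 : Kˣ) ^ (a * b)) = 1 := fun a b h =>
    Even.neg_one_zpow h
  unfold hs
  generalize ordK v x = a
  generalize ordK v y = b
  refine ⟨fun ha hb => ?_, fun ha hb => ?_, fun ha hb => ?_⟩
  · rw [hsign a b (hb.mul_left a), one_mul]
    obtain ⟨a', rfl⟩ := ha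
    obtain ⟨b', rfl⟩ := hb
    refine alg_uK (r := x ^ b' * y ^ (-(a' + 1))) ?_
    rw [← zpow_natCast, mul_zpow, ← zpow_mul, ← zpow_mul, ← zpow_neg, div_eq_mul_inv, mul_assoc,
      ← zpow_neg_one y, ← zpow_add]
    congr 2
    · push_cast; ring
    · push_cast; ring
  · rw [hsign a b (ha.mul_right b), one_mul]
    obtain ⟨a', rfl⟩ := ha
    obtain ⟨b', rfl⟩ := hb
    refine alg_uK (r := x ^ b' * y ^ (-a')) ?_
    rw [← zpow_natCast, mul_zpow, ← zpow_mul, ← zpow_mul, ← zpow_neg, div_eq_mul_inv,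
      mul_right_comm, ← zpow_neg_one x, ← zpow_add]
    congr 2
    · push_cast; ring
    · push_cast; ring
  · rw [hsign a b (ha.mul_right b), one_mul]
    obtain ⟨a', rfl⟩ := ha
    obtain ⟨b', rfl⟩ := hb
    have h : x ^ (b' + b') * (y ^ (a' + a'))⁻¹ = (x ^ b' * y ^ (-a')) ^ 2 := by
      rw [← zpow_natCast, mul_zpow, ← zpow_mul, ← zpow_mul, ← zpow_neg]
      congr 2
      · push_cast; ring
      · push_cast; ring
    rw [h]
    exact N4.uK_one v (N4.LSq_sq v _)

private theorem alg_int_finite {m : 𝓞 K} (hm : m ≠ 0) (y : Kˣ) (hy : (m : K) = y) :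
    {v : HeightOneSpectrum (𝓞 K) | ordK v y ≠ 0}.Finite := by
  have h0 : Ideal.span {m} ≠ 0 := by
    rw [Ne, Ideal.zero_eq_bot, Ideal.span_singleton_eq_bot]; exact hm
  refine (Ideal.finite_factors h0).subset fun v hv => ?_
  simp only [Set.mem_ofPred_eq] at hv ⊢
  have h1 : 0 ≤ ordK v y := by
    rw [← N4.val_le_iff, neg_zero, WithZero.exp_zero, ← hy]
    exact v.valuation_le_one m
  have h2 : 1 ≤ ordK v y := by omega
  rw [← N4.val_le_iff, ← hy] at h2
  rw [← v.valuation_lt_one_iff_dvd (K := K)]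
  refine lt_of_le_of_lt h2 ?_
  rw [← WithZero.exp_zero, WithZero.exp_lt_exp]
  norm_num

theorem ordK_finite (x : Kˣ) : {v : HeightOneSpectrum (𝓞 K) | ordK v x ≠ 0}.Finite := by
  obtain ⟨m, δ, hm, hδ, h⟩ := N4.int_rep x
  have hm' : (m : K) ≠ 0 := by
    simpa using hm
  have hδ' : (δ : K) ≠ 0 := by
    simpa using hδ
  refine ((alg_int_finite hm (Units.mk0 _ hm') rfl).union
    (alg_int_finite hδ (Units.mk0 _ hδ') rfl)).subset fun v hv => ?_
  simp only [Set.mem_ofPred_eq, Set.mem_union] at hv ⊢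
  by_contra hcon
  push Not at hcon
  apply hv
  have h1 : Units.mk0 _ hδ' = (Units.mk0 _ hm') ^ 2 * x := by
    apply Units.ext
    simpa using h
  have h2 := congrArg (ordK v) h1
  rw [N4.ordK_mul, N4.ordK_pow, hcon.1, hcon.2] at h2
  simpa using h2.symm

variable {T : Finset ℕ} {S : Finset (HeightOneSpectrum (𝓞 K))} (hS : Nic T S)
include hS

theorem good_of_nic : Good S := by
  obtain ⟨S', _, hg, hle⟩ := hS.ex
  refine ⟨fun v hv => hle (hg.1 v hv), fun v hv => ?_⟩
  obtain ⟨x, hx, hx'⟩ := hg.2 v fun h => hv (hle h)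
  exact ⟨x, hx, fun v' hv' hne => hx' v' (fun h => hv' (hle h)) hne⟩

theorem rel_exists (b : Io S →₀ ℕ) : ∃ x : Kˣ, ∀ v : Io S, ordK v.1 x = (b v : ℤ) := by
  classical
  induction b using Finsupp.induction_linear with
  | zero => exact ⟨1, fun v => by rw [alg_one]; rfl⟩
  | add f g hf hg =>
    obtain ⟨x, hx⟩ := hf
    obtain ⟨y, hy⟩ := hg
    refine ⟨x * y, fun v => ?_⟩
    rw [N4.ordK_mul, hx, hy]
    simp
  | single v n =>
    obtain ⟨x, hx, hx'⟩ := (good_of_nic hS).2 v.1 v.2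
    refine ⟨x ^ n, fun v' => ?_⟩
    rw [N4.ordK_pow, Finsupp.single_apply]
    by_cases h : v = v'
    · subst h
      rw [hx, if_pos rfl, mul_one]
    · rw [hx' v'.1 v'.2 (fun h' => h (Subtype.ext h'.symm)), if_neg h]
      simp

theorem rel_iff {b : Io S →₀ ℕ} {c : GS S} (h : Rel S b c) (c' : GS S) :
    Rel S b c' ↔ Rel S 0 (c' / c) := by
  obtain ⟨x, hx, rfl⟩ := h
  constructor
  · rintro ⟨y, hy, rfl⟩
    refine ⟨y / x, fun v => ?_, rfl⟩
    rw [alg_div, hx, hy, sub_self]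
    rfl
  · rintro ⟨y, hy, hc⟩
    refine ⟨y * x, fun v => ?_, ?_⟩
    · rw [N4.ordK_mul, hx, hy]
      simp
    · have h1 : (QuotientGroup.mk (y * x) : GS S) = QuotientGroup.mk y * QuotientGroup.mk x := rfl
      rw [h1, hc, div_mul_cancel]

omit hS in
private theorem alg_mk {x y : Kˣ} :
    (QuotientGroup.mk x : GS S) = QuotientGroup.mk y ↔ y / x ∈ HSub S := by
  rw [QuotientGroup.eq, div_eq_mul_inv, mul_comm]

theorem rel_perp (x : Kˣ) : Rel S 0 (QuotientGroup.mk x : GS S) ↔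
    ∀ y : Kˣ, Rel S 0 (QuotientGroup.mk y : GS S) → BS S x y = 1 := by
  have h1 : Rel S 0 (QuotientGroup.mk x : GS S) ↔
      ∃ y : Kˣ, x / y ∈ HSub S ∧ ∀ v, v ∉ S → ordK v y = 0 := by
    constructor
    · rintro ⟨z, hz, hc⟩
      refine ⟨z, alg_mk.1 hc, fun v hv => ?_⟩
      have := hz ⟨v, hv⟩
      simpa using this
    · rintro ⟨z, hz, hc⟩
      refine ⟨z, fun v => ?_, alg_mk.2 hz⟩
      rw [hc v.1 v.2]
      rfl
  rw [h1, U_perp hS]
  constructor
  · rintro h y ⟨z, hz, hc⟩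
    have h2 : y / z ∈ HSub S := alg_mk.1 hc
    have h3 : BS S x y = BS S x z * BS S x (y / z) := by
      rw [BS_comm hS x y, BS_comm hS x z, BS_comm hS x (y / z), ← BS_mul_left hS]
      congr 1
      rw [mul_div_cancel]
    rw [h3, BS_comm hS x (y / z), BS_recip hS (y / z) x h2, mul_one]
    refine h z fun v hv => ?_
    have := hz ⟨v, hv⟩
    simpa using this
  · intro h y hy
    refine h y ⟨y, fun v => ?_, rfl⟩
    rw [hy v.1 v.2]
    rfl

theorem sq_of_rel {x y : Kˣ} (h : ∀ v : Io S, ordK v.1 x = ordK v.1 y)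
    (hc : (QuotientGroup.mk x : GS S) = QuotientGroup.mk y) : IsSquare (x / y) := by
  refine sunit_sq hS (x / y) (alg_mk.1 hc.symm) fun v hv => ?_
  rw [alg_div, h ⟨v, hv⟩, sub_self]

theorem uK_of_rel {x y : Kˣ} (h : ∀ v : Io S, ordK v.1 x = ordK v.1 y)
    (hc : (QuotientGroup.mk x : GS S) = QuotientGroup.mk y) (v : HeightOneSpectrum (𝓞 K)) :
    uK v x = uK v y := by
  obtain ⟨r, hr⟩ := sq_of_rel hS h hc
  exact alg_uK (r := r) (by rw [hr, pow_two])

theorem square_iff (x : Kˣ) : IsSquare x ↔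
    (∀ v : Io S, Even (ordK v.1 x)) ∧ (QuotientGroup.mk x : GS S) = 1 := by
  constructor
  · rintro ⟨r, rfl⟩
    refine ⟨fun v => ?_, ?_⟩
    · rw [N4.ordK_mul]
      exact ⟨_, rfl⟩
    · rw [QuotientGroup.eq_one_iff, ← pow_two]
      exact sq_mem_HSub S r
  · rintro ⟨h1, h2⟩
    have hfin : {v : Io S | ordK v.1 x ≠ 0}.Finite :=
      (ordK_finite x).preimage Subtype.val_injective.injOn
    let b₁ : Io S →₀ ℕ := Finsupp.onFinset hfin.toFinset (fun v => (ordK v.1 x / 2).toNat) (by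
      intro v hv
      rw [Set.Finite.mem_toFinset, Set.mem_ofPred_eq]
      intro h
      apply hv
      rw [h]
      rfl)
    let b₂ : Io S →₀ ℕ := Finsupp.onFinset hfin.toFinset (fun v => (-(ordK v.1 x / 2)).toNat) (by
      intro v hv
      rw [Set.Finite.mem_toFinset, Set.mem_ofPred_eq]
      intro h
      apply hv
      rw [h]
      rfl)
    obtain ⟨y₁, hy₁⟩ := rel_exists hS b₁
    obtain ⟨y₂, hy₂⟩ := rel_exists hS b₂
    have h3 : IsSquare (x / (y₁ / y₂) ^ 2) := by
      refine sq_of_rel hS (fun v => ?_) ?_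
      · rw [N4.ordK_pow, alg_div, hy₁, hy₂]
        have h4 : b₁ v = (ordK v.1 x / 2).toNat := rfl
        have h5 : b₂ v = (-(ordK v.1 x / 2)).toNat := rfl
        obtain ⟨c, hc⟩ := h1 v
        rw [h4, h5]
        push_cast
        omega
      · rw [h2]
        symm
        rw [QuotientGroup.eq_one_iff]
        exact sq_mem_HSub S _
    obtain ⟨r, hr⟩ := h3
    refine ⟨r * (y₁ / y₂), ?_⟩
    rw [div_eq_iff_eq_mul] at hr
    rw [hr]
    rw [pow_two, mul_mul_mul_comm]

end Pool.Agent.QD.In
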