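import Pool.Agent.QD.N4.Regroup

/-!
# QD-In-Prod: infinite products over places
-/

namespace Pool.Agent.QD.In

open NumberField IsDedekindDomain Pool.Agent.HWR

theorem tprod_split {ι : Type} (S : Finset ι) (f : ι → ℂ) (hf : Summable fun v => ‖f v - 1‖) :
    ∏' v, f v = (∏ v ∈ S, f v) * ∏' v : {v : ι // v ∉ S}, f v := by
  have h1 : Multipliable (f ∘ ((↑) : ((S : Set ι) : Type _) → ι)) :=
    multipliable_of_hasFiniteMulSupport (Set.toFinite _)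
  have h2 : Multipliable (f ∘ ((↑) : (((S : Set ι)ᶜ : Set ι) : Type _) → ι)) := by
    have h3 : Summable fun v : (((S : Set ι)ᶜ : Set ι) : Type _) => ‖f v.1 - 1‖ :=
      hf.comp_injective Subtype.val_injective
    have h4 := multipliable_one_add_of_summable h3
    refine h4.congr fun v => ?_
    simp
  have h5 := Multipliable.tprod_mul_tprod_compl h1 h2
  rw [← h5]
  congr 1
  exact Finset.tprod_subtype S f

theorem tprod_ne_zero' {ι : Type} (f : ι → ℂ) (hf : Summable fun v => ‖f v - 1‖)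
    (h0 : ∀ v, f v ≠ 0) : ∏' v, f v ≠ 0 := by
  have h1 := tprod_one_add_ne_zero_of_summable (f := fun v => f v - 1)
    (fun v => by rw [add_sub_cancel]; exact h0 v) hf
  simpa only [add_sub_cancel] using h1

variable {K : Type} [Field K] [NumberField K]

private theorem inv_sub_le {z : ℂ} (hz : ‖z‖ ≤ 1 / 2) : ‖(1 - z)⁻¹ - 1‖ ≤ 2 * ‖z‖ := by
  have h1 : 1 / 2 ≤ ‖1 - z‖ := by
    have h2 := norm_sub_norm_le (1 : ℂ) z
    rw [norm_one] at h2
    linarith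
  have hne : (1 - z) ≠ 0 := by
    intro h0
    rw [h0, norm_zero] at h1
    norm_num at h1
  have h3 : (1 - z)⁻¹ - 1 = z * (1 - z)⁻¹ := by
    field_simp
    ring
  rw [h3, norm_mul, norm_inv, mul_comm]
  apply mul_le_mul_of_nonneg_right _ (norm_nonneg _)
  calc ‖1 - z‖⁻¹ ≤ (1 / 2 : ℝ)⁻¹ := inv_anti₀ (by norm_num) h1
    _ = 2 := by norm_num

theorem sum_zf (t : HeightOneSpectrum (𝓞 K) → ℤ) (ht : ∀ v, t v = 1 ∨ t v = -1 ∨ t v = 0) {w : ℂ}
    (hw : 1 < w.re) : Summable fun v : HeightOneSpectrum (𝓞 K) => ‖zf (nrm v) (t v) w - 1‖ := by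
  refine Summable.of_nonneg_of_le (fun _ => norm_nonneg _) (fun v => ?_)
    ((summable_nrm K hw).mul_left 6)
  have hq0 : nrm v ≠ 0 := nrm_ne_zero v
  have hq1 : nrm v ≠ 1 := nrm_ne_one v
  have hq : (2 : ℝ) ≤ (nrm v : ℝ) := by
    have : 2 ≤ nrm v := by omega
    exact_mod_cast this
  have hn : ‖(nrm v : ℂ) ^ (-w)‖ = (nrm v : ℝ) ^ (-w.re) := by
    rw [Complex.norm_natCast_cpow_of_pos (Nat.pos_of_ne_zero hq0), Complex.neg_re]
  have hle : (nrm v : ℝ) ^ (-w.re) ≤ 1 / 2 := by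
    calc (nrm v : ℝ) ^ (-w.re) ≤ (nrm v : ℝ) ^ (-1 : ℝ) :=
          Real.rpow_le_rpow_of_exponent_le (by linarith) (by linarith)
      _ = (nrm v : ℝ)⁻¹ := Real.rpow_neg_one _
      _ ≤ 1 / 2 := by
          rw [one_div]
          exact inv_anti₀ (by norm_num) hq
  unfold zf
  set z : ℂ := (nrm v : ℂ) ^ (-w) with hz
  set x : ℝ := (nrm v : ℝ) ^ (-w.re) with hx
  have hx0 : 0 ≤ x := by positivity
  have ht1 : ‖((t v : ℤ) : ℂ)‖ ≤ 1 := by
    rcases ht v with h | h | h <;> rw [h] <;> norm_num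
  have hz1 : ‖z‖ ≤ 1 / 2 := by rw [hn]; exact hle
  have hz2 : ‖(t v : ℂ) * z‖ ≤ x := by
    rw [norm_mul, hn]
    calc ‖((t v : ℤ) : ℂ)‖ * x ≤ 1 * x := by gcongr
      _ = x := one_mul x
  have h1 := inv_sub_le hz1
  rw [hn] at h1
  have h2 := (inv_sub_le (hz2.trans hle)).trans (mul_le_mul_of_nonneg_left hz2 (by norm_num))
  set A : ℂ := (1 - z)⁻¹ with hA
  set B : ℂ := (1 - (t v : ℂ) * z)⁻¹ with hB
  have h3 : A * B - 1 = (A - 1) * (B - 1) + (A - 1) + (B - 1) := by ring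
  calc ‖A * B - 1‖ ≤ ‖A - 1‖ * ‖B - 1‖ + ‖A - 1‖ + ‖B - 1‖ := by
        rw [h3]
        refine (norm_add_le _ _).trans (add_le_add ((norm_add_le _ _).trans ?_) le_rfl)
        rw [norm_mul]
    _ ≤ (2 * x) * (2 * x) + 2 * x + 2 * x := by gcongr
    _ ≤ 6 * x := by nlinarith

private theorem y_le' {q : ℕ} (hq : 101 ≤ q) {x : ℝ} (hx : x ≤ 0) : (q : ℝ) ^ x ≤ 1 :=
  Real.rpow_le_one_of_one_le_of_nonpos (by exact_mod_cast (by omega : 1 ≤ q)) hx

private theorem FF_sub_one' {a : ℕ → ℝ} (ha : ∀ q : ℕ, |a q| ≤ 2 * Real.sqrt q) {q : ℕ} (hq : 101 ≤ q)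
    {s : ℂ} (hs : 1 ≤ s.re) (u : ℂ) : ‖FF a q u s - 1‖ ≤ 15 * (q : ℝ) ^ (1 / 2 - s.re) := by
  have hy0 : 0 ≤ (q : ℝ) ^ (1 / 2 - s.re) := by positivity
  have hy1 : (q : ℝ) ^ (1 / 2 - s.re) ≤ 1 := y_le' hq (by linarith)
  have h1 := efac_sub_one ha hq hs
  have h2 := Fm_sub_one ha hq hs
  unfold FF
  split_ifs
  · unfold F1
    have h3 : ‖efac a q s + 1‖ ≤ 5 := by
      calc ‖efac a q s + 1‖ = ‖(efac a q s - 1) + 2‖ := by ring_nf
        _ ≤ ‖efac a q s - 1‖ + ‖(2 : ℂ)‖ := norm_add_le _ _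
        _ ≤ 3 * (q : ℝ) ^ (1 / 2 - s.re) + 2 := by
            refine add_le_add h1 ?_
            norm_num
        _ ≤ 5 := by linarith
    calc ‖efac a q s ^ 2 - 1‖ = ‖efac a q s - 1‖ * ‖efac a q s + 1‖ := by
          rw [← norm_mul]; ring_nf
      _ ≤ (3 * (q : ℝ) ^ (1 / 2 - s.re)) * 5 := mul_le_mul h1 h3 (norm_nonneg _) (by positivity)
      _ = 15 * (q : ℝ) ^ (1 / 2 - s.re) := by ring
  · have h3 : (q : ℝ) ^ (1 - 2 * s.re) ≤ (q : ℝ) ^ (1 / 2 - s.re) :=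
      Real.rpow_le_rpow_of_exponent_le (by exact_mod_cast (by omega : 1 ≤ q)) (by linarith)
    linarith
  · linarith

theorem sum_FF {a : ℕ → ℝ} (ha : ∀ q : ℕ, |a q| ≤ 2 * Real.sqrt q) (T : Finset ℕ)
    (hT : ∀ p : ℕ, p.Prime → p < 101 → p ∈ T)
    (t : HeightOneSpectrum (𝓞 K) → ℤ) (ht : ∀ v, t v = 1 ∨ t v = -1 ∨ t v = 0) {s : ℂ}
    (hs : 3 / 2 < s.re) : Summable fun v : {v : HeightOneSpectrum (𝓞 K) // Away K T v} =>
      ‖FF a (nrm v.1) (t v.1) s - 1‖ := by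
  have h1 : Summable fun v : {v : HeightOneSpectrum (𝓞 K) // Away K T v} =>
      15 * (nrm v.1 : ℝ) ^ (1 / 2 - s.re) := by
    have h2 := ((summable_nrm K (x := s.re - 1 / 2) (by linarith)).comp_injective
      (Subtype.val_injective (p := fun w => Away K T w))).mul_left 15
    refine h2.congr fun v => ?_
    have h4 : (1 / 2 - s.re : ℝ) = -(s.re - 1 / 2) := by ring
    rw [h4]
    rfl
  refine Summable.of_nonneg_of_le (fun _ => norm_nonneg _) (fun v => ?_) h1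
  exact FF_sub_one' ha (nrm_ge K T hT v.1 v.2) (by linarith) _

end Pool.Agent.QD.In
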