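import Pool.Agent.QD.N4.Ord
import Pool.Agent.QD.N3.Hensel
import Pool.Agent.HWR.ExtExists

/-!
# QD-In-Quad: existence of `K(√x)`

`int_rep`: `δ = m^2 x` integral, not a square in `K`; `exists_ext` (HWR/ExtExists.lean); divide
the square root of `δ` by `m`. This is `exists_ext_unit` of `N3/Hensel.lean`.
-/

namespace Pool.Agent.QD.In

open NumberField IsDedekindDomain Pool.Agent.HWR

theorem exists_quad (K : Type) [Field K] [NumberField K] (x : Kˣ) (hns : ¬ IsSquare x) :
    ∃ (K' : Type) (_ : Field K') (_ : NumberField K') (_ : Algebra K K') (θ : K'),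
      Module.finrank K K' = 2 ∧ θ ^ 2 = algebraMap K K' (x : K) :=
  Pool.Agent.QD.exists_ext_unit x hns

end Pool.Agent.QD.In
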