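import Pool.Agent.QD.In.GamL
import Pool.Agent.QD.PLine

/-!
# QD-In-Strip: polynomial growth in vertical strips, calculus and archimedean factors
-/

namespace Pool.Agent.QD.In

open Pool.Agent.HWR

private theorem one_le_t (t : ℝ) : 1 ≤ 1 + |t| := by linarith [abs_nonneg t]

theorem ps_mul {c : ℝ} {F G : ℂ → ℂ} (hF : PolyStrip c F) (hG : PolyStrip c G) :
    PolyStrip c fun s => F s * G s := by
  intro a b hb
  obtain ⟨A, C, hA, hC, h⟩ := hF a b hb
  obtain ⟨A', C', hA', hC', h'⟩ := hG a b hb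
  refine ⟨A + A', C * C', by positivity, by positivity, fun s h1 h2 => ?_⟩
  have h0 : 0 < 1 + |s.im| := by linarith [one_le_t s.im]
  rw [norm_mul, Real.rpow_add h0]
  calc ‖F s‖ * ‖G s‖ ≤ (C * (1 + |s.im|) ^ A) * (C' * (1 + |s.im|) ^ A') :=
        mul_le_mul (h s h1 h2) (h' s h1 h2) (norm_nonneg _) (by positivity)
    _ = C * C' * ((1 + |s.im|) ^ A * (1 + |s.im|) ^ A') := by ring

theorem ps_add {c : ℝ} {F G : ℂ → ℂ} (hF : PolyStrip c F) (hG : PolyStrip c G) :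
    PolyStrip c fun s => F s + G s := by
  intro a b hb
  obtain ⟨A, C, hA, hC, h⟩ := hF a b hb
  obtain ⟨A', C', hA', hC', h'⟩ := hG a b hb
  refine ⟨A + A', C + C', by positivity, by positivity, fun s h1 h2 => ?_⟩
  have h0 := one_le_t s.im
  have h3 : (1 + |s.im|) ^ A ≤ (1 + |s.im|) ^ (A + A') :=
    Real.rpow_le_rpow_of_exponent_le h0 (by linarith)
  have h4 : (1 + |s.im|) ^ A' ≤ (1 + |s.im|) ^ (A + A') :=
    Real.rpow_le_rpow_of_exponent_le h0 (by linarith)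
  calc ‖F s + G s‖ ≤ ‖F s‖ + ‖G s‖ := norm_add_le _ _
    _ ≤ C * (1 + |s.im|) ^ A + C' * (1 + |s.im|) ^ A' := add_le_add (h s h1 h2) (h' s h1 h2)
    _ ≤ C * (1 + |s.im|) ^ (A + A') + C' * (1 + |s.im|) ^ (A + A') := by gcongr
    _ = (C + C') * (1 + |s.im|) ^ (A + A') := by ring

theorem ps_of_bdd {c : ℝ} {F : ℂ → ℂ}
    (h : ∀ a b : ℝ, b < c → ∃ C : ℝ, ∀ s : ℂ, a ≤ s.re → s.re ≤ b → ‖F s‖ ≤ C) :
    PolyStrip c F := by
  intro a b hb
  obtain ⟨C, h⟩ := h a b hb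
  refine ⟨0, |C|, le_rfl, abs_nonneg _, fun s h1 h2 => ?_⟩
  rw [Real.rpow_zero, mul_one]
  exact (h s h1 h2).trans (le_abs_self C)

theorem ps_const (c : ℝ) (z : ℂ) : PolyStrip c fun _ => z :=
  ps_of_bdd fun _ _ _ => ⟨‖z‖, fun _ _ _ => le_rfl⟩

theorem ps_pow {c : ℝ} {F : ℂ → ℂ} (hF : PolyStrip c F) (n : ℕ) : PolyStrip c fun s => F s ^ n := by
  induction n with
  | zero => simpa only [pow_zero] using ps_const c 1
  | succ n ih => simpa only [pow_succ] using ps_mul ih hF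

theorem ps_congr {c : ℝ} {F G : ℂ → ℂ} (hF : PolyStrip c F) (h : ∀ s : ℂ, s.re < c → G s = F s) :
    PolyStrip c G := by
  intro a b hb
  obtain ⟨A, C, hA, hC, h'⟩ := hF a b hb
  refine ⟨A, C, hA, hC, fun s h1 h2 => ?_⟩
  rw [h s (by linarith)]
  exact h' s h1 h2

theorem ps_mono {c c' : ℝ} {F : ℂ → ℂ} (hF : PolyStrip c F) (h : c' ≤ c) : PolyStrip c' F :=
  fun a b hb => hF a b (by linarith)

theorem ps_sum {c : ℝ} {ι : Type} (s : Finset ι) {F : ι → ℂ → ℂ}
    (h : ∀ i ∈ s, PolyStrip c (F i)) : PolyStrip c fun z => ∑ i ∈ s, F i z := by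
  classical
  induction s using Finset.induction_on with
  | empty => simpa only [Finset.sum_empty] using ps_const c 0
  | insert i s hi ih =>
    have h1 := ps_add (h i (Finset.mem_insert_self i s))
      (ih fun j hj => h j (Finset.mem_insert_of_mem hj))
    refine ps_congr h1 fun z _ => ?_
    rw [Finset.sum_insert hi]

theorem ps_prod {c : ℝ} {ι : Type} (s : Finset ι) {F : ι → ℂ → ℂ}
    (h : ∀ i ∈ s, PolyStrip c (F i)) : PolyStrip c fun z => ∏ i ∈ s, F i z := by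
  classical
  induction s using Finset.induction_on with
  | empty => simpa only [Finset.prod_empty] using ps_const c 1
  | insert i s hi ih =>
    have h1 := ps_mul (h i (Finset.mem_insert_self i s))
      (ih fun j hj => h j (Finset.mem_insert_of_mem hj))
    refine ps_congr h1 fun z _ => ?_
    rw [Finset.prod_insert hi]

theorem ps_cpow (c0 : ℝ) {a : ℝ} (ha : 0 < a) (c d : ℝ) :
    PolyStrip c0 fun s => (a : ℂ) ^ ((c : ℂ) * s + (d : ℂ)) := by
  apply ps_of_bdd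
  intro x y _
  set l : ℝ := Real.log a with hl
  refine ⟨Real.exp (|l| * (|c| * (|x| + |y|) + |d|)), fun s h1 h2 => ?_⟩
  rw [Complex.norm_cpow_eq_rpow_re_of_pos ha, Real.rpow_def_of_pos ha]
  apply Real.exp_le_exp.2
  have hre : ((c : ℂ) * s + (d : ℂ)).re = c * s.re + d := by simp
  rw [hre, ← hl]
  have h3 : |s.re| ≤ |x| + |y| := by
    rw [abs_le]
    have := neg_abs_le x
    have := le_abs_self y
    have := abs_nonneg x
    have := abs_nonneg y
    constructor <;> linarith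
  calc l * (c * s.re + d) ≤ |l * (c * s.re + d)| := le_abs_self _
    _ = |l| * |c * s.re + d| := abs_mul _ _
    _ ≤ |l| * (|c| * |s.re| + |d|) := by
        gcongr
        refine (abs_add_le _ _).trans ?_
        rw [abs_mul]
    _ ≤ |l| * (|c| * (|x| + |y|) + |d|) := by gcongr

/-! ### archimedean factors -/

private theorem norm_Gamma_le' {s : ℂ} (hs : 0 < s.re) : ‖Complex.Gamma s‖ ≤ Real.Gamma s.re := by
  rw [Complex.Gamma_eq_integral hs, Real.Gamma_eq_integral hs]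
  refine (MeasureTheory.norm_integral_le_integral_norm _).trans (le_of_eq ?_)
  refine MeasureTheory.setIntegral_congr_fun measurableSet_Ioi fun x hx => ?_
  have hx' : 0 < x := hx
  simp only [norm_mul]
  rw [Complex.norm_cpow_eq_rpow_re_of_pos hx', Complex.norm_real, Real.norm_of_nonneg
    (Real.exp_pos _).le]
  simp

private theorem Gamma_bdd' {x y : ℝ} (hx : 0 < x) : ∃ B : ℝ, ∀ s : ℂ, x ≤ s.re → s.re ≤ y →
    ‖Complex.Gamma s‖ ≤ B := by
  have hcont : ContinuousOn Real.Gamma (Set.Icc x y) := by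
    intro z hz
    have hz0 : 0 < z := hx.trans_le hz.1
    refine (Real.differentiableAt_Gamma fun k hk => ?_).continuousAt.continuousWithinAt
    rw [hk] at hz0
    have h0 : (0 : ℝ) ≤ k := Nat.cast_nonneg k
    linarith
  obtain ⟨B, hB⟩ := (isCompact_Icc.image_of_continuousOn hcont).bddAbove
  refine ⟨B, fun s h1 h2 => (norm_Gamma_le' (hx.trans_le h1)).trans (hB ⟨_, ⟨h1, h2⟩, rfl⟩)⟩

theorem ps_cpow_bdd {r : ℝ} (hr : 0 < r) (x y : ℝ) : ∃ B : ℝ, ∀ s : ℂ, x ≤ s.re → s.re ≤ y →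
    ‖(r : ℂ) ^ s‖ ≤ B := by
  refine ⟨Real.exp (|Real.log r| * (|x| + |y|)), fun s h1 h2 => ?_⟩
  rw [Complex.norm_cpow_eq_rpow_re_of_pos hr, Real.rpow_def_of_pos hr]
  apply Real.exp_le_exp.2
  have h3 : |s.re| ≤ |x| + |y| := by
    rw [abs_le]
    have := neg_abs_le x
    have := le_abs_self y
    have := abs_nonneg x
    have := abs_nonneg y
    constructor <;> linarith
  calc Real.log r * s.re ≤ |Real.log r * s.re| := le_abs_self _
    _ = |Real.log r| * |s.re| := abs_mul _ _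
    _ ≤ _ := by gcongr

private theorem ho_of {U V : ℂ → ℂ} {x0 : ℝ} (hV : FinOrd V)
    (hU : ∀ a : ℝ, ∃ B : ℝ, ∀ s : ℂ, a ≤ s.re → s.re ≤ x0 → ‖U s‖ ≤ B) (a : ℝ) :
    ∃ A C : ℝ, ∀ s : ℂ, a ≤ s.re → s.re ≤ x0 →
      ‖U s * V s‖ ≤ Real.exp (C * (1 + |s.im|) ^ A) := by
  obtain ⟨k, C, hC, h⟩ := Z.finOrd_nat hV a x0
  obtain ⟨B, hB⟩ := hU a
  refine ⟨(k : ℝ), |B| + C, fun s h1 h2 => ?_⟩
  have h0 := one_le_t s.im
  have h3 : (1 : ℝ) ≤ (1 + |s.im|) ^ k := one_le_pow₀ h0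
  rw [Real.rpow_natCast, norm_mul, add_mul, Real.exp_add]
  refine mul_le_mul ?_ (h s h1 h2) (norm_nonneg _) (Real.exp_pos _).le
  calc ‖U s‖ ≤ B := hB s h1 h2
    _ ≤ |B| := le_abs_self B
    _ ≤ |B| * (1 + |s.im|) ^ k := le_mul_of_one_le_right (abs_nonneg _) h3
    _ ≤ |B| * (1 + |s.im|) ^ k + 1 := by linarith
    _ ≤ _ := Real.add_one_le_exp _

private theorem line_of {F : ℂ → ℂ} {x : ℝ} {k : ℕ}
    (h : ∃ C : ℝ, ∀ s : ℂ, s.re = x → ‖F s‖ ≤ C * (1 + |s.im|) ^ k) :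
    ∃ A C : ℝ, 0 ≤ A ∧ 0 ≤ C ∧ ∀ s : ℂ, s.re = x → ‖F s‖ ≤ C * (1 + |s.im|) ^ A := by
  obtain ⟨C, h⟩ := h
  refine ⟨k, |C|, Nat.cast_nonneg k, abs_nonneg _, fun s hs => (h s hs).trans ?_⟩
  rw [Real.rpow_natCast]
  have := one_le_t s.im
  gcongr
  exact le_abs_self C

private theorem ex_line (y c d : ℝ) (hc : 0 < c) : ∃ k : ℕ, d - c * (k : ℝ) ≤ y := by
  obtain ⟨k, hk⟩ := exists_nat_ge ((d - y) / c)
  refine ⟨k, ?_⟩
  rw [div_le_iff₀ hc] at hk
  linarith

theorem gR_bd : PolyStrip 0 gR := by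
  refine polyStrip_of_lines (x0 := 1 / 2) (by norm_num) (fun k => 1 / 2 - (k : ℝ)) ?_ ?_ ?_ ?_ ?_
  · intro y
    obtain ⟨k, hk⟩ := ex_line y 1 (1 / 2) one_pos
    exact ⟨k, by rw [one_mul] at hk; exact hk⟩
  · exact fun s hs => gR_diff (by linarith)
  · refine ho_of (U := fun w => Complex.Gammaℝ (1 - w)) (V := fun w => (Complex.Gammaℝ w)⁻¹)
      Z.finOrd_GammaR_inv fun a => ?_
    obtain ⟨B1, h1⟩ := Gamma_bdd' (x := 1 / 4) (y := (1 - a) / 2) (by norm_num)
    obtain ⟨B2, h2⟩ := ps_cpow_bdd Real.pi_pos (-(1 - a) / 2) (-(1 / 4))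
    refine ⟨B2 * B1, fun s hs1 hs2 => ?_⟩
    rw [Complex.Gammaℝ_def, norm_mul]
    have e1 : ((1 - s) / 2).re = (1 - s.re) / 2 := by
      rw [Complex.div_ofNat_re, Complex.sub_re, Complex.one_re]
    have e2 : (-(1 - s) / 2).re = -(1 - s.re) / 2 := by
      rw [Complex.div_ofNat_re, Complex.neg_re, Complex.sub_re, Complex.one_re]
    have h3 := h1 ((1 - s) / 2) (by rw [e1]; linarith) (by rw [e1]; linarith)
    have h4 := h2 (-(1 - s) / 2) (by rw [e2]; linarith) (by rw [e2]; linarith)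
    exact mul_le_mul h4 h3 (norm_nonneg _) ((norm_nonneg _).trans h4)
  · have h := gR_line 0
    rw [Nat.cast_zero, sub_zero] at h
    exact line_of h
  · exact fun k => line_of (gR_line k)

theorem gC_bd : PolyStrip 0 gC := by
  refine polyStrip_of_lines (x0 := 1 / 2) (by norm_num) (fun k => 1 / 2 - (k : ℝ)) ?_ ?_ ?_ ?_ ?_
  · intro y
    obtain ⟨k, hk⟩ := ex_line y 1 (1 / 2) one_pos
    exact ⟨k, by rw [one_mul] at hk; exact hk⟩
  · exact fun s hs => gC_diff (by linarith)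
  · have hV : FinOrd fun w => (Complex.Gammaℂ w)⁻¹ := by
      have h1 := Z.finOrd_cpow (D := 2 * Real.pi) (by positivity) 1
      have h2 := finOrd_mul (finOrd_const ((2 : ℂ)⁻¹)) (finOrd_mul h1 finOrd_invGamma)
      refine Z.finOrd_congr h2 fun s => ?_
      rw [Complex.Gammaℂ_def, mul_inv, mul_inv, ← Complex.cpow_neg, neg_neg]
      push_cast
      rw [one_mul, mul_assoc]
    refine ho_of (U := fun w => Complex.Gammaℂ (1 - w)) (V := fun w => (Complex.Gammaℂ w)⁻¹)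
      hV fun a => ?_
    obtain ⟨B1, h1⟩ := Gamma_bdd' (x := 1 / 2) (y := 1 - a) (by norm_num)
    obtain ⟨B2, h2⟩ := ps_cpow_bdd (r := 2 * Real.pi) (by positivity) (-(1 - a)) (-(1 / 2))
    refine ⟨2 * B2 * B1, fun s hs1 hs2 => ?_⟩
    rw [Complex.Gammaℂ_def, norm_mul, norm_mul]
    have e1 : (1 - s).re = 1 - s.re := by rw [Complex.sub_re, Complex.one_re]
    have e2 : (-(1 - s)).re = -(1 - s.re) := by rw [Complex.neg_re, e1]
    have h3 := h1 (1 - s) (by rw [e1]; linarith) (by rw [e1]; linarith)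
    have h4 := h2 (-(1 - s)) (by rw [e2]; linarith) (by rw [e2]; linarith)
    have h5 : ((2 * Real.pi : ℝ) : ℂ) = 2 * (Real.pi : ℂ) := by push_cast; rfl
    rw [h5] at h4
    have h6 : ‖(2 : ℂ)‖ = 2 := by simp
    rw [h6]
    have h7 := norm_nonneg ((2 * (Real.pi : ℂ)) ^ (-(1 - s)))
    exact mul_le_mul (by linarith) h3 (norm_nonneg _) (by linarith)
  · have h := gC_line 0
    rw [Nat.cast_zero, sub_zero] at h
    exact line_of h
  · exact fun k => line_of (gC_line k)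

theorem gam1_ratio_diff {s : ℂ} (hs : s.re < 2) :
    DifferentiableAt ℂ (fun s => gam1 (2 - s) * (gam1 s)⁻¹) s := by
  refine DifferentiableAt.mul ?_ (invgam1_diff s)
  have h0 : ((2 : ℂ) * Real.pi) ≠ 0 := by
    exact_mod_cast (by positivity : (2 * Real.pi : ℝ) ≠ 0)
  unfold gam1
  refine DifferentiableAt.mul ?_ ?_
  · exact (((differentiableAt_const _).sub differentiableAt_id).neg).const_cpow (Or.inl h0)
  · refine DifferentiableAt.comp s (g := Complex.Gamma) ?_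
      ((differentiableAt_const _).sub differentiableAt_id)
    refine Complex.differentiableAt_Gamma _ fun m hm => ?_
    have h1 := congrArg Complex.re hm
    rw [Complex.sub_re, Complex.neg_re, Complex.natCast_re] at h1
    have h2 : (2 : ℂ).re = 2 := rfl
    rw [h2] at h1
    have h3 : (0 : ℝ) ≤ m := Nat.cast_nonneg m
    linarith

theorem gam1_ratio_bd : PolyStrip 1 fun s => gam1 (2 - s) * (gam1 s)⁻¹ := by
  refine polyStrip_of_lines (x0 := 1) le_rfl (fun k => 1 - (k : ℝ) / 2) ?_ ?_ ?_ ?_ ?_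
  · intro y
    obtain ⟨k, hk⟩ := ex_line y (1 / 2) 1 (by norm_num)
    exact ⟨k, by show 1 - (k : ℝ) / 2 ≤ y; linarith⟩
  · exact fun s hs => gam1_ratio_diff (by linarith)
  · refine ho_of (U := fun w => gam1 (2 - w)) (V := fun w => (gam1 w)⁻¹) finOrd_invgam1 fun a => ?_
    obtain ⟨B1, h1⟩ := Gamma_bdd' (x := 1) (y := 2 - a) (by norm_num)
    obtain ⟨B2, h2⟩ := ps_cpow_bdd (r := 2 * Real.pi) (by positivity) (-(2 - a)) (-1)
    refine ⟨B2 * B1, fun s hs1 hs2 => ?_⟩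
    unfold gam1
    rw [norm_mul]
    have e1 : (2 - s).re = 2 - s.re := by rw [Complex.sub_re]; rfl
    have e2 : (-(2 - s)).re = -(2 - s.re) := by rw [Complex.neg_re, e1]
    have h3 := h1 (2 - s) (by rw [e1]; linarith) (by rw [e1]; linarith)
    have h4 := h2 (-(2 - s)) (by rw [e2]; linarith) (by rw [e2]; linarith)
    have h5 : ((2 * Real.pi : ℝ) : ℂ) = 2 * (Real.pi : ℂ) := by push_cast; rfl
    rw [h5] at h4
    exact mul_le_mul h4 h3 (norm_nonneg _) ((norm_nonneg _).trans h4)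
  · have h := gam1_ratio_line 0
    rw [Nat.cast_zero, zero_div, sub_zero] at h
    exact line_of h
  · exact fun k => line_of (gam1_ratio_line k)

end Pool.Agent.QD.In
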