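import Pool.Agent.QD.A.Defs
import Pool.Agent.QD.N1Main
import Pool.Agent.QD.N3Main
import Pool.Agent.QD.N4Main
import Pool.Agent.QD.In.Alg
import Pool.Agent.QD.In.Quad
import Pool.Agent.QD.In.Prod
import Pool.Agent.QD.In.Strip

/-!
# QD-In-Def: definitions of the instantiation

`K` is a number field.  For `x : Kˣ` the data of `K(√x)` (by choice, `qf`), with the convention
`K × K` for a square `x`; then the functions of the system, for a finite set `S` of places.
-/

namespace Pool.Agent.QD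

open NumberField IsDedekindDomain Pool.Agent.HWR

/-- the trace function is compatible with quadratic extensions of residue fields -/
def SqRel (K : Type) [Field K] [NumberField K] (T : Finset ℕ) (a : ℕ → ℝ) : Prop :=
  ∀ v : HeightOneSpectrum (𝓞 K), Away K T v → a (nrm v ^ 2) = a (nrm v) ^ 2 - 2 * nrm v

namespace In

variable {K : Type} [Field K] [NumberField K]

/-- a quadratic extension generated by a square root of `x` -/
structure QF (K : Type) [Field K] [NumberField K] (x : Kˣ) where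
  L : Type
  [fld : Field L]
  [nf : NumberField L]
  [alg : Algebra K L]
  θ : L
  deg : Module.finrank K L = 2
  sq : θ ^ 2 = algebraMap K L (x : K)

attribute [instance] QF.fld QF.nf QF.alg

theorem qf_nonempty {x : Kˣ} (h : ¬ IsSquare x) : Nonempty (QF K x) := by
  obtain ⟨L, h1, h2, h3, θ, h4, h5⟩ := exists_quad K x h
  exact ⟨⟨L, θ, h4, h5⟩⟩

/-- the chosen quadratic extension `K(√x)` -/
noncomputable def qf {x : Kˣ} (h : ¬ IsSquare x) : QF K x := Classical.choice (qf_nonempty h)

/-! ### Data of `K(√x)` -/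

open Classical in
/-- type of `v` in `K(√x)` -/
noncomputable def tt (x : Kˣ) (v : HeightOneSpectrum (𝓞 K)) : ℤ :=
  if h : IsSquare x then 1 else ty K (qf h).L v

open Classical in
/-- absolute discriminant of `K(√x)` -/
noncomputable def dd (x : Kˣ) : ℝ :=
  if h : IsSquare x then (NumberField.discr K : ℝ) ^ 2 else |(NumberField.discr (qf h).L : ℝ)|

open Classical in
/-- number of real places of `K(√x)` -/
noncomputable def nr (x : Kˣ) : ℕ :=
  if h : IsSquare x then 2 * InfinitePlace.nrRealPlaces K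
  else InfinitePlace.nrRealPlaces (qf h).L

open Classical in
/-- number of complex places of `K(√x)` -/
noncomputable def nc (x : Kˣ) : ℕ :=
  if h : IsSquare x then 2 * InfinitePlace.nrComplexPlaces K
  else InfinitePlace.nrComplexPlaces (qf h).L

section D

variable {T : Finset ℕ} (D : LocData T)

open Classical in
noncomputable def sgx (x : Kˣ) : ℤ := if h : IsSquare x then D.sg K ^ 2 else D.sg (qf h).L

open Classical in
noncomputable def cdx (x : Kˣ) : ℝ := if h : IsSquare x then D.cd K ^ 2 else D.cd (qf h).L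

open Classical in
noncomputable def plx (x : Kˣ) (s : ℂ) : ℂ :=
  if h : IsSquare x then D.pl K s ^ 2 else D.pl (qf h).L s

/-- root number of `K(√x)` -/
noncomputable def wx (x : Kˣ) : ℂ := (-1) ^ (nr x + nc x) * (sgx D x : ℂ)

end D

/-! ### The zeta function of `K(√x)` -/

/-- `(w-1)^2 ζ_{K(√x)}(w)` -/
def IsZZ (x : Kˣ) (Z : ℂ → ℂ) : Prop :=
  Differentiable ℂ Z ∧ FinOrd Z ∧
    (∀ w : ℂ, 1 < w.re → Z w =
      (w - 1) ^ 2 * ∏' v : HeightOneSpectrum (𝓞 K), zf (nrm v) (tt x v) w) ∧
    ∀ w : ℂ, w.re < 0 → Z w = (w - 1) ^ 2 * ((dd x : ℝ) : ℂ) ^ (1 / 2 - w) * gR w ^ nr x *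
      gC w ^ nc x * ∏' v : HeightOneSpectrum (𝓞 K), zf (nrm v) (tt x v) (1 - w)

noncomputable def ZZ (x : Kˣ) : ℂ → ℂ := Classical.epsilon (IsZZ x)

/-! ### The completed L-function of `K(√x)`, `x` not a square -/

/-- the completed L-function -/
def IsLm {T : Finset ℕ} (D : LocData T) (a : ℕ → ℝ) (x : Kˣ) (Λ : ℂ → ℂ) : Prop :=
  Differentiable ℂ Λ ∧ FinOrd Λ ∧ (∀ s : ℂ, Λ s = wx D x * Λ (2 - s)) ∧
    ∀ s : ℂ, 3 / 2 < s.re → Λ s = ((dd x ^ 2 * cdx D x : ℝ) : ℂ) ^ (s / 2) *
      gam1 s ^ (2 * Module.finrank ℚ K) *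
        ((∏' v : {v : HeightOneSpectrum (𝓞 K) // Away K T v}, FF a (nrm v.1) (tt x v.1) s) /
          plx D x s)

noncomputable def Lm {T : Finset ℕ} (D : LocData T) (a : ℕ → ℝ) (x : Kˣ) : ℂ → ℂ :=
  Classical.epsilon (IsLm D a x)

/-! ### The functions of the system -/

section S

variable (S : Finset (HeightOneSpectrum (𝓞 K)))

open Classical in
/-- norm of the part of odd order outside `S` -/
noncomputable def oddN (x : Kˣ) : ℕ := ∏ᶠ v : Io S, if Odd (ordK v.1 x) then nrm v.1 else 1

/-- part of the discriminant at `S` -/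
noncomputable def D0 (x : Kˣ) : ℝ := dd x / oddN S x

/-- `zf(1-w)/zf(w)` -/
noncomputable def zr (q : ℕ) (t : ℤ) (w : ℂ) : ℂ := zf q t (1 - w) * (zf q t w)⁻¹

/-- the factor of the functional equation of the zeta function -/
noncomputable def GamX (x : Kˣ) (w : ℂ) : ℂ :=
  ((D0 S x : ℝ) : ℂ) ^ (1 / 2 - w) * gR w ^ nr x * gC w ^ nc x * ∏ v ∈ S, zr (nrm v) (tt x v) w

/-- zeta function without the Euler factors at `S` -/
noncomputable def ZS (x : Kˣ) (w : ℂ) : ℂ := ZZ x w * ∏ v ∈ S, (zf (nrm v) (tt x v) w)⁻¹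

variable {T : Finset ℕ} (D : LocData T) (a : ℕ → ℝ)

open Classical in
/-- L-function of `K(√x)` without the Euler factors at `S` -/
noncomputable def ellX (x : Kˣ) (s : ℂ) : ℂ :=
  Lm D a x s * ((dd x ^ 2 * cdx D x : ℝ) : ℂ) ^ (-s / 2) *
    (gam1 s)⁻¹ ^ (2 * Module.finrank ℚ K) * plx D x s *
    ∏ v ∈ S with Away K T v, (FF a (nrm v) (tt x v) s)⁻¹

open Classical in
/-- the factor of the functional equation of the L-function -/
noncomputable def GGX (x : Kˣ) (s : ℂ) : ℂ :=
  wx D x * ((D0 S x ^ 2 * cdx D x : ℝ) : ℂ) ^ (1 - s) *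
    (gam1 (2 - s) * (gam1 s)⁻¹) ^ (2 * Module.finrank ℚ K) * (plx D x s * (plx D x (2 - s))⁻¹) *
    ∏ v ∈ S with Away K T v, (FF a (nrm v) (tt x v) (2 - s) * (FF a (nrm v) (tt x v) s)⁻¹)

/-- the global symbol on classes -/
noncomputable def Bc (g h : GS S) : ℂ := (BS S (Quotient.out g) (Quotient.out h) : ℂ)

open Classical in
noncomputable def uc (v : Io S) (b : Io S →₀ ℕ) (c : GS S) : ℂ :=
  if h : Rel S b c then (uK v.1 h.choose : ℂ) else 0

open Classical in
noncomputable def Zc (b : Io S →₀ ℕ) (c : GS S) (w : ℂ) : ℂ :=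
  if h : Rel S b c then ZS S h.choose w else 0

open Classical in
noncomputable def ellc (b : Io S →₀ ℕ) (c : GS S) (s : ℂ) : ℂ :=
  if h : Rel S b c then ellX S D a h.choose s else 0

/-- **The system.** -/
noncomputable def sys : SysD where
  ι := Io S
  N := fun v => nrm v.1
  lam := fun v => a (nrm v.1)
  G := GS S
  fin := Fintype.ofFinite _
  B := Bc S
  R := Rel S
  u := uc S
  Zf := Zc S
  Gam := fun g w => GamX S (Quotient.out g) w
  ell := ellc S D a
  GG := fun g s => GGX S D a (Quotient.out g) s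

end S

end In

end Pool.Agent.QD
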