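import Pool.Agent.QD.In.Alg

/-!
# QD-In-Recip: the reciprocity law in the form of the system

PLAN. `BS S x y` is the product of `hs v x y` over the places outside `S`; finite support: only places
with `ordK v x ≠ 0` or `ordK v y ≠ 0` contribute (`hs_parity`, third case; `ordK_finite`).  At `v` with
`m v` odd (so `b v` even) the symbol is `uK v y`, at `v` with `b v` odd it is `uK v x`, otherwise `1`.
`finprod_eq_prod_of_mulSupport_subset` with the finite set `m.support ∪ b.support`.
-/

namespace Pool.Agent.QD.In

open NumberField IsDedekindDomain Pool.Agent.HWR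

variable {K : Type} [Field K] [NumberField K] {T : Finset ℕ}
  {S : Finset (HeightOneSpectrum (𝓞 K))} (hS : Nic T S)
include hS

/-- reciprocity for elements without common odd places outside `S` -/
theorem recip {x y : Kˣ} (b m : Io S →₀ ℕ) (hx : ∀ v : Io S, ordK v.1 x = (m v : ℤ))
    (hy : ∀ v : Io S, ordK v.1 y = (b v : ℤ)) (hd : ∀ v : Io S, ¬ (Odd (m v) ∧ Odd (b v))) :
    (∏ v ∈ m.support with Odd (m v), uK v.1 y) * (∏ v ∈ b.support with Odd (b v), uK v.1 x) =
      BS S x y := by
  classical
  have key : ∀ v : Io S, hs v.1 x y =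
      (if Odd (m v) then uK v.1 y else 1) * (if Odd (b v) then uK v.1 x else 1) := by
    intro v
    obtain ⟨h1, h2, h3⟩ := hs_parity v.1 x y
    by_cases hm : Odd (m v)
    · have hb : ¬ Odd (b v) := fun hb => hd v ⟨hm, hb⟩
      rw [if_pos hm, if_neg hb, mul_one]
      refine h1 ?_ ?_
      · rw [hx v]; exact_mod_cast hm
      · rw [hy v]; exact_mod_cast Nat.not_odd_iff_even.1 hb
    · by_cases hb : Odd (b v)
      · rw [if_neg hm, if_pos hb, one_mul]
        refine h2 ?_ ?_
        · rw [hx v]; exact_mod_cast Nat.not_odd_iff_even.1 hm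
        · rw [hy v]; exact_mod_cast hb
      · rw [if_neg hm, if_neg hb, one_mul]
        refine h3 ?_ ?_
        · rw [hx v]; exact_mod_cast Nat.not_odd_iff_even.1 hm
        · rw [hy v]; exact_mod_cast Nat.not_odd_iff_even.1 hb
  have hsupp : (Function.mulSupport fun v : Io S => hs v.1 x y) ⊆
      ((m.support ∪ b.support : Finset (Io S)) : Set (Io S)) := by
    intro v hv
    by_contra hcon
    rw [Finset.mem_coe, Finset.mem_union, not_or, Finsupp.notMem_support_iff,
      Finsupp.notMem_support_iff] at hcon
    apply hv
    show hs v.1 x y = 1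
    rw [key v, hcon.1, hcon.2]
    simp
  have h1 : BS S x y = ∏ v ∈ m.support ∪ b.support, hs v.1 x y :=
    finprod_eq_prod_of_mulSupport_subset _ hsupp
  rw [h1, Finset.prod_congr rfl (fun v _ => key v), Finset.prod_mul_distrib,
    Finset.prod_filter, Finset.prod_filter]
  congr 1
  · refine Finset.prod_subset Finset.subset_union_left fun v _ hv => ?_
    rw [Finsupp.notMem_support_iff] at hv
    rw [hv]
    simp
  · refine Finset.prod_subset Finset.subset_union_right fun v _ hv => ?_
    rw [Finsupp.notMem_support_iff] at hv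
    rw [hv]
    simp

end Pool.Agent.QD.In
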