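import Pool.Agent.QD.In.Def
import Pool.Agent.QD.In.Recip

/-!
# QD-In-Cls: functions on classes

`Bc S g h` is `BS S` of chosen representatives (`Quotient.out`), `uc`, `Zc`, `ellc` use a chosen element
`h.choose` of `Rel S b c` (In/Def.lean, In/Alg.lean).

PLAN.  `out_div`: `QuotientGroup.mk (Quotient.out c) = c` (`QuotientGroup.out_eq'`), `QuotientGroup.eq`
(`x⁻¹ y ∈ H`; the group is commutative).
`Bc_mk`: replace representatives one at a time: `BS_mul_left`, `BS_recip`, `BS_comm` (N3Main).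
`Bc_mul`, `Bc_comm`, `Bc_sq`: `QuotientGroup.induction_on`, `Bc_mk`, `QuotientGroup.mk_mul`.
`uc_of`: `dif_pos`, `uK_of_rel` (In/Alg.lean) for `h.choose` and `x`.
`ellc_of`, `Zc_of`: only for the chosen element: there is an element `x` with the orders and the
class such that the function is the one of `x`.
`recip_c`: `Bc_mk` and `recip` (In/Recip.lean) for `x` from `Rel S m g` and `y` from `Rel S b c`;
`uc_of`; products with `if` and `Finset.prod_filter`.
`perp_c`: `rel_perp` (In/Alg.lean).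
-/

namespace Pool.Agent.QD.In

open NumberField IsDedekindDomain Pool.Agent.HWR

variable {K : Type} [Field K] [NumberField K]

private theorem cls_mk (S : Finset (HeightOneSpectrum (𝓞 K))) (x y : Kˣ) :
    (QuotientGroup.mk x : GS S) = QuotientGroup.mk y ↔ x / y ∈ HSub S := by
  rw [eq_comm, QuotientGroup.eq, div_eq_mul_inv, mul_comm]

theorem out_div (S : Finset (HeightOneSpectrum (𝓞 K))) (x : Kˣ) :
    (Quotient.out (QuotientGroup.mk x : GS S)) / x ∈ HSub S := by
  exact (cls_mk S _ _).1 (QuotientGroup.out_eq' _)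

theorem div_out (S : Finset (HeightOneSpectrum (𝓞 K))) (x : Kˣ) :
    x / (Quotient.out (QuotientGroup.mk x : GS S)) ∈ HSub S := by
  exact (cls_mk S _ _).1 (QuotientGroup.out_eq' _).symm

theorem mk_eq_iff (S : Finset (HeightOneSpectrum (𝓞 K))) (x y : Kˣ) :
    (QuotientGroup.mk x : GS S) = QuotientGroup.mk y ↔ x / y ∈ HSub S := by
  exact cls_mk S x y

variable {T : Finset ℕ} (D : LocData T) (a : ℕ → ℝ) {T1 : Finset ℕ}
  {S : Finset (HeightOneSpectrum (𝓞 K))} (hS : Nic T1 S)
include hS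

omit D a in
private theorem cls_congr {x x' y y' : Kˣ} (hx : x / x' ∈ HSub S) (hy : y / y' ∈ HSub S) :
    BS S x y = BS S x' y' := by
  have h1 : BS S x y = BS S x' y := by
    have h := BS_mul_left hS (x / x') x' y
    rw [div_mul_cancel, BS_recip hS _ y hx, one_mul] at h
    exact h
  have h2 : BS S y x' = BS S y' x' := by
    have h := BS_mul_left hS (y / y') y' x'
    rw [div_mul_cancel, BS_recip hS _ x' hy, one_mul] at h
    exact h
  rw [h1, BS_comm hS x' y, h2, BS_comm hS y' x']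

theorem Bc_mk (x y : Kˣ) : Bc S (QuotientGroup.mk x) (QuotientGroup.mk y) = (BS S x y : ℂ) := by
  unfold Bc
  rw [cls_congr hS (out_div S x) (out_div S y)]

theorem Bc_mul (g h k : GS S) : Bc S (g * h) k = Bc S g k * Bc S h k := by
  induction g using QuotientGroup.induction_on with
  | H x =>
    induction h using QuotientGroup.induction_on with
    | H y =>
      induction k using QuotientGroup.induction_on with
      | H z =>
        rw [← QuotientGroup.mk_mul, Bc_mk hS, Bc_mk hS, Bc_mk hS, BS_mul_left hS, Int.cast_mul]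

theorem Bc_comm (g h : GS S) : Bc S g h = Bc S h g := by
  unfold Bc
  rw [BS_comm hS]

theorem Bc_sq (g h : GS S) : Bc S g h = 1 ∨ Bc S g h = -1 := by
  unfold Bc
  rcases BS_sq hS (Quotient.out g) (Quotient.out h) with h1 | h1
  · left
    rw [h1, Int.cast_one]
  · right
    rw [h1, Int.cast_neg, Int.cast_one]

theorem uc_of {b : Io S →₀ ℕ} {c : GS S} {x : Kˣ} (hx : ∀ v : Io S, ordK v.1 x = (b v : ℤ))
    (hc : (QuotientGroup.mk x : GS S) = c) (v : Io S) : uc S v b c = (uK v.1 x : ℂ) := by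
  have h : Rel S b c := ⟨x, hx, hc⟩
  have h1 := h.choose_spec
  unfold uc
  rw [dif_pos h, uK_of_rel hS (x := h.choose) (y := x) (fun v => by rw [h1.1 v, hx v])
    (h1.2.trans hc.symm) v.1]

omit hS in
theorem Zc_of {b : Io S →₀ ℕ} {c : GS S} (h : Rel S b c) :
    ∃ x : Kˣ, (∀ v : Io S, ordK v.1 x = (b v : ℤ)) ∧ (QuotientGroup.mk x : GS S) = c ∧
      Zc S b c = ZS S x := by
  refine ⟨h.choose, h.choose_spec.1, h.choose_spec.2, ?_⟩
  funext w
  unfold Zc
  rw [dif_pos h]

omit hS in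
theorem ellc_of {b : Io S →₀ ℕ} {c : GS S} (h : Rel S b c) :
    ∃ x : Kˣ, (∀ v : Io S, ordK v.1 x = (b v : ℤ)) ∧ (QuotientGroup.mk x : GS S) = c ∧
      ellc S D a b c = ellX S D a x := by
  refine ⟨h.choose, h.choose_spec.1, h.choose_spec.2, ?_⟩
  funext w
  unfold ellc
  rw [dif_pos h]

theorem R_two_c (f : Io S →₀ ℕ) : Rel S (2 • f) 1 := by
  obtain ⟨x, hx⟩ := rel_exists hS f
  refine ⟨x ^ 2, fun v => ?_, ?_⟩
  · rw [Pool.Agent.QD.ordK_pow, hx v]
    simp
  · rw [QuotientGroup.eq_one_iff]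
    exact sq_mem_HSub S x

theorem u_two_c (f : Io S →₀ ℕ) (v : Io S) : uc S v (2 • f) 1 = 1 := by
  obtain ⟨x, hx⟩ := rel_exists hS f
  have h1 : ∀ v : Io S, ordK v.1 (x ^ 2) = ((2 • f) v : ℤ) := fun v => by
    rw [Pool.Agent.QD.ordK_pow, hx v]
    simp
  have h2 : (QuotientGroup.mk (x ^ 2) : GS S) = 1 := by
    rw [QuotientGroup.eq_one_iff]
    exact sq_mem_HSub S x
  rw [uc_of hS h1 h2 v, Pool.Agent.QD.uK_sq, Int.cast_one]

theorem u_odd_c (v : Io S) (b : Io S →₀ ℕ) (c : GS S) (h : Rel S b c) (ho : Odd (b v)) :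
    uc S v b c = 0 := by
  obtain ⟨x, hx, hc⟩ := h
  rw [uc_of hS hx hc v, Pool.Agent.QD.uK_eq_zero_iff.2 (by rw [hx v]; exact_mod_cast ho),
    Int.cast_zero]

theorem u_even_c (v : Io S) (b : Io S →₀ ℕ) (c : GS S) (h : Rel S b c) (he : Even (b v)) :
    uc S v b c = 1 ∨ uc S v b c = -1 := by
  obtain ⟨x, hx, hc⟩ := h
  rw [uc_of hS hx hc v]
  rcases Pool.Agent.QD.uK_of_even (v := v.1) (x := x) (by rw [hx v]; exact_mod_cast he) with h1 | h1
  · left
    rw [h1, Int.cast_one]
  · right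
    rw [h1, Int.cast_neg, Int.cast_one]

theorem perp_c (g : GS S) : Rel S 0 g ↔ ∀ y : GS S, Rel S 0 y → Bc S g y = 1 := by
  induction g using QuotientGroup.induction_on with
  | H x =>
    rw [rel_perp hS x]
    constructor
    · intro h y hy
      induction y using QuotientGroup.induction_on with
      | H z => rw [Bc_mk hS, h z hy, Int.cast_one]
    · intro h y hy
      have h1 := h _ hy
      rw [Bc_mk hS] at h1
      exact_mod_cast h1

open Classical in
theorem recip_c (m : Io S →₀ ℕ) (g : GS S) (b : Io S →₀ ℕ) (c : GS S) (h1 : Rel S m g)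
    (h2 : Rel S b c) (hd : ∀ v : Io S, ¬ (Odd (m v) ∧ Odd (b v))) :
    (∏ v ∈ m.support, if Odd (m v) then uc S v b c else 1) *
      (∏ v ∈ b.support, if Odd (b v) then uc S v m g else 1) = Bc S g c := by
  obtain ⟨x, hx, hg⟩ := h1
  obtain ⟨y, hy, hc⟩ := h2
  have h3 := recip hS b m hx hy hd
  rw [Finset.prod_filter, Finset.prod_filter] at h3
  have h4 := congrArg (Int.cast : ℤ → ℂ) h3
  rw [← hg, ← hc, Bc_mk hS, ← h4, Int.cast_mul, Int.cast_prod, Int.cast_prod]
  congr 1
  · refine Finset.prod_congr rfl fun v _ => ?_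
    rw [uc_of hS hy rfl v]
    split_ifs <;> simp
  · refine Finset.prod_congr rfl fun v _ => ?_
    rw [uc_of hS hx rfl v]
    split_ifs <;> simp

/-- nondegeneracy as a character sum -/
theorem sum_Bc [Fintype (GS S)] (g : GS S) (hg : g ≠ 1) : ∑ b : GS S, Bc S b g = 0 := by
  obtain ⟨h, hh⟩ : ∃ h : GS S, Bc S h g ≠ 1 := by
    by_contra hcon
    push Not at hcon
    apply hg
    induction g using QuotientGroup.induction_on with
    | H x =>
      rw [QuotientGroup.eq_one_iff]
      refine BS_nondeg hS x fun y => ?_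
      have h1 := hcon (QuotientGroup.mk y)
      rw [Bc_mk hS, BS_comm hS] at h1
      exact_mod_cast h1
  have h2 : ∑ b : GS S, Bc S b g = ∑ b : GS S, Bc S (h * b) g :=
    (Equiv.sum_comp (Equiv.mulLeft h) (fun b => Bc S b g)).symm
  have h3 : ∑ b : GS S, Bc S (h * b) g = Bc S h g * ∑ b : GS S, Bc S b g := by
    rw [Finset.mul_sum]
    exact Finset.sum_congr rfl fun b _ => Bc_mul hS h b g
  rw [h3] at h2
  have h4 : (1 - Bc S h g) * ∑ b : GS S, Bc S b g = 0 := by linear_combination h2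
  exact (mul_eq_zero.1 h4).resolve_left (sub_ne_zero.2 (Ne.symm hh))

end Pool.Agent.QD.In
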