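import Pool.Agent.QD.In.GamX
import Pool.Agent.QD.In.Cls

/-!
# QD-In-V0a: the sums `M` split over the local group at `v0`

`S' ∌ v0`, `S = insert v0 S'`.  `e p : Kˣ`, `uK v0 e = -1`, `ordK v0 p` odd.

PLAN.  `loc_class`: `v0` is not over `2` (`nic_two`), `LSq_of_LSq1` (N3/Hensel.lean): `LSq v0 z` iff
`LSq1 v0 z` iff `uK v0 z = 1` (`uK_eq_one_iff`).  Choose `j` = parity of `ordK v0 x`; `x / p^j` has even order, and
its symbol is `1` or `-1` (`uK_eq_neg_one_iff`, `uK_cases`); symbols of elements of even order are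
multiplicative (N2/UKA, UKB: look for `uK` multiplicativity, or `N2.hs_mul_left`; `hs v0 x p` for
`x` of even order and `p` of odd order is `uK v0 x` by `hs_parity`, so multiplicativity also
follows from `hs_mul_left`).  Uniqueness: `rp i j / rp i' j'` is a local square only if equal
(order parity, symbol).
`hs_congr`: `hs v0 x y` depends on `y` only modulo local squares (`hs_comm`, `hs_mul_left`,
`hs_of_LSq`).
`M_split`: put `R (c, j) =` class in `GS S` of an element `z` with `z / out c ∈ HSub S'` and
`LSq v0 (z / rp j)` (`weak_approx S' v0`); `R : GS S' × (Bool × Bool) → GS S` is bijective: injective by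
`HSub S ⊆ HSub S'`, `loc_class`; surjective: `HSub S = HSub S' ∩ LSq v0`.  `Fintype.sum_bijective`,
`Fintype.sum_prod_type'`.  For `z` as above `Bc S (mk x) (R (c,j)) = BS S x z = BS S' x z * hs v0 x z`
(`Bc_mk`, `BS_insert`, signs are their own inverses) `= Bc S' (mk x) c * hs v0 x (rp j)`, and
`GamX S (out (R (c,j))) = GamX S z` (`GamX_congr`) `= GamX S' z * ...` (`GamX_insert`), `GamX S' z = GamX S' (out c)`
and the orders of `z` and `rp j` at `v0` have the same parity, same symbol `uK`
(`uK_mul_of_LSq1`-like facts of N3/Basic.lean).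
-/

namespace Pool.Agent.QD.In

open NumberField IsDedekindDomain Pool.Agent.HWR

variable {K : Type} [Field K] [NumberField K]

/-- `M(x, w)` of the system for `S` -/
noncomputable def Mx (S : Finset (HeightOneSpectrum (𝓞 K))) (x : Kˣ) (w : ℂ) : ℂ :=
  letI : Fintype (GS S) := Fintype.ofFinite _
  ∑ b : GS S, Bc S (QuotientGroup.mk x) b * GamX S (Quotient.out b) w

/-- representatives of the local classes -/
def rp (e p : Kˣ) (j : Bool × Bool) : Kˣ := (if j.1 then e else 1) * (if j.2 then p else 1)

/-- the local sum -/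
noncomputable def m0 (v0 : HeightOneSpectrum (𝓞 K)) (e p x : Kˣ) (w : ℂ) : ℂ :=
  ∑ j : Bool × Bool, (hs v0 x (rp e p j) : ℂ) *
    ((if Odd (ordK v0 (rp e p j)) then (nrm v0 : ℂ) ^ (1 / 2 - w) else 1) *
      zr (nrm v0) (uK v0 (rp e p j)) w)

variable (v0 : HeightOneSpectrum (𝓞 K)) (h2 : (2 : 𝓞 K) ∉ v0.asIdeal) {e p : Kˣ}
  (he : uK v0 e = -1) (hp : Odd (ordK v0 p))

omit v0 h2 in
theorem uK_congr' (v : HeightOneSpectrum (𝓞 K)) {y z : Kˣ} (h : LSq v (y / z)) :
    uK v y = uK v z ∧ (Odd (ordK v y) ↔ Odd (ordK v z)) := by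
  have e1 : y = z * (y / z) := by rw [mul_div_cancel]
  constructor
  · conv_lhs => rw [e1]
    exact uK_mul_of_LSq1 (LSq1_of_LSq h)
  · have h1 : ordK v y = ordK v z + ordK v (y / z) := by
      conv_lhs => rw [e1]
      exact Pool.Agent.QD.ordK_mul v z (y / z)
    rw [h1, Int.odd_add]
    constructor
    · intro h2
      exact h2.2 (even_of_LSq h)
    · intro h2
      exact ⟨fun _ => even_of_LSq h, fun _ => h2⟩

include he hp in
private theorem rp_odd (j : Bool × Bool) : Odd (ordK v0 (rp e p j)) ↔ j.2 = true := by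
  have he' := (uK_eq_neg_one_iff.1 he).1
  rcases j with ⟨a, b⟩
  unfold rp
  rw [Pool.Agent.QD.ordK_mul]
  have h1 : Even (ordK v0 (if a = true then e else 1)) := by
    split_ifs
    · exact he'
    · rw [Pool.Agent.QD.ordK_one]; exact Even.zero
  cases b
  · simp only [Bool.false_eq_true, if_false, iff_false, Int.not_odd_iff_even,
      Pool.Agent.QD.ordK_one, add_zero]
    exact h1
  · simp only [if_true, iff_true]
    exact h1.add_odd hp

include h2 he hp in
theorem loc_class (x : Kˣ) : ∃! j : Bool × Bool, LSq v0 (x / rp e p j) := by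
  classical
  have he' := uK_eq_neg_one_iff.1 he
  have hex : ∃ j : Bool × Bool, LSq v0 (x / rp e p j) := by
    set b : Bool := decide (Odd (ordK v0 x)) with hb
    set x' : Kˣ := x / (if b = true then p else 1) with hx'
    have hev : Even (ordK v0 x') := by
      rw [hx', Pool.Agent.QD.ordK_div]
      by_cases h : Odd (ordK v0 x)
      · have hb1 : b = true := by simp [hb, h]
        rw [if_pos hb1]
        exact h.sub_odd hp
      · have hb1 : ¬ b = true := by simp [hb, h]
        rw [if_neg hb1, Pool.Agent.QD.ordK_one, sub_zero]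
        exact Int.not_odd_iff_even.1 h
    rcases uK_of_even hev with h1 | h1
    · refine ⟨(false, b), ?_⟩
      have h3 : x / rp e p (false, b) = x' := by
        rw [hx']
        unfold rp
        simp
      rw [h3]
      exact LSq_of_LSq1 v0 h2 _ (uK_eq_one_iff.1 h1)
    · refine ⟨(true, b), ?_⟩
      have h3 : x / rp e p (true, b) = x' * e⁻¹ := by
        rw [hx']
        unfold rp
        simp only [if_true]
        rw [div_mul_eq_div_div_swap, div_eq_mul_inv _ e]
      rw [h3]
      have hei : uK v0 e⁻¹ = -1 := by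
        have h4 : e⁻¹ = e * (e⁻¹) ^ 2 := by
          rw [pow_two, ← mul_assoc, mul_inv_cancel, one_mul]
        rw [h4, Pool.Agent.QD.uK_mul_sq, he]
      have hei2 : Even (ordK v0 e⁻¹) := by
        rw [Pool.Agent.QD.ordK_inv]
        exact he'.1.neg
      apply LSq_of_LSq1 v0 h2
      rw [← uK_eq_one_iff, N2.uK_mul h2 x' e⁻¹ hev hei2, h1, hei]
      norm_num
  obtain ⟨j, hj⟩ := hex
  refine ⟨j, hj, ?_⟩
  intro j' hj'
  have h1 : LSq v0 (rp e p j / rp e p j') := by
    have h3 := LSq_div hj' hj
    have h4 : x / rp e p j' / (x / rp e p j) = rp e p j / rp e p j' := by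
      rw [div_div_div_cancel_left]
    rwa [h4] at h3
  have h3 := (uK_congr' v0 h1).2
  rw [rp_odd v0 he hp, rp_odd v0 he hp] at h3
  rcases j with ⟨a, b⟩
  rcases j' with ⟨a', b'⟩
  have hbb : b = b' := Bool.eq_iff_iff.2 h3
  subst hbb
  have hne : ¬ LSq v0 e := fun h => he'.2 (LSq1_of_LSq h)
  cases a <;> cases a'
  · rfl
  · exfalso
    apply hne
    have h4 : (rp e p (false, b) / rp e p (true, b)) = e⁻¹ := by
      unfold rp
      simp only [if_true, Bool.false_eq_true, if_false, one_mul]
      rw [div_mul_cancel_right]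
    rw [h4] at h1
    have := LSq_inv h1
    rwa [inv_inv] at this
  · exfalso
    apply hne
    have h4 : (rp e p (true, b) / rp e p (false, b)) = e := by
      unfold rp
      simp only [if_true, Bool.false_eq_true, if_false, one_mul]
      rw [mul_div_cancel_right]
    rwa [h4] at h1
  · rfl

include h2 in
theorem hs_congr (x : Kˣ) {y z : Kˣ} (h : LSq v0 (y / z)) : hs v0 x y = hs v0 x z := by
  have e1 : y = (y / z) * z := by rw [div_mul_cancel]
  rw [hs_comm v0 h2 x y, hs_comm v0 h2 x z]
  conv_lhs => rw [e1]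
  rw [hs_mul_left v0 h2, hs_of_LSq h, one_mul]

include he hp in
/-- the sum over the classes -/
theorem M_split [DecidableEq (HeightOneSpectrum (𝓞 K))] {T1 : Finset ℕ}
    {S' : Finset (HeightOneSpectrum (𝓞 K))} (hS' : Nic T1 S') (hv0 : v0 ∉ S') (x : Kˣ) (w : ℂ) :
    Mx (insert v0 S') x w = Mx S' x w * m0 v0 e p x w := by
  have h2 : (2 : 𝓞 K) ∉ v0.asIdeal := nic_two hS' v0 hv0
  have hS : Nic T1 (insert v0 S') := nic_insert hS' v0
  have hsub : S' ⊆ insert v0 S' := Finset.subset_insert v0 S'
  choose z hz1 hz2 using fun (c : GS S') (j : Bool × Bool) =>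
    weak_approx S' v0 hv0 (Quotient.out c) (rp e p j)
  letI i1 : Fintype (GS (insert v0 S')) := Fintype.ofFinite _
  letI i2 : Fintype (GS S') := Fintype.ofFinite _
  have hout : ∀ c : GS S', (QuotientGroup.mk (Quotient.out c) : GS S') = c :=
    fun c => QuotientGroup.out_eq' c
  let R : GS S' × (Bool × Bool) → GS (insert v0 S') := fun q => QuotientGroup.mk (z q.1 q.2)
  have hR : Function.Bijective R := by
    constructor
    · rintro ⟨c, j⟩ ⟨c', j'⟩ h
      have h1 : z c j / z c' j' ∈ HSub (insert v0 S') := (mk_eq_iff _ _ _).1 h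
      have h3 : z c j / z c' j' ∈ HSub S' := HSub_mono hsub h1
      have h4 : LSq v0 (z c j / z c' j') := h1.1 v0 (Finset.mem_insert_self v0 S')
      have hc : c = c' := by
        rw [← hout c, ← hout c', mk_eq_iff]
        have h5 : (Quotient.out c : Kˣ) / Quotient.out c' =
            (z c j / Quotient.out c)⁻¹ * (z c j / z c' j') * (z c' j' / Quotient.out c') := by
          rw [inv_div, div_mul_div_cancel, div_mul_div_cancel]
        rw [h5]
        exact (HSub S').mul_mem ((HSub S').mul_mem ((HSub S').inv_mem (hz1 c j)) h3) (hz1 c' j')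
      have hj : j = j' := by
        refine (loc_class v0 h2 he hp (z c j)).unique (hz2 c j) ?_
        have h5 : z c j / rp e p j' = (z c j / z c' j') * (z c' j' / rp e p j') := by
          rw [div_mul_div_cancel]
        rw [h5]
        exact LSq_mul h4 (hz2 c' j')
      rw [hc, hj]
    · intro b
      obtain ⟨j, hj, -⟩ := loc_class v0 h2 he hp (Quotient.out b : Kˣ)
      refine ⟨(QuotientGroup.mk (Quotient.out b : Kˣ), j), ?_⟩
      set c : GS S' := QuotientGroup.mk (Quotient.out b : Kˣ) with hc
      have hb : (QuotientGroup.mk (Quotient.out b : Kˣ) : GS (insert v0 S')) = b :=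
        QuotientGroup.out_eq' b
      rw [← hb]
      change (QuotientGroup.mk (z c j) : GS (insert v0 S')) = QuotientGroup.mk (Quotient.out b : Kˣ)
      rw [mk_eq_iff]
      have h3 : z c j / (Quotient.out b : Kˣ) ∈ HSub S' := by
        have h5 : z c j / (Quotient.out b : Kˣ) =
            (z c j / Quotient.out c) * (Quotient.out c / Quotient.out b) := by
          rw [div_mul_div_cancel]
        rw [h5]
        exact (HSub S').mul_mem (hz1 c j) (out_div S' _)
      have h4 : LSq v0 (z c j / (Quotient.out b : Kˣ)) := by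
        have h5 := LSq_div (hz2 c j) hj
        rwa [div_div_div_cancel_right] at h5
      refine ⟨fun v hv => ?_, h3.2⟩
      rcases Finset.mem_insert.1 hv with rfl | hv
      · exact h4
      · exact h3.1 v hv
  have hterm : ∀ (c : GS S') (j : Bool × Bool),
      Bc (insert v0 S') (QuotientGroup.mk x) (R (c, j)) *
        GamX (insert v0 S') (Quotient.out (R (c, j))) w =
      (Bc S' (QuotientGroup.mk x) c * GamX S' (Quotient.out c) w) *
        ((hs v0 x (rp e p j) : ℂ) *
        ((if Odd (ordK v0 (rp e p j)) then (nrm v0 : ℂ) ^ (1 / 2 - w) else 1) *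
          zr (nrm v0) (uK v0 (rp e p j)) w)) := by
    intro c j
    have hcz : (QuotientGroup.mk (z c j) : GS S') = c := by
      rw [← hout c, mk_eq_iff]
      rw [hout c]
      exact hz1 c j
    have h1 : Bc (insert v0 S') (QuotientGroup.mk x) (R (c, j)) =
        Bc S' (QuotientGroup.mk x) c * (hs v0 x (rp e p j) : ℂ) := by
      have h3 : Bc S' (QuotientGroup.mk x) c = (BS S' x (z c j) : ℂ) := by
        conv_lhs => rw [← hcz]
        exact Bc_mk hS' x (z c j)
      change Bc (insert v0 S') (QuotientGroup.mk x) (QuotientGroup.mk (z c j)) = _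
      rw [Bc_mk hS, h3, ← hs_congr v0 h2 x (hz2 c j), BS_insert hS' v0 hv0 x (z c j)]
      push_cast
      rcases hs_sq v0 h2 x (z c j) with h4 | h4 <;> rw [h4] <;> push_cast <;> ring
    have h3 : GamX (insert v0 S') (Quotient.out (R (c, j))) w =
        GamX S' (Quotient.out c) w *
          ((if Odd (ordK v0 (rp e p j)) then (nrm v0 : ℂ) ^ (1 / 2 - w) else 1) *
          zr (nrm v0) (uK v0 (rp e p j)) w) := by
      have h4 : GamX (insert v0 S') (Quotient.out (R (c, j))) = GamX (insert v0 S') (z c j) :=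
        GamX_congr _ (good_of_nic hS).1 (out_div _ _)
      have h5 : GamX S' (z c j) = GamX S' (Quotient.out c) :=
        GamX_congr _ (good_of_nic hS').1 (hz1 c j)
      obtain ⟨h6, h7⟩ := uK_congr' v0 (hz2 c j)
      rw [h4, GamX_insert S' v0 hv0 h2, h5, h6]
      simp only [h7]
    rw [h1, h3]
    ring
  calc Mx (insert v0 S') x w
      = ∑ b : GS (insert v0 S'), Bc (insert v0 S') (QuotientGroup.mk x) b *
          GamX (insert v0 S') (Quotient.out b) w := rfl
    _ = ∑ q : GS S' × (Bool × Bool), Bc (insert v0 S') (QuotientGroup.mk x) (R q) *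
          GamX (insert v0 S') (Quotient.out (R q)) w :=
        (Fintype.sum_bijective R hR _ _ fun q => rfl).symm
    _ = ∑ c : GS S', ∑ j : Bool × Bool, Bc (insert v0 S') (QuotientGroup.mk x) (R (c, j)) *
          GamX (insert v0 S') (Quotient.out (R (c, j))) w := Fintype.sum_prod_type _
    _ = ∑ c : GS S', ∑ j : Bool × Bool,
          (Bc S' (QuotientGroup.mk x) c * GamX S' (Quotient.out c) w) *
        ((hs v0 x (rp e p j) : ℂ) *
        ((if Odd (ordK v0 (rp e p j)) then (nrm v0 : ℂ) ^ (1 / 2 - w) else 1) *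
          zr (nrm v0) (uK v0 (rp e p j)) w)) :=
        Finset.sum_congr rfl fun c _ => Finset.sum_congr rfl fun j _ => hterm c j
    _ = Mx S' x w * m0 v0 e p x w := by
        unfold Mx m0
        rw [Finset.sum_mul_sum]

end Pool.Agent.QD.In
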