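import Pool.Agent.QD.In.Pl
import Pool.Agent.QD.N4.SqSplit
import Pool.Agent.QD.N4.Sqrt
import Pool.Agent.QD.N4.AlgIso
import Pool.Agent.HWR.Main

/-!
# QD-In-Right: holomorphy for `Re s > 1` from `HWR.main_general`
-/

namespace Pool.Agent.QD.In

open NumberField IsDedekindDomain Pool.Agent.HWR

open scoped TensorProduct

/-- a quadratic extension is generated by a square root -/
theorem exists_theta (K : Type) [Field K] [NumberField K] (K' : Type) [Field K'] [NumberField K']
    [Algebra K K'] (hdeg : Module.finrank K K' = 2) :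
    ∃ (x : Kˣ) (θ : K'), θ ^ 2 = algebraMap K K' (x : K) ∧ ¬ IsSquare x := by
  have : Module.Finite K K' := Module.finite_of_finrank_pos (by omega)
  obtain ⟨α, hα⟩ : ∃ α : K', α ∉ (algebraMap K K').range := by
    by_contra hcon
    push Not at hcon
    have htop : (⊥ : Subalgebra K K') = ⊤ := by
      rw [eq_top_iff]
      intro y _
      obtain ⟨z, hz⟩ := hcon y
      exact Algebra.mem_bot.2 ⟨z, hz⟩
    have h1 := Subalgebra.bot_eq_top_iff_finrank_eq_one.1 htop
    omega
  have hint : IsIntegral K α := Algebra.IsIntegral.isIntegral α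
  have hle : (minpoly K α).natDegree ≤ 2 := by
    have := minpoly.natDegree_le (A := K) α
    omega
  have hpos := minpoly.natDegree_pos hint
  have hne1 : (minpoly K α).natDegree ≠ 1 := fun h => hα (minpoly.natDegree_eq_one_iff.1 h)
  have h2 : (minpoly K α).natDegree = 2 := by omega
  have hmon := minpoly.monic hint
  obtain ⟨b, c, hbc⟩ : ∃ b c : K, α ^ 2 + algebraMap K K' b * α + algebraMap K K' c = 0 := by
    refine ⟨(minpoly K α).coeff 1, (minpoly K α).coeff 0, ?_⟩
    have h3 := minpoly.aeval K α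
    rw [Polynomial.aeval_eq_sum_range, h2, Finset.sum_range_succ, Finset.sum_range_succ,
      Finset.sum_range_one] at h3
    have h4 : (minpoly K α).coeff 2 = 1 := by
      have := hmon.coeff_natDegree
      rwa [h2] at this
    rw [h4, one_smul, pow_one, pow_zero, Algebra.smul_def, Algebra.smul_def, mul_one] at h3
    linear_combination h3
  have two_ne : (2 : K') ≠ 0 := by norm_num
  have hθ : (α + algebraMap K K' (b / 2)) ^ 2 = algebraMap K K' (b ^ 2 / 4 - c) := by
    rw [map_sub, map_div₀, map_div₀, map_pow, map_ofNat, map_ofNat]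
    linear_combination hbc
  have hnot : ∀ r : K, α + algebraMap K K' (b / 2) ≠ algebraMap K K' r := by
    intro r hr
    apply hα
    exact ⟨r - b / 2, by rw [map_sub, ← hr]; ring⟩
  have hx0 : b ^ 2 / 4 - c ≠ 0 := by
    intro h0
    rw [h0, map_zero] at hθ
    have h5 := pow_eq_zero_iff (two_ne_zero) |>.1 hθ
    exact hnot 0 (by rw [h5, map_zero])
  refine ⟨Units.mk0 _ hx0, α + algebraMap K K' (b / 2), ?_, ?_⟩
  · rw [hθ, Units.val_mk0]
  · rintro ⟨r, hr⟩
    have h5 : b ^ 2 / 4 - c = (r : K) * (r : K) := by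
      have := congrArg Units.val hr
      rw [Units.val_mk0, Units.val_mul] at this
      exact this
    rw [h5, map_mul] at hθ
    have h6 : (α + algebraMap K K' (b / 2) - algebraMap K K' (r : K)) *
        (α + algebraMap K K' (b / 2) + algebraMap K K' (r : K)) = 0 := by
      linear_combination hθ
    rcases mul_eq_zero.1 h6 with h7 | h7
    · exact hnot r (sub_eq_zero.1 h7)
    · exact hnot (-(r : K)) (by rw [map_neg]; exact eq_neg_of_add_eq_zero_left h7)

/-- the algebra `ℚ_p ⊗ K'` when all places over `p` split -/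
theorem alg_split (K : Type) [Field K] [NumberField K] (K' : Type) [Field K'] [NumberField K']
    [Algebra K K'] (hdeg : Module.finrank K K' = 2) (p : ℕ) [Fact p.Prime]
    (hs : ∀ v : HeightOneSpectrum (𝓞 K), ((p : ℕ) : 𝓞 K) ∈ v.asIdeal → Splits K K' v) :
    Nonempty ((ℚ_[p] ⊗[ℚ] K') ≃ₐ[ℚ_[p]] ((ℚ_[p] ⊗[ℚ] K) × (ℚ_[p] ⊗[ℚ] K))) := by
  obtain ⟨x, θ, hθ, hns⟩ := exists_theta K K' hdeg
  obtain ⟨ρ, hρ⟩ := N4.exists_sqrt p x fun v hv => N4.LSq_of_splits K' hdeg x θ hθ v (hs v hv)
  exact N4.iso_prod (K := K) (F := ℚ_[p]) (K' := K') hdeg x θ hθ hns ρ hρ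

section Split

variable (K : Type) [Field K] [NumberField K] (K' : Type) [Field K'] [NumberField K']
  [Algebra K K'] (hdeg : Module.finrank K K' = 2) {T : Finset ℕ} (D : LocData T)
  (hs : ∀ v : HeightOneSpectrum (𝓞 K), ¬ Away K T v → Splits K K' v)

include hdeg hs

theorem sg_split : D.sg K' = 1 := by
  classical
  unfold LocData.sg
  refine Finset.prod_eq_one fun p hp => ?_
  split_ifs with h
  · have := Fact.mk h
    obtain ⟨e⟩ := alg_split K K' hdeg p fun v hv => hs v fun h' => h' p hp hv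
    rw [D.sgn_iso p _ _ ⟨e⟩, D.sgn_prod]
    rcases D.sgn_sq p (ℚ_[p] ⊗[ℚ] K) with h1 | h1 <;> rw [h1] <;> norm_num
  · rfl

theorem cd_split : D.cd K' = D.cd K ^ 2 := by
  classical
  unfold LocData.cd
  rw [← Finset.prod_pow]
  refine Finset.prod_congr rfl fun p hp => ?_
  split_ifs with h
  · have := Fact.mk h
    obtain ⟨e⟩ := alg_split K K' hdeg p fun v hv => hs v fun h' => h' p hp hv
    rw [D.cond_iso p _ _ ⟨e⟩, D.cond_prod, pow_two]
  · rw [one_pow]

theorem pl_split (s : ℂ) : D.pl K' s = D.pl K s ^ 2 := by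
  classical
  unfold LocData.pl
  rw [← Finset.prod_pow]
  refine Finset.prod_congr rfl fun p hp => ?_
  split_ifs with h
  · have := Fact.mk h
    obtain ⟨e⟩ := alg_split K K' hdeg p fun v hv => hs v fun h' => h' p hp hv
    rw [D.pol_iso p _ _ ⟨e⟩, D.pol_prod, Polynomial.eval_mul, pow_two]
  · rw [one_pow]

end Split

theorem cd_pos {T : Finset ℕ} (D : LocData T) (F : Type) [Field F] [NumberField F] :
    0 < D.cd F := by
  classical
  unfold LocData.cd
  refine Finset.prod_pos fun p _ => ?_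
  split_ifs with h
  · have := Fact.mk h
    exact D.cond_pos p _
  · exact one_pos

private theorem finEuler_eq (L : List (ℂ × ℕ)) (s : ℂ) : finEuler L s = (plL L s)⁻¹ := by
  unfold finEuler plL
  induction L with
  | nil => simp
  | cons x L ih => rw [List.map_cons, List.map_cons, List.prod_cons, List.prod_cons, ih, mul_inv]

private theorem nice_of_hw (K : Type) [Field K] [NumberField K] {T : Finset ℕ} (D : LocData T)
    (a : ℕ → ℝ) {L : List (ℂ × ℕ)} (hL : ∀ s : ℂ, D.pl K s = plL L s)
    (K' : Type) [Field K'] [NumberField K'] [Algebra K K'] (hdeg : Module.finrank K K' = 2)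
    (hc : IsTotallyComplex K') (hs : ∀ v : HeightOneSpectrum (𝓞 K), ¬ Away K T v → Splits K K' v)
    (h : D.HW a K') : Nice K K' a T (D.cd K ^ 2) L := by
  obtain ⟨Lam, h1, h2, h3, h4⟩ := h
  have hw : D.w K' = (-1) ^ Module.finrank ℚ K := by
    unfold LocData.w
    rw [sg_split K K' hdeg D hs, Int.cast_one, mul_one]
    congr 1
    have e1 := InfinitePlace.card_add_two_mul_card_eq_rank K'
    have e2 : InfinitePlace.nrRealPlaces K' = 0 := IsTotallyComplex.nrRealPlaces_eq_zero K'
    have e3 : Module.finrank ℚ K * Module.finrank K K' = Module.finrank ℚ K' :=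
      Module.finrank_mul_finrank ℚ K K'
    rw [e2] at e1 ⊢
    rw [hdeg] at e3
    omega
  refine ⟨Lam, h1, h2, fun s => ?_, fun s hs' => ?_⟩
  · have e := h3 (2 - s)
    rw [show 2 - (2 - s) = s by ring, hw] at e
    exact e
  · rw [h4 s hs']
    unfold LocData.Lam LocData.A
    rw [cd_split K K' hdeg D hs, pl_split K K' hdeg D hs, hL s, finEuler_eq,
      mul_comm ((NumberField.discr K' : ℝ) ^ 2) (D.cd K ^ 2), inv_pow,
      div_eq_inv_mul (LT K' a T s)]

theorem right_half (K : Type) [Field K] [NumberField K] (T : Finset ℕ) (hTp : ∀ p ∈ T, p.Prime)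
    (hT : ∀ p : ℕ, p.Prime → p < 101 → p ∈ T) (D : LocData T) (a : ℕ → ℝ)
    (ha : ∀ q : ℕ, |a q| ≤ 2 * Real.sqrt q)
    (H : ∀ (K' : Type) [Field K'] [NumberField K'] [Algebra K K'], Module.finrank K K' = 2 →
      D.HW a K') :
    ∃ R : ℂ → ℂ, DifferentiableOn ℂ R {s : ℂ | 1 < s.re} ∧
      ∀ s : ℂ, 3 / 2 < s.re → R s = D.Lam a K s := by
  obtain ⟨L, hL, hL'⟩ := pl_list D K
  have hcd := cd_pos D K
  obtain ⟨F, hF, hF'⟩ := main_general K ha hT hTp (Q := D.cd K ^ 2) (by positivity) L
    (fun x hx => by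
      obtain ⟨h1, _, h2⟩ := hL x hx
      refine ⟨h1.two_le, h2.trans ?_⟩
      have h3 : (1 : ℝ) ≤ x.2 := by exact_mod_cast h1.one_le
      rw [Real.sqrt_le_left (by linarith)]
      nlinarith)
    (fun K' _ _ _ hdeg hc hs => nice_of_hw K D a hL' K' hdeg hc hs (H K' hdeg))
  have hA : 0 < D.A K := by
    unfold LocData.A
    have h1 : (NumberField.discr K : ℝ) ≠ 0 := by exact_mod_cast NumberField.discr_ne_zero K
    positivity
  refine ⟨fun s => ((D.A K : ℝ) : ℂ) ^ (s / 2) * gam1 s ^ Module.finrank ℚ K * F s, ?_, ?_⟩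
  · intro s hs
    have hs' : 1 < s.re := hs
    refine DifferentiableWithinAt.mul (DifferentiableAt.differentiableWithinAt ?_) (hF s hs)
    refine DifferentiableAt.mul ?_ (DifferentiableAt.pow ?_ _)
    · exact (differentiableAt_id.div_const 2).const_cpow
        (Or.inl (by exact_mod_cast hA.ne'))
    · have h0 : ((2 : ℂ) * Real.pi) ≠ 0 := by
        exact_mod_cast (by positivity : (2 * Real.pi : ℝ) ≠ 0)
      unfold gam1
      refine DifferentiableAt.mul (differentiableAt_id.neg.const_cpow (Or.inl h0)) ?_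
      refine Complex.differentiableAt_Gamma _ fun m hm => ?_
      have h1 := congrArg Complex.re hm
      rw [Complex.neg_re, Complex.natCast_re] at h1
      have h3 : (0 : ℝ) ≤ m := Nat.cast_nonneg m
      linarith
  · intro s hs
    show _ * _ * F s = _
    rw [hF' s hs, finEuler_eq, ← hL' s]
    unfold LocData.Lam
    rw [div_eq_inv_mul (LT K a T s)]

end Pool.Agent.QD.In
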