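import Pool.Agent.QD.In.CongL

/-!
# QD-In-Lm: the completed L-function of `K(√x)`

PLAN.  `L = (qf h).L`; `H L (qf h).deg : D.HW a L` (KDefs).  `D.w L = wx D x`, `D.A L = dd x^2 * cdx D x`
(`|disc|^2 = disc^2`, `sq_abs`), `finrank ℚ L = 2 * finrank ℚ K` (`Module.finrank_mul_finrank`),
`LT L a T s = ∏' ...` is `LT_quad'` (N4Main), `D.pl L = plx D x`; all by `dif_neg h`.
-/

namespace Pool.Agent.QD.In

open NumberField IsDedekindDomain Pool.Agent.HWR

variable {K : Type} [Field K] [NumberField K] {T : Finset ℕ} (D : LocData T)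

theorem exists_Lm (hT : ∀ p : ℕ, p.Prime → p < 101 → p ∈ T) (a : ℕ → ℝ)
    (ha : ∀ q : ℕ, |a q| ≤ 2 * Real.sqrt q)
    (H : ∀ (K' : Type) [Field K'] [NumberField K'] [Algebra K K'], Module.finrank K K' = 2 →
      D.HW a K') (x : Kˣ) (hx : ¬ IsSquare x) : ∃ Λ, IsLm D a x Λ := by
  obtain ⟨Λ, h1, h2, h3, h4⟩ := H (qf hx).L (qf hx).deg
  have hw : D.w (qf hx).L = wx D x := by
    unfold LocData.w wx nr nc sgx
    simp only [dif_neg hx]
  have hA : D.A (qf hx).L = dd x ^ 2 * cdx D x := by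
    unfold LocData.A dd cdx
    simp only [dif_neg hx, sq_abs]
  have hf : Module.finrank ℚ (qf hx).L = 2 * Module.finrank ℚ K := by
    rw [← Module.finrank_mul_finrank ℚ K (qf hx).L, (qf hx).deg, mul_comm]
  have hpl : ∀ s : ℂ, D.pl (qf hx).L s = plx D x s := by
    intro s
    unfold plx
    rw [dif_neg hx]
  have htt : ∀ v : HeightOneSpectrum (𝓞 K), ty K (qf hx).L v = tt x v := by
    intro v
    unfold tt
    rw [dif_neg hx]
  refine ⟨Λ, h1, h2, ?_, ?_⟩
  · intro s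
    rw [← hw]
    exact h3 s
  · intro s hs
    rw [h4 s hs, LocData.Lam, hA, hf, hpl, LT_quad' (qf hx).L (qf hx).deg ha T hT hs]
    simp only [htt]

theorem isLm (hT : ∀ p : ℕ, p.Prime → p < 101 → p ∈ T) (a : ℕ → ℝ)
    (ha : ∀ q : ℕ, |a q| ≤ 2 * Real.sqrt q)
    (H : ∀ (K' : Type) [Field K'] [NumberField K'] [Algebra K K'], Module.finrank K K' = 2 →
      D.HW a K') (x : Kˣ) (hx : ¬ IsSquare x) : IsLm D a x (Lm D a x) :=
  Classical.epsilon_spec (exists_Lm D hT a ha H x hx)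

end Pool.Agent.QD.In
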