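import Pool.Agent.QD.In.CongD
import Pool.Agent.QD.In.CongL
import Pool.Agent.QD.In.LocF
import Pool.Agent.QD.In.Lm

/-!
# QD-In-EllX: the functions `ellX`, `GGX` and their functional equation

`ellX S D a x s = Lm * A^(-s/2) * gam1^(-2n) * plx * ∏_{v ∈ S, Away} (FF)⁻¹`, `A = dd^2 cdx`,
`GGX S D a x s = wx * (D0^2 cdx)^(1-s) * (gam1(2-s)/gam1(s))^(2n) * plx(s)/plx(2-s) * ∏ FF(2-s)/FF(s)`
(In/Def.lean).

PLAN.  `plx` is `D.pl` of a number field or the square of one (unfold, `by_cases`): `pl_ne'`,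
`pl_diff`, `pl_ord` (In/Pl.lean, In/LocF.lean).  `ellX_diff`, `ellX_ord`: `IsLm` (first two fields),
`finOrd_cpow`, `invgam1_diff`, `finOrd_invgam1` (In/Gam.lean), `ffi_diff`, `ffi_ord` (In/LocF.lean),
finite products by `Finset` induction.
`ef` is `SysD.Efac`.  `FF_ef`: with `a (q²) = a(q)² - 2 q`, `X = q^(-s)`, `q^(1-2s) = q X²`,
`1 - a(q²) X² + q² X⁴ = (1 - a X + q X²)(1 + a X + q X²)`.
`ellX_eq`: fourth field of `IsLm`; all prefactors cancel (`gam1_ne`, `plx ≠ 0`, `A > 0`);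
`∏' v (Away) FF = ∏_{v ∈ S, Away} FF * ∏' v : Io S, FF` (`tprod_split` (In/Prod.lean) for
the index type `{v // Away K T v}` and the finite set of its elements in `S`, with `sum_FF`, and an
equivalence of `{v : {v // Away K T v} // v.1 ∉ S}` with `Io S`: outside `S` a place is away from `T` by
`hST`); cancel `FF` at `S` (`ff_ne`); outside `S` `tt = uK` (`tt_uK`), `FF_ef`, `Multipliable.tprod_mul`
(`mult_efac` in HWR/HolProd.lean is for `u = 1`; for `u = uK`: `‖ef - 1‖` summable, as in `sum_FF`;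
or: `ef a q u = FF a q u / efac a q` and quotients of multipliable families).
`ellX_fe`: third field of `IsLm`, `dd = D0 * oddN` (`dd_eq`), `Complex.cpow_add`, `Complex.mul_cpow_ofReal_nonneg`;
`gam1 (2-s) ≠ 0`, `plx (2-s) ≠ 0`, `FF (2-s) ≠ 0` for `Re s < 1/2`.
-/

set_option linter.unusedSectionVars false

namespace Pool.Agent.QD.In

open NumberField IsDedekindDomain Pool.Agent.HWR

/-- Euler factor of degree two twisted by `u` (`SysD.Efac`) -/
noncomputable def ef (a : ℕ → ℝ) (q : ℕ) (u : ℂ) (s : ℂ) : ℂ :=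
  (1 - (a q : ℂ) * u * (q : ℂ) ^ (-s) + u ^ 2 * (q : ℂ) ^ (1 - 2 * s))⁻¹

theorem FF_ef {a : ℕ → ℝ} {q : ℕ} (hq : q ≠ 0) (h2 : a (q ^ 2) = a q ^ 2 - 2 * q) {t : ℤ}
    (ht : t = 1 ∨ t = -1 ∨ t = 0) (s : ℂ) : FF a q t s = ef a q 1 s * ef a q t s := by
  have hef1 : ef a q 1 s = efac a q s := by
    unfold ef efac
    rw [mul_one, one_pow, one_mul]
  rcases ht with rfl | rfl | rfl
  · unfold FF F1
    rw [Int.cast_one, if_pos rfl, hef1, pow_two]
  · have h0 : (q : ℂ) ≠ 0 := by exact_mod_cast hq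
    have hne : ((-1 : ℤ) : ℂ) ≠ 1 := by norm_num
    have hm : ((-1 : ℤ) : ℂ) = -1 := by norm_num
    unfold FF Fm
    rw [if_neg hne, if_pos hm, hef1, hm]
    unfold ef efac
    have e1 : ((q ^ 2 : ℕ) : ℂ) ^ (-s) = ((q : ℂ) ^ (-s)) ^ 2 := by
      rw [← Complex.cpow_nat_mul, Nat.cast_pow, ← Complex.natCast_cpow_natCast_mul]
    have e2 : ((q ^ 2 : ℕ) : ℂ) ^ (1 - 2 * s) = ((q : ℂ) ^ (1 - 2 * s)) ^ 2 := by
      rw [← Complex.cpow_nat_mul, Nat.cast_pow, ← Complex.natCast_cpow_natCast_mul]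
    have e3 : (q : ℂ) ^ (1 - 2 * s) = q * ((q : ℂ) ^ (-s)) ^ 2 := by
      rw [← Complex.cpow_nat_mul, sub_eq_add_neg, Complex.cpow_add _ _ h0, Complex.cpow_one]
      congr 2
      push_cast
      ring
    rw [e1, e2, e3, ← mul_inv, h2]
    congr 1
    push_cast
    ring
  · have h0 : ((0 : ℤ) : ℂ) ≠ 1 := by norm_num
    have h1 : ((0 : ℤ) : ℂ) ≠ -1 := by norm_num
    unfold FF
    rw [if_neg h0, if_neg h1, hef1]
    unfold ef
    simp

private theorem gam1_ne' {s : ℂ} (hs : 0 < s.re) : gam1 s ≠ 0 := by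
  unfold gam1
  refine mul_ne_zero ?_ (Complex.Gamma_ne_zero_of_re_pos hs)
  rw [Complex.cpow_ne_zero_iff]
  left
  exact_mod_cast (by positivity : (2 * Real.pi : ℝ) ≠ 0)

variable {K : Type} [Field K] [NumberField K] {T : Finset ℕ} (D : LocData T)

theorem plx_ne (x : Kˣ) {s : ℂ} (hs : 1 / 2 < s.re) : plx D x s ≠ 0 := by
  unfold plx
  split_ifs with h
  · exact pow_ne_zero 2 (pl_ne' D K hs)
  · exact pl_ne' D _ hs

private theorem plx_diff (x : Kˣ) : Differentiable ℂ (plx D x) := by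
  by_cases h : IsSquare x
  · have : plx D x = fun s => D.pl K s ^ 2 := by
      funext s
      unfold plx
      rw [dif_pos h]
    rw [this]
    exact (pl_diff D K).pow 2
  · have : plx D x = D.pl (qf h).L := by
      funext s
      unfold plx
      rw [dif_neg h]
    rw [this]
    exact pl_diff D _

private theorem plx_ord (x : Kˣ) : FinOrd (plx D x) := by
  by_cases h : IsSquare x
  · have : plx D x = fun s => D.pl K s ^ 2 := by
      funext s
      unfold plx
      rw [dif_pos h]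
    rw [this]
    exact finOrd_pow (pl_ord D K) 2
  · have : plx D x = D.pl (qf h).L := by
      funext s
      unfold plx
      rw [dif_neg h]
    rw [this]
    exact pl_ord D _

variable (S : Finset (HeightOneSpectrum (𝓞 K)))
  (h2 : ∀ v : HeightOneSpectrum (𝓞 K), (2 : 𝓞 K) ∈ v.asIdeal → v ∈ S)
  (hST : ∀ v, ¬ Away K T v → v ∈ S)
  (hT : ∀ p : ℕ, p.Prime → p < 101 → p ∈ T) {a : ℕ → ℝ}
  (ha : ∀ q : ℕ, |a q| ≤ 2 * Real.sqrt q) (ha2 : SqRel K T a) (x : Kˣ)
  (hL : IsLm D a x (Lm D a x))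

private theorem AA_pos (x : Kˣ) : 0 < dd x ^ 2 * cdx D x :=
  mul_pos (pow_pos (dd_pos x) 2) (cdx_pos D x)

private theorem prodinv_diff (s : Finset (HeightOneSpectrum (𝓞 K))) (a : ℕ → ℝ) (x : Kˣ) :
    Differentiable ℂ fun z => ∏ v ∈ s, (FF a (nrm v) (tt x v) z)⁻¹ := by
  classical
  induction s using Finset.induction_on with
  | empty => simp only [Finset.prod_empty]; exact differentiable_const _
  | insert v s hv ih =>
    simp only [Finset.prod_insert hv]
    exact (ffi_diff a (nrm_ne_zero v) _).mul ih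

private theorem prodinv_ord (s : Finset (HeightOneSpectrum (𝓞 K))) (a : ℕ → ℝ) (x : Kˣ) :
    FinOrd fun z => ∏ v ∈ s, (FF a (nrm v) (tt x v) z)⁻¹ := by
  classical
  induction s using Finset.induction_on with
  | empty => simp only [Finset.prod_empty]; exact finOrd_const _
  | insert v s hv ih =>
    simp only [Finset.prod_insert hv]
    exact finOrd_mul (ffi_ord a (nrm_ne_zero v) _) ih

include hL in
theorem ellX_diff : Differentiable ℂ (ellX S D a x) := by
  have hA := AA_pos D x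
  have h1 : Differentiable ℂ fun s : ℂ => ((dd x ^ 2 * cdx D x : ℝ) : ℂ) ^ (-s / 2) := by
    have hA' : ((dd x ^ 2 * cdx D x : ℝ) : ℂ) ≠ 0 := by exact_mod_cast hA.ne'
    exact (differentiable_id.neg.div_const 2).const_cpow (Or.inl hA')
  have h3 := (((hL.1.mul h1).mul (invgam1_diff.pow (2 * Module.finrank ℚ K))).mul
    (plx_diff D x)).mul (prodinv_diff (open Classical in S.filter fun v => Away K T v) a x)
  exact h3

include hL in
theorem ellX_ord : FinOrd (ellX S D a x) := by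
  have hA := AA_pos D x
  have h1 : FinOrd fun s : ℂ => ((dd x ^ 2 * cdx D x : ℝ) : ℂ) ^ (-s / 2) := by
    refine Z.finOrd_congr (finOrd_cpow hA (-1 / 2) 0) fun s => ?_
    congr 1
    ring
  have h3 := finOrd_mul (finOrd_mul (finOrd_mul (finOrd_mul hL.2.1 h1)
    (finOrd_pow finOrd_invgam1 (2 * Module.finrank ℚ K))) (plx_ord D x))
    (prodinv_ord (open Classical in S.filter fun v => Away K T v) a x)
  exact h3

private theorem ef_sub_one {a : ℕ → ℝ} (ha : ∀ q : ℕ, |a q| ≤ 2 * Real.sqrt q) {q : ℕ}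
    (hq : 101 ≤ q) {s : ℂ} (hs : 1 ≤ s.re) {t : ℤ} (ht : t = 1 ∨ t = -1 ∨ t = 0) :
    ‖ef a q t s - 1‖ ≤ 3 * (q : ℝ) ^ (1 / 2 - s.re) := by
  rcases ht with rfl | rfl | rfl
  · have h := efac_sub_one ha hq hs
    have e : ef a q ((1 : ℤ) : ℂ) s = efac a q s := by
      unfold ef efac
      simp
    rw [e]
    exact h
  · have h := efac_sub_one (a := fun q => -a q) (fun q => by rw [abs_neg]; exact ha q) hq hs
    have e : ef a q ((-1 : ℤ) : ℂ) s = efac (fun q => -a q) q s := by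
      unfold ef efac
      simp
    rw [e]
    exact h
  · have e : ef a q ((0 : ℤ) : ℂ) s = 1 := by
      unfold ef
      simp
    rw [e, sub_self, norm_zero]
    positivity

include hST in
private theorem away_of (v : Io S) : Away K T v.1 := by
  by_contra h
  exact v.2 (hST v.1 h)

include hST hT ha in
private theorem ef_summable (t : HeightOneSpectrum (𝓞 K) → ℤ)
    (ht : ∀ v, t v = 1 ∨ t v = -1 ∨ t v = 0) {s : ℂ} (hs : 3 / 2 < s.re) :
    Summable fun v : Io S => ‖ef a (nrm v.1) (t v.1) s - 1‖ := by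
  have h1 : Summable fun v : Io S => 3 * (nrm v.1 : ℝ) ^ (1 / 2 - s.re) := by
    have h2 := ((summable_nrm K (x := s.re - 1 / 2) (by linarith)).comp_injective
      (Subtype.val_injective (p := fun w => w ∉ S))).mul_left 3
    refine h2.congr fun v => ?_
    have h4 : (1 / 2 - s.re : ℝ) = -(s.re - 1 / 2) := by ring
    rw [h4]
    rfl
  refine Summable.of_nonneg_of_le (fun _ => norm_nonneg _) (fun v => ?_) h1
  exact ef_sub_one ha (nrm_ge K T hT v.1 (away_of S hST v)) (by linarith) (ht v.1)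

private theorem mult_of_summable {ι : Type} {f : ι → ℂ} (hf : Summable fun v => ‖f v - 1‖) :
    Multipliable f := by
  refine (multipliable_one_add_of_summable hf).congr fun v => ?_
  simp

include hST in
open Classical in
/-- split off the places in `S` -/
private theorem split_S (f : HeightOneSpectrum (𝓞 K) → ℂ)
    (hf : Summable fun v : {v : HeightOneSpectrum (𝓞 K) // Away K T v} => ‖f v.1 - 1‖) :
    ∏' v : {v : HeightOneSpectrum (𝓞 K) // Away K T v}, f v.1 =
      (∏ v ∈ S with Away K T v, f v) * ∏' v : Io S, f v.1 := by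
  have h1 := tprod_split (S.subtype fun v => Away K T v) (fun v => f v.1) hf
  rw [h1]
  congr 1
  · rw [← Finset.prod_subtype_eq_prod_filter]
  · have hmem : ∀ v : Io S, (⟨v.1, away_of S hST v⟩ :
        {v : HeightOneSpectrum (𝓞 K) // Away K T v}) ∉ S.subtype fun v => Away K T v := by
      intro v h
      rw [Finset.mem_subtype] at h
      exact v.2 h
    let e : {v : {v : HeightOneSpectrum (𝓞 K) // Away K T v} //
        v ∉ S.subtype fun v => Away K T v} ≃ Io S :=
      { toFun := fun v => ⟨v.1.1, fun h => v.2 (Finset.mem_subtype.2 h)⟩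
        invFun := fun v => ⟨⟨v.1, away_of S hST v⟩, hmem v⟩
        left_inv := fun v => Subtype.ext (Subtype.ext rfl)
        right_inv := fun v => Subtype.ext rfl }
    exact Equiv.tprod_eq e (fun v : Io S => f v.1)

include h2 hST hT ha ha2 in
/-- Euler product outside `S` -/
theorem tprod_FF {s : ℂ} (hs : 3 / 2 < s.re) :
    ∏' v : {v : HeightOneSpectrum (𝓞 K) // Away K T v}, FF a (nrm v.1) (tt x v.1) s =
      (open Classical in ∏ v ∈ S with Away K T v, FF a (nrm v) (tt x v) s) *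
        ((∏' v : Io S, ef a (nrm v.1) 1 s) * ∏' v : Io S, ef a (nrm v.1) (uK v.1 x) s) := by
  classical
  rw [split_S S hST (fun v => FF a (nrm v) (tt x v) s) (sum_FF ha T hT (tt x) (tt_cases x) hs)]
  congr 1
  have htu : ∀ v : Io S, tt x v.1 = uK v.1 x := fun v => tt_uK x v.1 fun h => v.2 (h2 v.1 h)
  have m1 : Multipliable fun v : Io S => ef a (nrm v.1) 1 s := by
    have := mult_of_summable (ef_summable S hST hT ha (fun _ => 1) (fun _ => Or.inl rfl) hs)
    simpa using this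
  have m2 : Multipliable fun v : Io S => ef a (nrm v.1) (uK v.1 x) s := by
    have := mult_of_summable (ef_summable S hST hT ha (tt x) (tt_cases x) hs)
    refine this.congr fun v => ?_
    rw [htu v]
  rw [← m1.tprod_mul m2]
  refine tprod_congr fun v => ?_
  have h3 := FF_ef (nrm_ne_zero v.1) (ha2 v.1 (away_of S hST v)) (tt_cases x v.1) s
  rw [h3, htu v]

include h2 hST hT ha ha2 hL in
theorem ellX_eq {s : ℂ} (hs : 3 / 2 < s.re) : ellX S D a x s =
    (∏' v : Io S, ef a (nrm v.1) 1 s) * ∏' v : Io S, ef a (nrm v.1) (uK v.1 x) s := by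
  classical
  have hA := AA_pos D x
  have hA' : ((dd x ^ 2 * cdx D x : ℝ) : ℂ) ≠ 0 := by exact_mod_cast hA.ne'
  have hg : gam1 s ≠ 0 := gam1_ne' (by linarith)
  have hp : plx D x s ≠ 0 := plx_ne D x (by linarith)
  have hF : (∏ v ∈ S with Away K T v, FF a (nrm v) (tt x v) s) ≠ 0 := by
    refine Finset.prod_ne_zero_iff.2 fun v hv => ?_
    exact ff_ne ha (nrm_ge K T hT v (Finset.mem_filter.1 hv).2) _ (by linarith)
  have hc : ((dd x ^ 2 * cdx D x : ℝ) : ℂ) ^ (s / 2) *
      ((dd x ^ 2 * cdx D x : ℝ) : ℂ) ^ (-s / 2) = 1 := by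
    rw [← Complex.cpow_add _ _ hA']
    have : s / 2 + -s / 2 = 0 := by ring
    rw [this, Complex.cpow_zero]
  unfold ellX
  rw [hL.2.2.2 s hs, tprod_FF S h2 hST hT ha ha2 x hs, Finset.prod_inv_distrib]
  set P := (∏' v : Io S, ef a (nrm v.1) 1 s) * ∏' v : Io S, ef a (nrm v.1) (uK v.1 x) s
  set F := ∏ v ∈ S with Away K T v, FF a (nrm v) (tt x v) s
  set c1 := ((dd x ^ 2 * cdx D x : ℝ) : ℂ) ^ (s / 2)
  set c2 := ((dd x ^ 2 * cdx D x : ℝ) : ℂ) ^ (-s / 2)
  rw [inv_pow]
  have hgp := pow_ne_zero (2 * Module.finrank ℚ K) hg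
  generalize gam1 s ^ (2 * Module.finrank ℚ K) = g at hgp
  generalize plx D x s = p at hp
  calc c1 * g * (F * P / p) * c2 * g⁻¹ * p * F⁻¹
      = (c1 * c2) * (g * g⁻¹) * (p * p⁻¹) * (F * F⁻¹) * P := by
        rw [div_eq_mul_inv]
        ring
    _ = P := by
        rw [hc, mul_inv_cancel₀ hgp, mul_inv_cancel₀ hp, mul_inv_cancel₀ hF]
        ring

include hT ha hL in
theorem ellX_fe {s : ℂ} (hs : s.re < 1 / 2) : ellX S D a x s =
    (oddN S x : ℂ) ^ (2 * (1 - s)) * GGX S D a x s * ellX S D a x (2 - s) := by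
  classical
  have hre : (2 - s).re = 2 - s.re := by
    rw [Complex.sub_re]
    rfl
  have hA := AA_pos D x
  have hA' : ((dd x ^ 2 * cdx D x : ℝ) : ℂ) ≠ 0 := by exact_mod_cast hA.ne'
  have hg : gam1 (2 - s) ≠ 0 := gam1_ne' (by linarith)
  have hp : plx D x (2 - s) ≠ 0 := plx_ne D x (by linarith)
  have hF : (∏ v ∈ S with Away K T v, FF a (nrm v) (tt x v) (2 - s)) ≠ 0 := by
    refine Finset.prod_ne_zero_iff.2 fun v hv => ?_
    exact ff_ne ha (nrm_ge K T hT v (Finset.mem_filter.1 hv).2) _ (by linarith)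
  have hN : 0 < (oddN S x : ℝ) := by exact_mod_cast oddN_pos S x
  have hD0 : 0 < D0 S x ^ 2 * cdx D x := mul_pos (pow_pos (D0_pos S x) 2) (cdx_pos D x)
  have hc : ((dd x ^ 2 * cdx D x : ℝ) : ℂ) ^ (-s / 2) =
      (oddN S x : ℂ) ^ (2 * (1 - s)) * ((D0 S x ^ 2 * cdx D x : ℝ) : ℂ) ^ (1 - s) *
        ((dd x ^ 2 * cdx D x : ℝ) : ℂ) ^ (-(2 - s) / 2) := by
    have e1 : (oddN S x : ℂ) ^ (2 * (1 - s)) = (((oddN S x : ℝ) ^ 2 : ℝ) : ℂ) ^ (1 - s) := by
      have h3 : (2 : ℂ) * (1 - s) = ((2 : ℕ) : ℂ) * (1 - s) := by norm_num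
      rw [h3, Complex.cpow_nat_mul, pow_two, pow_two, Complex.ofReal_mul,
        Complex.mul_cpow_ofReal_nonneg hN.le hN.le]
      push_cast
      rfl
    have e2 : dd x ^ 2 * cdx D x = (oddN S x : ℝ) ^ 2 * (D0 S x ^ 2 * cdx D x) := by
      rw [dd_eq S x]
      ring
    have e3 : ((dd x ^ 2 * cdx D x : ℝ) : ℂ) ^ (1 - s) =
        (((oddN S x : ℝ) ^ 2 : ℝ) : ℂ) ^ (1 - s) *
          ((D0 S x ^ 2 * cdx D x : ℝ) : ℂ) ^ (1 - s) := by
      rw [e2, Complex.ofReal_mul, Complex.mul_cpow_ofReal_nonneg (by positivity) hD0.le]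
    rw [e1, ← e3, ← Complex.cpow_add _ _ hA']
    congr 1
    ring
  unfold ellX GGX
  rw [hL.2.2.1 s, hc, Finset.prod_mul_distrib, Finset.prod_inv_distrib, Finset.prod_inv_distrib]
  rw [inv_pow, inv_pow, mul_pow, inv_pow]
  have hgp := pow_ne_zero (2 * Module.finrank ℚ K) hg
  generalize gam1 (2 - s) ^ (2 * Module.finrank ℚ K) = g at hgp
  generalize (gam1 s ^ (2 * Module.finrank ℚ K))⁻¹ = g'
  generalize plx D x (2 - s) = p at hp
  generalize (∏ v ∈ S with Away K T v, FF a (nrm v) (tt x v) (2 - s)) = F at hF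
  generalize (∏ v ∈ S with Away K T v, FF a (nrm v) (tt x v) s)⁻¹ = F'
  generalize Lm D a x (2 - s) = l
  generalize (oddN S x : ℂ) ^ (2 * (1 - s)) = o
  generalize ((D0 S x ^ 2 * cdx D x : ℝ) : ℂ) ^ (1 - s) = c1
  generalize ((dd x ^ 2 * cdx D x : ℝ) : ℂ) ^ (-(2 - s) / 2) = c2
  generalize plx D x s = p'
  symm
  calc o * (wx D x * c1 * (g * g') * (p' * p⁻¹) * (F * F')) * (l * c2 * g⁻¹ * p * F⁻¹)
      = wx D x * l * (o * c1 * c2) * g' * p' * F' * (g * g⁻¹) * (p * p⁻¹) * (F * F⁻¹) := by ring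
    _ = wx D x * l * (o * c1 * c2) * g' * p' * F' := by
        rw [mul_inv_cancel₀ hgp, mul_inv_cancel₀ hp, mul_inv_cancel₀ hF]
        ring

include hT hST in
/-- the L-function of `K` itself -/
theorem LT_split (ha : ∀ q : ℕ, |a q| ≤ 2 * Real.sqrt q) {s : ℂ} (hs : 3 / 2 < s.re) :
    LT K a T s = (∏' v : Io S, ef a (nrm v.1) 1 s) *
      (open Classical in ∏ v ∈ S with Away K T v, efac a (nrm v) s) := by
  classical
  have h0 : Summable fun v : {v : HeightOneSpectrum (𝓞 K) // Away K T v} =>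
      ‖efac a (nrm v.1) s - 1‖ := by
    have h1 : Summable fun v : {v : HeightOneSpectrum (𝓞 K) // Away K T v} =>
        3 * (nrm v.1 : ℝ) ^ (1 / 2 - s.re) := by
      have h2 := ((summable_nrm K (x := s.re - 1 / 2) (by linarith)).comp_injective
        (Subtype.val_injective (p := fun w => Away K T w))).mul_left 3
      refine h2.congr fun v => ?_
      have h4 : (1 / 2 - s.re : ℝ) = -(s.re - 1 / 2) := by ring
      rw [h4]
      rfl
    refine Summable.of_nonneg_of_le (fun _ => norm_nonneg _) (fun v => ?_) h1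
    exact efac_sub_one ha (nrm_ge K T hT v.1 v.2) (by linarith)
  unfold HWR.LT
  rw [split_S S hST (fun v => efac a (nrm v) s) h0, mul_comm]
  congr 1
  refine tprod_congr fun v => ?_
  unfold ef efac
  simp

end Pool.Agent.QD.In
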