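import Pool.Agent.QD.In.Gam

/-!
# QD-In-GamL: archimedean factors on vertical lines

PLAN.
`gam1_ratio_line`: `Re s = 1 - k/2`: `2 - s = conj s + k`, `Γ(conj s + k) = ∏_{j<k} (conj s + j) Γ(conj s)`
(if `s` is not a pole; if `Γ s = 0` in Lean the quotient is `0`), `|Γ(conj s)| = |Γ(s)|`
(`Complex.Gamma_conj`), and `|conj s + j| ≤ (1 + k/2 + j) (1 + |Im s|)`.
`gR_line`: `Re w = 1/2 - k`: `(1 - w)/2 = conj (w/2) + k`; `gC_line`: `1 - w = conj w + 2 k`.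
(`Complex.Gammaℝ_def`, `Complex.Gammaℂ_def`.)
`gR_diff`, `gC_diff`: `Complex.differentiable_Gammaℝ_inv`, `1/Γ` entire, and `Γ_ℝ(1-w)` is
holomorphic where `Re (1 - w) > 0`.
`gR_ne`, `gC_ne`: for `Re w < 1` and `w` not a real number the factors do not vanish.
-/

namespace Pool.Agent.QD.In

open Pool.Agent.HWR

/-- `Γ(z + k) = ∏_{j<k} (z + j) Γ(z)` -/
private lemma gl_shift {z : ℂ} (hz : ∀ m : ℕ, z ≠ -m) (k : ℕ) :
    Complex.Gamma (z + k) = (∏ j ∈ Finset.range k, (z + j)) * Complex.Gamma z := by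
  induction k with
  | zero => simp
  | succ k ih =>
    have h0 : z + k ≠ 0 := fun h => hz k (eq_neg_of_add_eq_zero_left h)
    rw [Nat.cast_succ, ← add_assoc, Complex.Gamma_add_one _ h0, ih, Finset.prod_range_succ]
    ring

private lemma gl_core (k : ℕ) (σ : ℝ) : ∃ C : ℝ, 0 ≤ C ∧ ∀ z : ℂ, z.re = σ →
    ‖Complex.Gamma ((starRingEnd ℂ) z + k) * (Complex.Gamma z)⁻¹‖ ≤ C * (1 + |z.im|) ^ k := by
  refine ⟨(|σ| + k + 1) ^ k, by positivity, fun z hz => ?_⟩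
  by_cases h0 : Complex.Gamma z = 0
  · rw [h0, inv_zero, mul_zero, norm_zero]
    positivity
  have hz' : ∀ m : ℕ, z ≠ -m := fun m hm => h0 ((Complex.Gamma_eq_zero_iff z).2 ⟨m, hm⟩)
  have h1 : (starRingEnd ℂ) z + k = (starRingEnd ℂ) (z + k) := by
    rw [map_add, Complex.conj_natCast]
  rw [h1, Complex.Gamma_conj, norm_mul, Complex.norm_conj, ← norm_mul, gl_shift hz', mul_assoc,
    mul_inv_cancel₀ h0, mul_one, norm_prod]
  have h2 : ∀ j ∈ Finset.range k, ‖z + (j : ℂ)‖ ≤ (|σ| + k + 1) * (1 + |z.im|) := by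
    intro j hj
    have h3 : ‖z + (j : ℂ)‖ ≤ ‖z‖ + ‖(j : ℂ)‖ := norm_add_le _ _
    have h4 : ‖z‖ ≤ |z.re| + |z.im| := Complex.norm_le_abs_re_add_abs_im z
    have h5 : ‖(j : ℂ)‖ = (j : ℝ) := Complex.norm_natCast j
    have h6 : (j : ℝ) ≤ k := by exact_mod_cast (Finset.mem_range.1 hj).le
    rw [hz] at h4
    nlinarith [abs_nonneg σ, abs_nonneg z.im, mul_nonneg (abs_nonneg σ) (abs_nonneg z.im),
      mul_nonneg (Nat.cast_nonneg (α := ℝ) k) (abs_nonneg z.im)]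
  calc ∏ j ∈ Finset.range k, ‖z + (j : ℂ)‖
      ≤ ∏ _j ∈ Finset.range k, ((|σ| + k + 1) * (1 + |z.im|)) :=
        Finset.prod_le_prod (fun _ _ => norm_nonneg _) h2
    _ = (|σ| + k + 1) ^ k * (1 + |z.im|) ^ k := by
        rw [Finset.prod_const, Finset.card_range, mul_pow]

/-- the same with exponential factors -/
private lemma gl_core2 (k : ℕ) (σ a : ℝ) (ha : 0 < a) (r t : ℝ) :
    ∃ C : ℝ, ∀ z z' u v : ℂ, z.re = σ → z' = (starRingEnd ℂ) z + k → u.re = r → v.re = t →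
    ‖((a : ℂ) ^ u * Complex.Gamma z') * ((a : ℂ) ^ v * Complex.Gamma z)⁻¹‖
      ≤ C * (1 + |z.im|) ^ k := by
  obtain ⟨C, hC0, hC⟩ := gl_core k σ
  refine ⟨a ^ r * (a ^ t)⁻¹ * C, fun z z' u v hz hz' hu hv => ?_⟩
  have h1 := hC z hz
  rw [← hz', norm_mul, norm_inv] at h1
  rw [norm_mul, norm_mul, norm_inv, norm_mul, Complex.norm_cpow_eq_rpow_re_of_pos ha,
    Complex.norm_cpow_eq_rpow_re_of_pos ha, hu, hv, mul_inv]
  have h2 : 0 ≤ a ^ r * (a ^ t)⁻¹ := by positivity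
  have h3 := mul_le_mul_of_nonneg_left h1 h2
  calc a ^ r * ‖Complex.Gamma z'‖ * ((a ^ t)⁻¹ * ‖Complex.Gamma z‖⁻¹)
      = a ^ r * (a ^ t)⁻¹ * (‖Complex.Gamma z'‖ * ‖Complex.Gamma z‖⁻¹) := by ring
    _ ≤ a ^ r * (a ^ t)⁻¹ * (C * (1 + |z.im|) ^ k) := h3
    _ = a ^ r * (a ^ t)⁻¹ * C * (1 + |z.im|) ^ k := by ring

private lemma gl_twopi : (2 * Real.pi : ℂ) = ((2 * Real.pi : ℝ) : ℂ) := by
  push_cast
  rfl

private lemma gl_GC_ne {s : ℂ} (hs : ∀ m : ℕ, s ≠ -m) : Complex.Gammaℂ s ≠ 0 := by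
  rw [Complex.Gammaℂ_def]
  refine mul_ne_zero (mul_ne_zero two_ne_zero ?_) (Complex.Gamma_ne_zero hs)
  rw [gl_twopi, Complex.cpow_def_of_ne_zero]
  · exact Complex.exp_ne_zero _
  · exact_mod_cast Real.two_pi_pos.ne'

private lemma gl_GC_ne_re {s : ℂ} (hs : 0 < s.re) : Complex.Gammaℂ s ≠ 0 := by
  refine gl_GC_ne fun m h => ?_
  rw [h, Complex.neg_re, Complex.natCast_re] at hs
  have : (0 : ℝ) ≤ m := Nat.cast_nonneg m
  linarith

theorem gam1_ratio_line (k : ℕ) : ∃ C : ℝ, ∀ s : ℂ, s.re = 1 - (k : ℝ) / 2 →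
    ‖gam1 (2 - s) * (gam1 s)⁻¹‖ ≤ C * (1 + |s.im|) ^ k := by
  obtain ⟨C, hC⟩ := gl_core2 k (1 - (k : ℝ) / 2) (2 * Real.pi) Real.two_pi_pos
    (-(2 - (1 - (k : ℝ) / 2))) (-(1 - (k : ℝ) / 2))
  refine ⟨C, fun s hs => ?_⟩
  unfold gam1
  rw [gl_twopi]
  refine hC s (2 - s) (-(2 - s)) (-s) hs ?_ ?_ ?_
  · apply Complex.ext
    · rw [Complex.sub_re, Complex.add_re, Complex.conj_re, Complex.natCast_re, hs]
      norm_num
      ring
    · rw [Complex.sub_im, Complex.add_im, Complex.conj_im, Complex.natCast_im]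
      norm_num
  · rw [Complex.neg_re, Complex.sub_re, hs]
    norm_num
  · rw [Complex.neg_re, hs]

theorem gR_line (k : ℕ) : ∃ C : ℝ, ∀ w : ℂ, w.re = 1 / 2 - (k : ℝ) →
    ‖gR w‖ ≤ C * (1 + |w.im|) ^ k := by
  obtain ⟨C, hC⟩ := gl_core2 k ((1 / 2 - (k : ℝ)) / 2) Real.pi Real.pi_pos
    (-(1 - (1 / 2 - (k : ℝ))) / 2) (-(1 / 2 - (k : ℝ)) / 2)
  refine ⟨|C|, fun w hw => ?_⟩
  unfold gR
  rw [Complex.Gammaℝ_def, Complex.Gammaℝ_def]
  have h := hC (w / 2) ((1 - w) / 2) (-(1 - w) / 2) (-w / 2)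
    (by rw [Complex.div_ofNat_re, hw])
    (by
      apply Complex.ext
      · rw [Complex.div_ofNat_re, Complex.sub_re, Complex.add_re, Complex.conj_re,
          Complex.natCast_re, Complex.div_ofNat_re, hw, Complex.one_re]
        ring
      · rw [Complex.div_ofNat_im, Complex.sub_im, Complex.add_im, Complex.conj_im,
          Complex.natCast_im, Complex.div_ofNat_im, Complex.one_im]
        ring)
    (by rw [Complex.div_ofNat_re, Complex.neg_re, Complex.sub_re, hw, Complex.one_re])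
    (by rw [Complex.div_ofNat_re, Complex.neg_re, hw])
  refine h.trans ?_
  rw [Complex.div_ofNat_im]
  have h1 : |w.im / 2| ≤ |w.im| := by
    rw [abs_div, abs_two]
    have := abs_nonneg w.im
    linarith
  have h2 : (1 + |w.im / 2|) ^ k ≤ (1 + |w.im|) ^ k :=
    pow_le_pow_left₀ (by positivity) (by linarith) k
  calc C * (1 + |w.im / 2|) ^ k ≤ |C| * (1 + |w.im / 2|) ^ k :=
        mul_le_mul_of_nonneg_right (le_abs_self C) (by positivity)
    _ ≤ |C| * (1 + |w.im|) ^ k := mul_le_mul_of_nonneg_left h2 (abs_nonneg C)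

theorem gC_line (k : ℕ) : ∃ C : ℝ, ∀ w : ℂ, w.re = 1 / 2 - (k : ℝ) →
    ‖gC w‖ ≤ C * (1 + |w.im|) ^ (2 * k) := by
  obtain ⟨C, hC⟩ := gl_core2 (2 * k) (1 / 2 - (k : ℝ)) (2 * Real.pi) Real.two_pi_pos
    (-(1 - (1 / 2 - (k : ℝ)))) (-(1 / 2 - (k : ℝ)))
  refine ⟨C, fun w hw => ?_⟩
  unfold gC
  rw [Complex.Gammaℂ_def, Complex.Gammaℂ_def, gl_twopi]
  have h := hC w (1 - w) (-(1 - w)) (-w) hw
    (by
      apply Complex.ext
      · rw [Complex.sub_re, Complex.add_re, Complex.conj_re, Complex.natCast_re, hw,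
          Complex.one_re]
        push_cast
        ring
      · rw [Complex.sub_im, Complex.add_im, Complex.conj_im, Complex.natCast_im, Complex.one_im]
        ring)
    (by rw [Complex.neg_re, Complex.sub_re, hw, Complex.one_re])
    (by rw [Complex.neg_re, hw])
  have h2 : ∀ x y x' y' : ℂ, 2 * x * x' * (2 * y * y')⁻¹ = x * x' * (y * y')⁻¹ := by
    intro x y x' y'
    rw [mul_inv, mul_inv, mul_inv]
    field_simp
  rw [h2]
  exact h

theorem gR_diff {w : ℂ} (hw : w.re < 1) : DifferentiableAt ℂ gR w := by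
  have h1 : (0 : ℝ) < (1 - w).re := by rw [Complex.sub_re, Complex.one_re]; linarith
  have h2 : DifferentiableAt ℂ (fun w : ℂ => (Complex.Gammaℝ (1 - w))⁻¹) w :=
    (Complex.differentiable_Gammaℝ_inv (1 - w)).comp w
      ((differentiableAt_const _).sub differentiableAt_id)
  have h3 : DifferentiableAt ℂ (fun w : ℂ => Complex.Gammaℝ (1 - w)) w := by
    have h4 := h2.inv (inv_ne_zero (Complex.Gammaℝ_ne_zero_of_re_pos h1))
    have h5 : (fun w : ℂ => Complex.Gammaℝ (1 - w))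
        = (fun w : ℂ => (Complex.Gammaℝ (1 - w))⁻¹)⁻¹ := by
      funext z
      rw [Pi.inv_apply, inv_inv]
    rw [h5]
    exact h4
  exact h3.mul (Complex.differentiable_Gammaℝ_inv w)

theorem gC_diff {w : ℂ} (hw : w.re < 1) : DifferentiableAt ℂ gC w := by
  have h1 : (0 : ℝ) < (1 - w).re := by rw [Complex.sub_re, Complex.one_re]; linarith
  have h2 : DifferentiableAt ℂ (fun w : ℂ => (Complex.Gammaℂ (1 - w))⁻¹) w :=
    (Complex.differentiable_Gammaℂ_inv (1 - w)).comp w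
      ((differentiableAt_const _).sub differentiableAt_id)
  have h3 : DifferentiableAt ℂ (fun w : ℂ => Complex.Gammaℂ (1 - w)) w := by
    have h4 := h2.inv (inv_ne_zero (gl_GC_ne_re h1))
    have h5 : (fun w : ℂ => Complex.Gammaℂ (1 - w))
        = (fun w : ℂ => (Complex.Gammaℂ (1 - w))⁻¹)⁻¹ := by
      funext z
      rw [Pi.inv_apply, inv_inv]
    rw [h5]
    exact h4
  exact h3.mul (Complex.differentiable_Gammaℂ_inv w)

theorem gR_ne {w : ℂ} (hw : w.re < 1) (h : w.im ≠ 0) : gR w ≠ 0 := by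
  have h1 : (0 : ℝ) < (1 - w).re := by rw [Complex.sub_re, Complex.one_re]; linarith
  refine mul_ne_zero (Complex.Gammaℝ_ne_zero_of_re_pos h1) (inv_ne_zero fun h0 => ?_)
  obtain ⟨n, hn⟩ := Complex.Gammaℝ_eq_zero_iff.1 h0
  apply h
  rw [hn, ← Nat.cast_ofNat, ← Nat.cast_mul, Complex.neg_im, Complex.natCast_im, neg_zero]

theorem gC_ne {w : ℂ} (hw : w.re < 1) (h : w.im ≠ 0) : gC w ≠ 0 := by
  have h1 : (0 : ℝ) < (1 - w).re := by rw [Complex.sub_re, Complex.one_re]; linarith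
  refine mul_ne_zero (gl_GC_ne_re h1) (inv_ne_zero (gl_GC_ne fun m hm => ?_))
  apply h
  rw [hm, Complex.neg_im, Complex.natCast_im, neg_zero]

end Pool.Agent.QD.In
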