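import Pool.Agent.QD.In.Def

/-!
# QD-In-Zr: the local factors `zf` and `zr` at a place of norm `q ≥ 2`

`zf q t w = (1 - q^(-w))⁻¹ (1 - t q^(-w))⁻¹`, `zr q t w = zf q t (1-w) (zf q t w)⁻¹`.

PLAN.  `(zf q t w)⁻¹ = (1 - q^(-w)) (1 - t q^(-w))` (`mul_inv`, `inv_inv`) is entire and bounded in
strips (`‖q^(-w)‖ = q^(-Re w)`).  For `Re w < 0` (so `‖q^(w-1)‖ < q^(-1) ≤ 1/2`) the numbers
`1 - q^(-(1-w))`, `1 - t q^(-(1-w))` are nonzero, with inverses of absolute value at most `2`; and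
`‖q^(-w)‖ > 1`, so `1 - q^(-w) ≠ 0`, and `1 - t q^(-w) ≠ 0`.
`finOrd`: products of `finOrd_cpow`, `finOrd_add`... (In/Gam.lean), or bounded in strips
(`finOrd_of_bdd` in QD/Z/FinOrd.lean).  PolyStrip: `ps_of_bdd`, `ps_mul` (In/Strip.lean).
-/

namespace Pool.Agent.QD.In

open Pool.Agent.HWR

private theorem zr_inv_eq (q : ℕ) (t : ℤ) (w : ℂ) :
    (zf q t w)⁻¹ = (1 - (q : ℂ) ^ (-w)) * (1 - (t : ℂ) * (q : ℂ) ^ (-w)) := by
  unfold zf
  rw [mul_inv, inv_inv, inv_inv]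

private theorem zr_norm {q : ℕ} (hq : 2 ≤ q) (w : ℂ) : ‖(q : ℂ) ^ (-w)‖ = (q : ℝ) ^ (-w.re) := by
  rw [Complex.norm_natCast_cpow_of_pos (by omega), Complex.neg_re]

private theorem zr_t {t : ℤ} (ht : t = 1 ∨ t = -1 ∨ t = 0) : ‖(t : ℂ)‖ ≤ 1 := by
  rcases ht with h | h | h <;> rw [h] <;> norm_num

variable {q : ℕ} (hq : 2 ≤ q) {t : ℤ} (ht : t = 1 ∨ t = -1 ∨ t = 0)
include hq ht

theorem zf_inv_diff : Differentiable ℂ fun w => (zf q t w)⁻¹ := by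
  have h0 : (q : ℂ) ≠ 0 := by
    have : q ≠ 0 := by omega
    exact_mod_cast this
  have h1 : (fun w => (zf q t w)⁻¹) =
      fun w => (1 - (q : ℂ) ^ (-w)) * (1 - (t : ℂ) * (q : ℂ) ^ (-w)) := funext (zr_inv_eq q t)
  rw [h1]
  have h2 : Differentiable ℂ fun w : ℂ => (q : ℂ) ^ (-w) :=
    differentiable_id.neg.const_cpow (Or.inl h0)
  exact (h2.const_sub 1).mul ((h2.const_mul (t : ℂ)).const_sub 1)

private theorem zf_inv_bdd (x y : ℝ) : ∃ C : ℝ, ∀ w : ℂ, x ≤ w.re → w.re ≤ y →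
    ‖(zf q t w)⁻¹‖ ≤ C := by
  have hq0 : (0 : ℝ) < q := by
    have : 0 < q := by omega
    exact_mod_cast this
  obtain ⟨B, hB⟩ := ps_cpow_bdd hq0 (-y) (-x)
  refine ⟨(1 + B) * (1 + B), fun w h1 h2 => ?_⟩
  have h3 := hB (-w) (by rw [Complex.neg_re]; linarith) (by rw [Complex.neg_re]; linarith)
  rw [Complex.ofReal_natCast] at h3
  have hB0 := (norm_nonneg _).trans h3
  have ht1 := zr_t ht
  rw [zr_inv_eq, norm_mul]
  have n1 : ‖1 - (q : ℂ) ^ (-w)‖ ≤ 1 + B := by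
    refine (norm_sub_le _ _).trans ?_
    rw [norm_one]
    linarith
  have n2 : ‖1 - (t : ℂ) * (q : ℂ) ^ (-w)‖ ≤ 1 + B := by
    refine (norm_sub_le _ _).trans ?_
    rw [norm_one, norm_mul]
    have : ‖(t : ℂ)‖ * ‖(q : ℂ) ^ (-w)‖ ≤ 1 * B :=
      mul_le_mul ht1 h3 (norm_nonneg _) zero_le_one
    linarith
  exact mul_le_mul n1 n2 (norm_nonneg _) (by linarith)

theorem zf_inv_finOrd : FinOrd fun w => (zf q t w)⁻¹ :=
  Z.finOrd_of_bdd fun x y => zf_inv_bdd hq ht x y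

/-- the factor does not vanish -/
theorem zf_ne {w : ℂ} (hw : 0 < w.re) : zf q t w ≠ 0 := by
  have hq1 : (1 : ℝ) < q := by
    have : 1 < q := by omega
    exact_mod_cast this
  have h1 : ‖(q : ℂ) ^ (-w)‖ < 1 := by
    rw [zr_norm hq]
    exact Real.rpow_lt_one_of_one_lt_of_neg hq1 (by linarith)
  have ht1 := zr_t ht
  have h2 : (zf q t w)⁻¹ ≠ 0 := by
    rw [zr_inv_eq]
    refine mul_ne_zero ?_ ?_
    · intro h
      have : (q : ℂ) ^ (-w) = 1 := (sub_eq_zero.1 h).symm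
      rw [this, norm_one] at h1
      exact lt_irrefl _ h1
    · intro h
      have h3 : (t : ℂ) * (q : ℂ) ^ (-w) = 1 := (sub_eq_zero.1 h).symm
      have h4 : ‖(t : ℂ) * (q : ℂ) ^ (-w)‖ = 1 := by rw [h3, norm_one]
      rw [norm_mul] at h4
      nlinarith [norm_nonneg ((q : ℂ) ^ (-w)), norm_nonneg (t : ℂ)]
  exact fun h => h2 (by rw [h, inv_zero])

/-- for `Re w < 0` the inverse does not vanish either -/
theorem zf_ne' {w : ℂ} (hw : w.re < 0) : zf q t w ≠ 0 := by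
  have hq1 : (1 : ℝ) < q := by
    have : 1 < q := by omega
    exact_mod_cast this
  have h1 : 1 < ‖(q : ℂ) ^ (-w)‖ := by
    rw [zr_norm hq]
    exact Real.one_lt_rpow hq1 (by linarith)
  have h2 : (zf q t w)⁻¹ ≠ 0 := by
    rw [zr_inv_eq]
    refine mul_ne_zero ?_ ?_
    · intro h
      have : (q : ℂ) ^ (-w) = 1 := (sub_eq_zero.1 h).symm
      rw [this, norm_one] at h1
      exact lt_irrefl _ h1
    · intro h
      have h3 : (t : ℂ) * (q : ℂ) ^ (-w) = 1 := (sub_eq_zero.1 h).symm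
      have h4 : ‖(t : ℂ) * (q : ℂ) ^ (-w)‖ = 1 := by rw [h3, norm_one]
      rw [norm_mul] at h4
      rcases ht with rfl | rfl | rfl
      · simp at h4
        linarith
      · simp at h4
        linarith
      · simp at h4
  exact fun h => h2 (by rw [h, inv_zero])

theorem zr_ne {w : ℂ} (hw : w.re < 0) : zr q t w ≠ 0 := by
  unfold zr
  have h0 : 0 < (1 - w).re := by
    rw [Complex.sub_re, Complex.one_re]
    linarith
  exact mul_ne_zero (zf_ne hq ht h0) (inv_ne_zero (zf_ne' hq ht hw))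

theorem zr_diff {w : ℂ} (hw : w.re < 0) : DifferentiableAt ℂ (zr q t) w := by
  have h0 : 0 < (1 - w).re := by
    rw [Complex.sub_re, Complex.one_re]
    linarith
  have h1 : DifferentiableAt ℂ (zf q t) (1 - w) := by
    have h2 : zf q t = fun w => ((zf q t w)⁻¹)⁻¹ := funext fun w => (inv_inv _).symm
    rw [h2]
    exact (zf_inv_diff hq ht (1 - w)).fun_inv (inv_ne_zero (zf_ne hq ht h0))
  have h3 : DifferentiableAt ℂ (fun w => zf q t (1 - w)) w :=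
    h1.comp w ((differentiableAt_const _).sub differentiableAt_id)
  exact h3.mul (zf_inv_diff hq ht w)

theorem zr_bd : PolyStrip 0 (zr q t) := by
  have hq2 : (2 : ℝ) ≤ q := by exact_mod_cast hq
  refine ps_mul (F := fun w => zf q t (1 - w)) (G := fun w => (zf q t w)⁻¹)
    (ps_of_bdd fun x y hy => ⟨4, fun w _ h => ?_⟩) (ps_of_bdd fun x y _ => zf_inv_bdd hq ht x y)
  have h1 : ‖(q : ℂ) ^ (-(1 - w))‖ ≤ 1 / 2 := by
    rw [zr_norm hq, Complex.sub_re, Complex.one_re]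
    calc (q : ℝ) ^ (-(1 - w.re)) ≤ (q : ℝ) ^ (-1 : ℝ) :=
          Real.rpow_le_rpow_of_exponent_le (by linarith) (by linarith)
      _ = (q : ℝ)⁻¹ := Real.rpow_neg_one _
      _ ≤ 1 / 2 := by
          rw [one_div]
          exact inv_anti₀ (by norm_num) hq2
  have ht1 := zr_t ht
  have key : ∀ z : ℂ, ‖z‖ ≤ 1 / 2 → ‖(1 - z)⁻¹‖ ≤ 2 := by
    intro z hz
    have h2 := norm_sub_norm_le (1 : ℂ) z
    rw [norm_one] at h2
    rw [norm_inv]
    calc ‖1 - z‖⁻¹ ≤ (1 / 2 : ℝ)⁻¹ := inv_anti₀ (by norm_num) (by linarith)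
      _ = 2 := by norm_num
  unfold zf
  rw [norm_mul]
  have n2 : ‖(t : ℂ) * (q : ℂ) ^ (-(1 - w))‖ ≤ 1 / 2 := by
    rw [norm_mul]
    nlinarith [norm_nonneg ((q : ℂ) ^ (-(1 - w))), norm_nonneg (t : ℂ)]
  have h5 := key _ h1
  have h6 := key _ n2
  nlinarith [norm_nonneg ((1 - (q : ℂ) ^ (-(1 - w)))⁻¹),
    norm_nonneg ((1 - (t : ℂ) * (q : ℂ) ^ (-(1 - w)))⁻¹)]

end Pool.Agent.QD.In
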