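import Pool.Agent.QD.In.CongD
import Pool.Agent.QD.In.Zr

/-!
# QD-In-GamX: the factor `GamX S x w` of the functional equation of the zeta function

`GamX S x w = D0^(1/2-w) gR^nr gC^nc ∏_{v ∈ S} zr (nrm v) (tt x v) w` (In/Def.lean).

PLAN.  `GamX_congr`: `D0_congr`, `nr_congr`, `nc_congr`, `tt_congr`, `Finset.prod_congr`.
`GamX_diff`: `gR_diff`, `gC_diff` (In/GamL.lean), `zr_diff`, `tt_cases`, `2 ≤ nrm v`
(`nrm_ne_zero`, `nrm_ne_one`, HWR/SumNrm.lean).  `GamX_bd`: `ps_mul`, `ps_pow`, `ps_prod`, `ps_cpow`,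
`gR_bd`, `gC_bd`, `zr_bd` (In/Strip.lean).  `GamX_ne`: `gR_ne`, `gC_ne`, `zr_ne`, `D0_pos`.
`GamX_insert`: `Finset.prod_insert`, `D0_insert`, `(x y)^z = x^z y^z` for positive reals
(`Complex.mul_cpow_ofReal_nonneg`); at `v` (not over `2`) `tt x v = uK v x` (`tt_uK`), which is
`0` if the order is odd.
-/

namespace Pool.Agent.QD.In

open NumberField IsDedekindDomain Pool.Agent.HWR

variable {K : Type} [Field K] [NumberField K] (S : Finset (HeightOneSpectrum (𝓞 K)))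

theorem two_le_nrm (v : HeightOneSpectrum (𝓞 K)) : 2 ≤ nrm v := by
  have h0 := nrm_ne_zero v
  have h1 := nrm_ne_one v
  omega

theorem GamX_congr (h2 : ∀ v : HeightOneSpectrum (𝓞 K), (2 : 𝓞 K) ∈ v.asIdeal → v ∈ S) {x y : Kˣ}
    (h : x / y ∈ HSub S) : GamX S x = GamX S y := by
  funext w
  unfold GamX
  rw [D0_congr S h2 h, nr_congr h, nc_congr h,
    Finset.prod_congr rfl fun v hv => by rw [tt_congr h v hv]]

theorem GamX_diff (x : Kˣ) {w : ℂ} (hw : w.re < 0) : DifferentiableAt ℂ (GamX S x) w := by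
  have h0 : ((D0 S x : ℝ) : ℂ) ≠ 0 := by
    exact_mod_cast (D0_pos S x).ne'
  unfold GamX
  refine DifferentiableAt.mul (DifferentiableAt.mul (DifferentiableAt.mul ?_ ?_) ?_) ?_
  · exact ((differentiableAt_const _).sub differentiableAt_id).const_cpow (Or.inl h0)
  · exact (gR_diff (by linarith)).pow _
  · exact (gC_diff (by linarith)).pow _
  · exact DifferentiableAt.fun_finset_prod fun v _ => zr_diff (two_le_nrm v) (tt_cases x v) hw

theorem GamX_bd (x : Kˣ) : PolyStrip 0 (GamX S x) := by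
  unfold GamX
  refine ps_mul (ps_mul (ps_mul ?_ (ps_pow gR_bd _)) (ps_pow gC_bd _))
    (ps_prod S fun v _ => zr_bd (two_le_nrm v) (tt_cases x v))
  refine ps_congr (ps_cpow 0 (D0_pos S x) (-1) (1 / 2)) fun s _ => ?_
  congr 1
  push_cast
  ring

theorem GamX_ne (x : Kˣ) {w : ℂ} (hw : w.re < 0) (him : w.im ≠ 0) : GamX S x w ≠ 0 := by
  have h0 : ((D0 S x : ℝ) : ℂ) ≠ 0 := by
    exact_mod_cast (D0_pos S x).ne'
  unfold GamX
  refine mul_ne_zero (mul_ne_zero (mul_ne_zero ?_ ?_) ?_) ?_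
  · intro h
    exact h0 ((Complex.cpow_eq_zero_iff _ _).1 h).1
  · exact pow_ne_zero _ (gR_ne (by linarith) him)
  · exact pow_ne_zero _ (gC_ne (by linarith) him)
  · exact Finset.prod_ne_zero_iff.2 fun v _ => zr_ne (two_le_nrm v) (tt_cases x v) hw

/-- one more place, not over `2` -/
theorem GamX_insert [DecidableEq (HeightOneSpectrum (𝓞 K))] (v : HeightOneSpectrum (𝓞 K))
    (hv : v ∉ S) (h2 : (2 : 𝓞 K) ∉ v.asIdeal) (x : Kˣ) (w : ℂ) :
    GamX (insert v S) x w = GamX S x w * ((if Odd (ordK v x) then (nrm v : ℂ) ^ (1 / 2 - w) else 1) *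
      zr (nrm v) (uK v x) w) := by
  unfold GamX
  rw [D0_insert S v hv x, Finset.prod_insert hv, tt_uK x v h2]
  by_cases ho : Odd (ordK v x)
  · rw [if_pos ho, if_pos ho]
    have h1 : ((D0 S x * ((nrm v : ℕ) : ℝ) : ℝ) : ℂ) ^ (1 / 2 - w) =
        ((D0 S x : ℝ) : ℂ) ^ (1 / 2 - w) * (nrm v : ℂ) ^ (1 / 2 - w) := by
      rw [Complex.ofReal_mul, Complex.mul_cpow_ofReal_nonneg (D0_pos S x).le (Nat.cast_nonneg _),
        Complex.ofReal_natCast]
    rw [h1]
    ring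
  · rw [if_neg ho, if_neg ho, Nat.cast_one, mul_one]
    ring

end Pool.Agent.QD.In
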