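import Pool.Agent.QD.In.Def

/-!
# QD-In-CongZ: types and real places of `K(√x)`

Definitions in `In/Def.lean`: `tt x v`, `dd x`, `nr x`, `nc x` (data of `K(√x)`; of `K × K` if `x` is
a square).  `qf h : QF K x` is the chosen field: `(qf h).L`, `(qf h).deg`, `(qf h).sq`.

PLAN.  Unfold the definition, `by_cases h : IsSquare x`, `rw [dif_pos h]` or `dif_neg h`.
`tt_uK`: `x = y * y`: `uK_sq` (N3/Basic; `pow_two`); otherwise `ty_odd (qf h).L (qf h).deg x (qf h).θ
(qf h).sq h v h2` (N4Main).
`tt_cases`: unfold `ty`.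
`dd_pos`: `NumberField.discr_ne_zero`.
`nr_eq`: not a square: `real_places` (N4Main).  Square: every `φ x = (φ y)^2 > 0`, so the set of `φ`
is everything and its cardinality is the number of real places of `K` (QD/N4/Real.lean has the count
of real embeddings; a place is real iff its embedding is real).
`nr_nc`: `InfinitePlace.card_add_two_mul_card_eq_rank` for `K` and for `(qf h).L`,
`Module.finrank_mul_finrank ℚ K L`.
`tt_congr`: both not squares: `ty_congr`; both squares: trivial; `x` not a square, `y = z^2` a square: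
then `x ∈ HSet S` (`x = (x/y) y`, `sq_mem_HSub`, `mul_mem`), so `ty_one`; the other case is
symmetric (`HSub S` is closed under inverses).
`nr_congr`: `nr_eq` and `0 < φ x ↔ 0 < φ y` since `0 < φ (x/y)`.
-/

namespace Pool.Agent.QD.In

open NumberField IsDedekindDomain Pool.Agent.HWR

variable {K : Type} [Field K] [NumberField K]

theorem tt_uK (x : Kˣ) (v : HeightOneSpectrum (𝓞 K)) (h2 : (2 : 𝓞 K) ∉ v.asIdeal) :
    tt x v = uK v x := by
  unfold tt
  by_cases h : IsSquare x
  · rw [dif_pos h]
    obtain ⟨y, rfl⟩ := h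
    rw [← sq, uK_sq]
  · rw [dif_neg h]
    exact ty_odd (qf h).L (qf h).deg x (qf h).θ (qf h).sq h v h2

theorem tt_cases (x : Kˣ) (v : HeightOneSpectrum (𝓞 K)) :
    tt x v = 1 ∨ tt x v = -1 ∨ tt x v = 0 := by
  unfold tt
  by_cases h : IsSquare x
  · rw [dif_pos h]
    exact Or.inl rfl
  · rw [dif_neg h]
    unfold ty
    split_ifs
    · exact Or.inl rfl
    · exact Or.inr (Or.inl rfl)
    · exact Or.inr (Or.inr rfl)

theorem dd_pos (x : Kˣ) : 0 < dd x := by
  unfold dd
  by_cases h : IsSquare x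
  · rw [dif_pos h]
    have h1 : (NumberField.discr K : ℝ) ≠ 0 := by
      exact_mod_cast NumberField.discr_ne_zero K
    positivity
  · rw [dif_neg h]
    have h1 : (NumberField.discr (qf h).L : ℝ) ≠ 0 := by
      exact_mod_cast NumberField.discr_ne_zero (qf h).L
    exact abs_pos.2 h1

theorem nr_eq (x : Kˣ) : nr x = 2 * Nat.card {φ : K →+* ℝ // 0 < φ (x : K)} := by
  unfold nr
  by_cases h : IsSquare x
  · rw [dif_pos h]
    have h1 : ∀ φ : K →+* ℝ, 0 < φ (x : K) := by
      obtain ⟨y, rfl⟩ := h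
      intro φ
      rw [Units.val_mul, map_mul]
      have h2 : φ (y : K) ≠ 0 := by
        rw [Ne, map_eq_zero]
        exact y.ne_zero
      exact mul_self_pos.2 h2
    rw [N4.card_real, Nat.card_congr (Equiv.subtypeUnivEquiv h1)]
  · rw [dif_neg h]
    exact real_places (qf h).L (qf h).deg x (qf h).θ (qf h).sq h

theorem nr_nc (x : Kˣ) : nr x + 2 * nc x = 2 * Module.finrank ℚ K := by
  unfold nr nc
  by_cases h : IsSquare x
  · rw [dif_pos h, dif_pos h]
    have h1 := InfinitePlace.card_add_two_mul_card_eq_rank K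
    omega
  · rw [dif_neg h, dif_neg h]
    have h1 := InfinitePlace.card_add_two_mul_card_eq_rank (qf h).L
    have h2 := Module.finrank_mul_finrank ℚ K (qf h).L
    rw [(qf h).deg] at h2
    omega

variable {S : Finset (HeightOneSpectrum (𝓞 K))} {x y : Kˣ} (h : x / y ∈ HSub S)
include h

theorem tt_congr (v : HeightOneSpectrum (𝓞 K)) (hv : v ∈ S) : tt x v = tt y v := by
  unfold tt
  by_cases hx : IsSquare x
  · by_cases hy : IsSquare y
    · rw [dif_pos hx, dif_pos hy]
    · rw [dif_pos hx, dif_neg hy]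
      have h1 : y ∈ HSub S := by
        obtain ⟨z, rfl⟩ := hx
        have h2 : y = (z * z / y)⁻¹ * z ^ 2 := by
          rw [inv_div, sq, div_mul_cancel]
        rw [h2]
        exact (HSub S).mul_mem ((HSub S).inv_mem h) (sq_mem_HSub S z)
      exact (ty_one (qf hy).L (qf hy).deg y (qf hy).θ (qf hy).sq hy S h1 v hv).symm
  · by_cases hy : IsSquare y
    · rw [dif_neg hx, dif_pos hy]
      have h1 : x ∈ HSub S := by
        obtain ⟨z, rfl⟩ := hy
        have h2 : x = (x / (z * z)) * z ^ 2 := by
          rw [sq, div_mul_cancel]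
        rw [h2]
        exact (HSub S).mul_mem h (sq_mem_HSub S z)
      exact ty_one (qf hx).L (qf hx).deg x (qf hx).θ (qf hx).sq hx S h1 v hv
    · rw [dif_neg hx, dif_neg hy]
      exact ty_congr (qf hx).L (qf hx).deg x (qf hx).θ (qf hx).sq hx (qf hy).L (qf hy).deg y
        (qf hy).θ (qf hy).sq hy S h v hv

theorem nr_congr : nr x = nr y := by
  rw [nr_eq, nr_eq]
  congr 1
  refine Nat.card_congr (Equiv.subtypeEquivRight fun φ => ?_)
  have h1 := h.2 φ
  have h2 : (x : K) = ((x / y : Kˣ) : K) * (y : K) := by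
    rw [← Units.val_mul, div_mul_cancel]
  rw [h2, map_mul]
  exact mul_pos_iff_of_pos_left h1

theorem nc_congr : nc x = nc y := by
  have h1 := nr_nc x
  have h2 := nr_nc y
  have h3 := nr_congr h
  omega

end Pool.Agent.QD.In
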