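import Pool.Agent.QD.In.CongZ

/-!
# QD-In-CongD: the discriminant of `K(√x)`

`oddN S x` is the product of the norms of the places outside `S` at which `x` has odd order,
`D0 S x = dd x / oddN S x` (In/Def.lean).

PLAN.  The `finprod` has finite multiplicative support (`ordK_finite`, N3/Basic).
`oddN_eq`: for `b` with `ordK v x = b v`: `finprod_eq_prod_of_mulSupport_subset` with `b.support`.
`D0_congr`: write `P2 x` for the `finprod` over `{v // 2 ∉ v ∧ Odd (ordK v x)}` of `N4Main.disc_congr`;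
`P2 x = oddN S x * ∏ v ∈ S with (2 ∉ v ∧ Odd (ordK v x)), nrm v` (split the set `{v | 2 ∉ v ∧ odd}` into the
part in `S` and the part outside; outside `S` the condition `2 ∉ v` is automatic by `h2`);
`finprod_mem_union`, `finprod_subtype_eq_finprod_cond`, or turn everything into finite products over
the finite set of places where `ordK v x` or `ordK v y` is nonzero.  At `v ∈ S` the order of `x / y` is even
(`even_of_LSq`), so the parts in `S` agree for `x` and `y` and are not zero (`nrm_ne_zero`).  So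
`dd x * oddN S y = dd y * oddN S x`; cases as in `tt_congr` (both not squares: `disc_congr`; `y` a
square: `disc_one` for `x ∈ HSet S`, and there all orders of `x` at `S` are even; both squares:
`oddN = 1`).
-/

namespace Pool.Agent.QD.In

open NumberField IsDedekindDomain Pool.Agent.HWR

variable {K : Type} [Field K] [NumberField K] (S : Finset (HeightOneSpectrum (𝓞 K)))

omit S in
open Classical in
private noncomputable def cdG (p : HeightOneSpectrum (𝓞 K) → Prop) (x : Kˣ)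
    (v : HeightOneSpectrum (𝓞 K)) : ℕ :=
  if p v ∧ Odd (ordK v x) then nrm v else 1

private theorem cdG_pos' {p : HeightOneSpectrum (𝓞 K) → Prop} {x : Kˣ}
    {v : HeightOneSpectrum (𝓞 K)} (h : p v) (h' : Odd (ordK v x)) : cdG p x v = nrm v :=
  if_pos ⟨h, h'⟩

private theorem cdG_neg' {p : HeightOneSpectrum (𝓞 K) → Prop} {x : Kˣ}
    {v : HeightOneSpectrum (𝓞 K)} (h : ¬ (p v ∧ Odd (ordK v x))) : cdG p x v = 1 :=
  if_neg h

private theorem cdG_no1 (p : HeightOneSpectrum (𝓞 K) → Prop) (x : Kˣ)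
    (v : HeightOneSpectrum (𝓞 K)) (h : ¬ p v) : cdG p x v = 1 :=
  cdG_neg' fun h1 => h h1.1

private theorem cdG_no2 (p : HeightOneSpectrum (𝓞 K) → Prop) (x : Kˣ)
    (v : HeightOneSpectrum (𝓞 K)) (h : ¬ Odd (ordK v x)) : cdG p x v = 1 :=
  cdG_neg' fun h1 => h h1.2

private theorem cdG_congr {p q : HeightOneSpectrum (𝓞 K) → Prop} {x y : Kˣ}
    {v : HeightOneSpectrum (𝓞 K)} (h : (p v ∧ Odd (ordK v x)) ↔ (q v ∧ Odd (ordK v y))) :
    cdG p x v = cdG q y v := by
  by_cases h1 : p v ∧ Odd (ordK v x)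
  · rw [cdG_pos' h1.1 h1.2, cdG_pos' (h.1 h1).1 (h.1 h1).2]
  · rw [cdG_neg' h1, cdG_neg' fun h2 => h1 (h.2 h2)]

private theorem cdG_supp (p : HeightOneSpectrum (𝓞 K) → Prop) (x : Kˣ)
    (v : HeightOneSpectrum (𝓞 K)) (h : ordK v x = 0) : cdG p x v = 1 := by
  unfold cdG
  rw [if_neg]
  rintro ⟨_, h1⟩
  rw [h] at h1
  exact absurd h1 (by decide)

private theorem cdG_fin (p : HeightOneSpectrum (𝓞 K) → Prop) (x : Kˣ) :
    Function.HasFiniteMulSupport (cdG p x) := by
  refine (ordK_finite x).subset ?_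
  intro v hv h
  exact hv (cdG_supp p x v h)

private theorem cdG_pos (p : HeightOneSpectrum (𝓞 K) → Prop) (x : Kˣ) :
    0 < ∏ᶠ v, cdG p x v := by
  refine finprod_induction (fun n : ℕ => 0 < n) Nat.one_pos (fun _ _ => Nat.mul_pos) fun v => ?_
  unfold cdG
  split_ifs
  · exact Nat.pos_of_ne_zero (nrm_ne_zero v)
  · exact Nat.one_pos

private theorem cd_odd (x : Kˣ) : oddN S x = ∏ᶠ v, cdG (fun v => v ∉ S) x v := by
  classical
  unfold oddN
  have h1 := finprod_subtype_eq_finprod_cond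
    (f := fun v : HeightOneSpectrum (𝓞 K) => if Odd (ordK v x) then nrm v else 1)
    (fun v : HeightOneSpectrum (𝓞 K) => v ∉ S)
  refine h1.trans (finprod_congr fun v => ?_)
  rw [finprod_eq_if]
  unfold cdG
  by_cases h2 : v ∉ S
  · by_cases h3 : Odd (ordK v x)
    · rw [if_pos h2, if_pos h3, if_pos ⟨h2, h3⟩]
    · rw [if_pos h2, if_neg h3, if_neg fun h => h3 h.2]
  · rw [if_neg h2, if_neg fun h => h2 h.1]

private theorem cd_P2 (x : Kˣ) :
    ∏ᶠ v : {v : HeightOneSpectrum (𝓞 K) // (2 : 𝓞 K) ∉ v.asIdeal ∧ Odd (ordK v x)},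
        (nrm v.1 : ℤ) = ((∏ᶠ v, cdG (fun v => (2 : 𝓞 K) ∉ v.asIdeal) x v : ℕ) : ℤ) := by
  classical
  have h1 := finprod_subtype_eq_finprod_cond (f := fun v : HeightOneSpectrum (𝓞 K) => (nrm v : ℤ))
    (fun v : HeightOneSpectrum (𝓞 K) => (2 : 𝓞 K) ∉ v.asIdeal ∧ Odd (ordK v x))
  have h2 : ((∏ᶠ v, cdG (fun v => (2 : 𝓞 K) ∉ v.asIdeal) x v : ℕ) : ℤ) =
      ∏ᶠ v, ((cdG (fun v => (2 : 𝓞 K) ∉ v.asIdeal) x v : ℕ) : ℤ) :=
    MonoidHom.map_finprod_of_injective (Nat.castRingHom ℤ).toMonoidHom Nat.cast_injective _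
  rw [h1, h2]
  refine finprod_congr fun v => ?_
  rw [finprod_eq_if]
  unfold cdG
  by_cases h3 : (2 : 𝓞 K) ∉ v.asIdeal ∧ Odd (ordK v x)
  · rw [if_pos h3, if_pos h3]
  · rw [if_neg h3, if_neg h3, Nat.cast_one]

private theorem cd_split (h2 : ∀ v : HeightOneSpectrum (𝓞 K), (2 : 𝓞 K) ∈ v.asIdeal → v ∈ S)
    (x : Kˣ) : ∏ᶠ v, cdG (fun v => (2 : 𝓞 K) ∉ v.asIdeal) x v =
      oddN S x * ∏ᶠ v, cdG (fun v => v ∈ S ∧ (2 : 𝓞 K) ∉ v.asIdeal) x v := by
  classical
  rw [cd_odd, ← finprod_mul_distrib (cdG_fin _ x) (cdG_fin _ x)]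
  refine finprod_congr fun v => ?_
  by_cases h3 : Odd (ordK v x)
  · by_cases h4 : v ∈ S
    · by_cases h5 : (2 : 𝓞 K) ∈ v.asIdeal
      · rw [cdG_no1 (fun v => (2 : 𝓞 K) ∉ v.asIdeal) x v fun h => h h5,
          cdG_no1 (fun v => v ∉ S) x v fun h => h h4,
          cdG_no1 (fun v => v ∈ S ∧ (2 : 𝓞 K) ∉ v.asIdeal) x v fun h => h.2 h5, one_mul]
      · rw [cdG_pos' (p := fun v => (2 : 𝓞 K) ∉ v.asIdeal) h5 h3,
          cdG_no1 (fun v => v ∉ S) x v fun h => h h4,
          cdG_pos' (p := fun v => v ∈ S ∧ (2 : 𝓞 K) ∉ v.asIdeal) ⟨h4, h5⟩ h3, one_mul]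
    · have h5 : (2 : 𝓞 K) ∉ v.asIdeal := fun h => h4 (h2 v h)
      rw [cdG_pos' (p := fun v => (2 : 𝓞 K) ∉ v.asIdeal) h5 h3,
        cdG_pos' (p := fun v => v ∉ S) h4 h3,
        cdG_no1 (fun v => v ∈ S ∧ (2 : 𝓞 K) ∉ v.asIdeal) x v fun h => h4 h.1, mul_one]
  · rw [cdG_no2 _ x v h3, cdG_no2 _ x v h3, cdG_no2 _ x v h3, one_mul]

private theorem cd_S_congr {x y : Kˣ} (h : x / y ∈ HSub S) :
    ∏ᶠ v, cdG (fun v => v ∈ S ∧ (2 : 𝓞 K) ∉ v.asIdeal) x v =
      ∏ᶠ v, cdG (fun v => v ∈ S ∧ (2 : 𝓞 K) ∉ v.asIdeal) y v := by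
  refine finprod_congr fun v => ?_
  by_cases h4 : v ∈ S
  · have h5 := even_of_LSq ((mem_HSub.1 h).1 v h4)
    rw [ordK_div] at h5
    have h6 : Odd (ordK v x) ↔ Odd (ordK v y) := by
      rw [← Int.not_even_iff_odd, ← Int.not_even_iff_odd, Int.even_sub.1 h5]
    exact cdG_congr (and_congr_right fun _ => h6)
  · rw [cdG_neg' fun h => h4 h.1.1, cdG_neg' fun h => h4 h.1.1]

private theorem cd_sq {p : HeightOneSpectrum (𝓞 K) → Prop} {x : Kˣ}
    (h : ∀ v, p v → Even (ordK v x)) : ∏ᶠ v, cdG p x v = 1 := by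
  refine finprod_eq_one_of_forall_eq_one fun v => ?_
  unfold cdG
  rw [if_neg]
  rintro ⟨h1, h2⟩
  exact (Int.not_even_iff_odd.2 h2) (h v h1)

private theorem cd_even_sq {x : Kˣ} (h : IsSquare x) (v : HeightOneSpectrum (𝓞 K)) :
    Even (ordK v x) := by
  obtain ⟨y, rfl⟩ := h
  rw [ordK_mul]
  exact ⟨_, rfl⟩

theorem oddN_pos (x : Kˣ) : 0 < oddN S x := by
  rw [cd_odd]
  exact cdG_pos _ x

theorem oddN_eq (x : Kˣ) (b : Io S →₀ ℕ) (hb : ∀ v : Io S, ordK v.1 x = (b v : ℤ)) :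
    oddN S x = b.prod fun v k => if Odd k then nrm v.1 else 1 := by
  classical
  unfold oddN
  rw [finprod_eq_prod_of_mulSupport_subset (s := b.support), Finsupp.prod]
  · refine Finset.prod_congr rfl fun v _ => ?_
    refine if_congr ?_ rfl rfl
    rw [hb v, Int.odd_coe_nat]
  · intro v hv
    rw [Finset.mem_coe, Finsupp.mem_support_iff]
    intro h
    refine hv ?_
    have h1 : ¬ Odd (ordK v.1 x) := by
      rw [hb v, h]
      decide
    exact if_neg h1

theorem D0_pos (x : Kˣ) : 0 < D0 S x := by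
  unfold D0
  have h1 := dd_pos x
  have h2 : (0 : ℝ) < oddN S x := by exact_mod_cast oddN_pos S x
  exact div_pos h1 h2

theorem dd_eq (x : Kˣ) : dd x = D0 S x * oddN S x := by
  unfold D0
  have h2 : (0 : ℝ) < oddN S x := by exact_mod_cast oddN_pos S x
  rw [div_mul_cancel₀ _ (ne_of_gt h2)]

private theorem cd_one (h2 : ∀ v : HeightOneSpectrum (𝓞 K), (2 : 𝓞 K) ∈ v.asIdeal → v ∈ S)
    {x : Kˣ} (h : x ∈ HSub S) : dd x = (NumberField.discr K : ℝ) ^ 2 * oddN S x := by
  unfold dd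
  split_ifs with hx
  · have h1 : oddN S x = 1 := by
      rw [cd_odd]
      exact cd_sq fun v _ => cd_even_sq hx v
    rw [h1, Nat.cast_one, mul_one]
  · have h3 := disc_one (qf hx).L (qf hx).deg x (qf hx).θ (qf hx).sq hx S h2 (mem_HSub.1 h)
    have h4 : ∏ᶠ v, cdG (fun v => v ∈ S ∧ (2 : 𝓞 K) ∉ v.asIdeal) x v = 1 :=
      cd_sq fun v hv => even_of_LSq ((mem_HSub.1 h).1 v hv.1)
    rw [cd_P2, cd_split S h2 x, h4, mul_one] at h3
    have h5 := congrArg (fun n : ℤ => (n : ℝ)) h3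
    push_cast at h5
    rw [sq_abs] at h5
    exact h5

private theorem cd_key (h2 : ∀ v : HeightOneSpectrum (𝓞 K), (2 : 𝓞 K) ∈ v.asIdeal → v ∈ S)
    {x y : Kˣ} (h : x / y ∈ HSub S) : dd x * oddN S y = dd y * oddN S x := by
  by_cases hx : IsSquare x
  · have hx' : x ∈ HSub S := by
      obtain ⟨z, rfl⟩ := hx
      have := sq_mem_HSub S z
      rwa [pow_two] at this
    have hy' : y ∈ HSub S := by
      have h3 := (HSub S).mul_mem ((HSub S).inv_mem h) hx'
      have h4 : (x / y)⁻¹ * x = y := by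
        rw [inv_div, div_mul_cancel]
      rwa [h4] at h3
    rw [cd_one S h2 hx', cd_one S h2 hy']
    ring
  · by_cases hy : IsSquare y
    · have hy' : y ∈ HSub S := by
        obtain ⟨z, rfl⟩ := hy
        have := sq_mem_HSub S z
        rwa [pow_two] at this
      have hx' : x ∈ HSub S := by
        have h3 := (HSub S).mul_mem h hy'
        rwa [div_mul_cancel] at h3
      rw [cd_one S h2 hx', cd_one S h2 hy']
      ring
    · have h3 := disc_congr (qf hx).L (qf hx).deg x (qf hx).θ (qf hx).sq hx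
        (qf hy).L (qf hy).deg y (qf hy).θ (qf hy).sq hy S h2 (mem_HSub.1 h)
      rw [cd_P2, cd_P2, cd_split S h2 x, cd_split S h2 y, cd_S_congr S h] at h3
      have h6 := cdG_pos (fun v => v ∈ S ∧ (2 : 𝓞 K) ∉ v.asIdeal) y
      revert h3 h6
      generalize (∏ᶠ v, cdG (fun v => v ∈ S ∧ (2 : 𝓞 K) ∉ v.asIdeal) y v : ℕ) = P
      intro h3 h6
      have h5 := congrArg (fun n : ℤ => (n : ℝ)) h3
      push_cast at h5
      have h6 : (0 : ℝ) < (P : ℝ) := by
        exact_mod_cast h6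
      unfold dd
      rw [dif_neg hx, dif_neg hy]
      refine mul_right_cancel₀ (ne_of_gt h6) ?_
      rw [mul_assoc, mul_assoc]
      exact h5

theorem D0_congr (h2 : ∀ v : HeightOneSpectrum (𝓞 K), (2 : 𝓞 K) ∈ v.asIdeal → v ∈ S) {x y : Kˣ}
    (h : x / y ∈ HSub S) : D0 S x = D0 S y := by
  have h1 := cd_key S h2 h
  have hx : (0 : ℝ) < oddN S x := by exact_mod_cast oddN_pos S x
  have hy : (0 : ℝ) < oddN S y := by exact_mod_cast oddN_pos S y
  unfold D0
  rw [div_eq_div_iff (ne_of_gt hx) (ne_of_gt hy)]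
  exact h1

/-- one more place -/
theorem D0_insert [DecidableEq (HeightOneSpectrum (𝓞 K))] (v : HeightOneSpectrum (𝓞 K))
    (hv : v ∉ S) (x : Kˣ) : D0 (insert v S) x = D0 S x * ((if Odd (ordK v x) then nrm v else 1 : ℕ) : ℝ) := by
  have h1 : oddN S x = oddN (insert v S) x * (if Odd (ordK v x) then nrm v else 1) := by
    have h3 : ∏ᶠ u, (if u = v then cdG (fun _ => True) x u else 1) =
        if Odd (ordK v x) then nrm v else 1 := by
      rw [finprod_eq_single _ v fun u hu => if_neg hu, if_pos rfl]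
      split_ifs with h4
      · exact cdG_pos' trivial h4
      · exact cdG_neg' fun h => h4 h.2
    rw [← h3, cd_odd, cd_odd, ← finprod_mul_distrib (cdG_fin _ x)]
    · refine finprod_congr fun u => ?_
      by_cases hu : u = v
      · subst hu
        rw [if_pos rfl]
        by_cases h4 : Odd (ordK u x)
        · rw [cdG_pos' (p := fun v => v ∉ S) hv h4,
            cdG_no1 (fun v => v ∉ insert u S) x u fun h => h (Finset.mem_insert_self _ _),
            cdG_pos' (p := fun _ => True) trivial h4, one_mul]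
        · rw [cdG_no2 _ x u h4, cdG_no2 _ x u h4, cdG_no2 _ x u h4, one_mul]
      · rw [if_neg hu, mul_one]
        refine cdG_congr (and_congr_left fun _ => ?_)
        rw [Finset.mem_insert, not_or]
        exact ⟨fun h => ⟨hu, h⟩, fun h => h.2⟩
    · refine (Set.finite_singleton v).subset ?_
      intro u hu
      by_contra h4
      exact hu (if_neg h4)
  have h5 : (0 : ℝ) < oddN (insert v S) x := by exact_mod_cast oddN_pos (insert v S) x
  have h6 : (0 : ℝ) < ((if Odd (ordK v x) then nrm v else 1 : ℕ) : ℝ) := by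
    split_ifs
    · exact_mod_cast Nat.pos_of_ne_zero (nrm_ne_zero v)
    · norm_num
  unfold D0
  rw [h1, Nat.cast_mul]
  field_simp

end Pool.Agent.QD.In
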