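import Pool.Agent.QD.In.Def
import Pool.Agent.QD.In.LocF

/-!
# QD-In-FFr: the local factors `FF` of degree four at a place of norm `q ≥ 101`

`FF a q t s` (HWR/Defs): `efac a q s ^ 2`, `efac a (q^2) s`, `efac a q s` for `t = 1, -1, 0`,
`efac a q s = (1 - a_q q^(-s) + q^(1-2s))⁻¹`.

PLAN.  `FF_inv`: `(FF a q t s)⁻¹` is a polynomial in `q^(-s)` (`inv_inv`), so entire and bounded in
strips.  For `Re s ≥ 1`: `efac_ne`, `Fm_ne`, `efac_diff`, `Fm_diff`, `efac_sub_one`, `Fm_sub_one`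
(HWR/LocalEst.lean): `FF ≠ 0`, differentiable, `‖FF‖ ≤ 16`.
`FF_inv_ne`: for `Re s ≤ -1` put `r = ‖q^(-s)‖ = q^(-Re s) ≥ q`: `q r² ≥ 2 + 2 √q r`
(`ha : |a q| ≤ 2 √q`, and `|a (q²)| ≤ 2 q`), so the polynomials do not vanish.
`Efac_FF`: with `a (q²) = a(q)² - 2 q`: `1 - a(q²) X² + q² X⁴ = (1 - a X + q X²)(1 + a X + q X²)`,
`X = q^(-s)`, `q^(1-2s) = q X²` (`Complex.cpow_add`, ..; `den_eq` in HWR/LocalEst.lean), `(q²)^(-s) = X²`.
-/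

namespace Pool.Agent.QD.In

open Pool.Agent.HWR

/-- Euler factor of degree two twisted by `u` (`SysD.Efac`) -/
noncomputable def ef (a : ℕ → ℝ) (q : ℕ) (u : ℂ) (s : ℂ) : ℂ :=
  (1 - (a q : ℂ) * u * (q : ℂ) ^ (-s) + u ^ 2 * (q : ℂ) ^ (1 - 2 * s))⁻¹

private theorem sq_cpow (q : ℕ) (s : ℂ) : ((q ^ 2 : ℕ) : ℂ) ^ s = ((q : ℂ) ^ s) ^ 2 := by
  rw [pow_two, Nat.cast_mul, Complex.natCast_mul_natCast_cpow, pow_two]

private theorem cpow_one_sub {q : ℕ} (hq : (q : ℂ) ≠ 0) (s : ℂ) :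
    (q : ℂ) ^ (1 - 2 * s) = q * ((q : ℂ) ^ (-s)) ^ 2 := by
  rw [pow_two, ← Complex.cpow_add _ _ hq, show (1 - 2 * s : ℂ) = 1 + (-s + -s) by ring,
    Complex.cpow_add _ _ hq, Complex.cpow_one]

variable {a : ℕ → ℝ} (ha : ∀ q : ℕ, |a q| ≤ 2 * Real.sqrt q) {q : ℕ} (hq : 101 ≤ q) {t : ℤ}
  (ht : t = 1 ∨ t = -1 ∨ t = 0)
include hq ht

theorem FF_ef (h2 : a (q ^ 2) = a q ^ 2 - 2 * q) (s : ℂ) : FF a q t s = ef a q 1 s * ef a q t s := by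
  have hq0 : (q : ℂ) ≠ 0 := by
    have : q ≠ 0 := by omega
    exact_mod_cast this
  rcases ht with rfl | rfl | rfl
  · unfold FF F1 efac ef
    rw [if_pos (by norm_num)]
    push_cast
    ring
  · have e1 : ((-1 : ℤ) : ℂ) ≠ 1 := by norm_num
    unfold FF Fm efac ef
    rw [if_neg e1, if_pos (by norm_num), ← mul_inv, h2, sq_cpow, sq_cpow, cpow_one_sub hq0 s]
    congr 1
    push_cast
    ring
  · have e1 : ((0 : ℤ) : ℂ) ≠ 1 := by norm_num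
    have e2 : ((0 : ℤ) : ℂ) ≠ -1 := by norm_num
    unfold FF efac ef
    rw [if_neg e1, if_neg e2, ← mul_inv]
    congr 1
    push_cast
    ring

theorem FF_inv_diff : Differentiable ℂ fun s => (FF a q t s)⁻¹ :=
  ffi_diff a (by omega) t

include ha

theorem FF_inv_finOrd : FinOrd fun s => (FF a q t s)⁻¹ :=
  ffi_ord a (by omega) t

theorem FF_ne {s : ℂ} (hs : 1 ≤ s.re) : FF a q t s ≠ 0 :=
  ff_ne ha hq t hs

theorem FF_inv_ne {s : ℂ} (hs : s.re ≤ -1) : (FF a q t s)⁻¹ ≠ 0 :=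
  ffi_ne ha hq t (by linarith)

theorem FFr_diff {s : ℂ} (hs : s.re < 1 / 2) :
    DifferentiableAt ℂ (fun s => FF a q t (2 - s) * (FF a q t s)⁻¹) s :=
  ff_ratio_diff ha hq t hs.le

theorem FFr_bd : PolyStrip (1 / 2) fun s => FF a q t (2 - s) * (FF a q t s)⁻¹ :=
  ff_ratio_bd ha hq t

end Pool.Agent.QD.In
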