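import Pool.Agent.QD.ZDefs
import Pool.Agent.QD.Z.FinOrd

/-!
# QD-In-Gam: archimedean factors

PLAN.
`finOrd_mul`, `finOrd_pow`, `finOrd_add`: with `X = 1 + |Im s| ≥ 1`; replace `A` by `max A 1` and `C`
by `|C|` (then the bounds are monotone in `A`, `C`), `exp (u) + exp (v) ≤ exp (u + v + 1)` for
nonnegative `u, v`.
`finOrd_cpow`: `‖a ^ (c s + d)‖ = a ^ (Re (c s + d))`.
`finOrd_of_line_eq`: (not needed).
`finOrd_invGamma`: strip `a ≤ Re s ≤ b`.  Take a natural number `m > b`.  If `|Im s| ≥ 1`: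
`Γ(s) = (s-1)...(s-m) Γ(s-m)` (`Complex.Gamma_add_one`), so `|1/Γ(s)| ≤ |1/Γ(s-m)|`, and
`1/Γ(s-m) = Γ(1-s+m) sin(π (s-m)) / π` (`Complex.Gamma_mul_Gamma_one_sub`) with
`|Γ(1-s+m)| ≤ Γ(1 + m - Re s)` bounded on the strip (`Re (1-s+m) > 0`; HWR `norm_Gamma_le`) and
`|sin z| ≤ exp |Im z|`.  If `|Im s| ≤ 1`: compactness and continuity of `1/Γ`
(`Complex.differentiable_one_div_Gamma`).
-/

namespace Pool.Agent.QD.In

open Pool.Agent.HWR

theorem finOrd_mul {f g : ℂ → ℂ} (hf : FinOrd f) (hg : FinOrd g) : FinOrd fun s => f s * g s :=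
  Z.finOrd_mul hf hg

theorem finOrd_add {f g : ℂ → ℂ} (hf : FinOrd f) (hg : FinOrd g) : FinOrd fun s => f s + g s :=
  Z.finOrd_add hf hg

theorem finOrd_pow {f : ℂ → ℂ} (hf : FinOrd f) (n : ℕ) : FinOrd fun s => f s ^ n :=
  Z.finOrd_pow hf n

theorem finOrd_const (c : ℂ) : FinOrd fun _ => c :=
  Z.finOrd_const c

theorem finOrd_id : FinOrd fun s => s :=
  Z.finOrd_id

private theorem gam_abs_re {a b x : ℝ} (h1 : a ≤ x) (h2 : x ≤ b) : |x| ≤ |a| + |b| := by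
  rw [abs_le]
  have := neg_abs_le a
  have := le_abs_self b
  have := abs_nonneg a
  have := abs_nonneg b
  constructor <;> linarith

theorem finOrd_cpow {a : ℝ} (ha : 0 < a) (c d : ℂ) : FinOrd fun s => (a : ℂ) ^ (c * s + d) := by
  apply Z.finOrd_of_exp
  intro x y
  set l : ℝ := Real.log a with hl
  refine ⟨Real.exp (|l| * (|c.re| * (|x| + |y|) + |d.re|)), |l| * |c.im|, fun s h1 h2 => ?_⟩
  rw [Complex.norm_cpow_eq_rpow_re_of_pos ha, Real.rpow_def_of_pos ha, ← Real.exp_add]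
  apply Real.exp_le_exp.2
  have hre : (c * s + d).re = c.re * s.re - c.im * s.im + d.re := by simp
  rw [hre, ← hl]
  have h3 : |c.re * s.re| ≤ |c.re| * (|x| + |y|) := by
    rw [abs_mul]
    exact mul_le_mul_of_nonneg_left (gam_abs_re h1 h2) (abs_nonneg _)
  have h4 : |c.re * s.re - c.im * s.im + d.re| ≤
      |c.re| * (|x| + |y|) + |d.re| + |c.im| * |s.im| := by
    have e1 := abs_add_le (c.re * s.re - c.im * s.im) d.re
    have e2 := abs_sub (c.re * s.re) (c.im * s.im)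
    have e3 : |c.im * s.im| = |c.im| * |s.im| := abs_mul _ _
    linarith
  calc l * (c.re * s.re - c.im * s.im + d.re)
      ≤ |l * (c.re * s.re - c.im * s.im + d.re)| := le_abs_self _
    _ = |l| * |c.re * s.re - c.im * s.im + d.re| := abs_mul _ _
    _ ≤ |l| * (|c.re| * (|x| + |y|) + |d.re| + |c.im| * |s.im|) :=
      mul_le_mul_of_nonneg_left h4 (abs_nonneg _)
    _ = |l| * (|c.re| * (|x| + |y|) + |d.re|) + |l| * |c.im| * |s.im| := by ring

theorem finOrd_comp (f : ℂ → ℂ) (hf : FinOrd f) (c : ℝ) : FinOrd fun s => f (c - s) := by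
  refine Z.finOrd_congr (Z.finOrd_comp_affine hf (-1) c) fun s => ?_
  congr 1
  push_cast
  ring

theorem finOrd_invGamma : FinOrd fun s => (Complex.Gamma s)⁻¹ :=
  Z.finOrd_Gamma_inv

private theorem gam_inv (s : ℂ) :
    (gam1 s)⁻¹ = ((2 * Real.pi : ℝ) : ℂ) ^ s * (Complex.Gamma s)⁻¹ := by
  unfold gam1
  rw [mul_inv, ← Complex.cpow_neg, neg_neg]
  push_cast
  rfl

theorem finOrd_invgam1 : FinOrd fun s => (gam1 s)⁻¹ := by
  have h1 := finOrd_cpow (a := 2 * Real.pi) (by positivity) 1 0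
  refine Z.finOrd_congr (finOrd_mul h1 finOrd_invGamma) fun s => ?_
  rw [gam_inv, one_mul, add_zero]

theorem invgam1_diff : Differentiable ℂ fun s => (gam1 s)⁻¹ := by
  have h0 : ((2 * Real.pi : ℝ) : ℂ) ≠ 0 := by
    exact_mod_cast (by positivity : (2 * Real.pi : ℝ) ≠ 0)
  have h1 : (fun s => (gam1 s)⁻¹) =
      fun s => ((2 * Real.pi : ℝ) : ℂ) ^ s * (Complex.Gamma s)⁻¹ := funext gam_inv
  rw [h1]
  exact (differentiable_id.const_cpow (Or.inl h0)).mul Complex.differentiable_one_div_Gamma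

end Pool.Agent.QD.In
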