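import Pool.Agent.QD.In.Strip

/-!
# QD-In-Pl: the Euler factors at the primes of `T`
-/

namespace Pool.Agent.QD.In

open NumberField IsDedekindDomain Pool.Agent.HWR

open scoped TensorProduct

/-- finite product of polynomials `1 - α q^(-s)` -/
noncomputable def plL (L : List (ℂ × ℕ)) (s : ℂ) : ℂ :=
  (L.map fun x => 1 - x.1 * (x.2 : ℂ) ^ (-s)).prod

private theorem poly_list (p : ℕ) (hp : p.Prime) (f : Polynomial ℂ) (h0 : f.eval 0 = 1)
    (hr : ∀ z : ℂ, f.eval z = 0 → (p : ℝ) ^ (-(1 / 2) : ℝ) ≤ ‖z‖) :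
    ∃ L : List (ℂ × ℕ), (∀ x ∈ L, x.2 = p ∧ ‖x.1‖ ≤ Real.sqrt x.2) ∧
      ∀ s : ℂ, f.eval ((p : ℂ) ^ (-s)) = plL L s := by
  have hf0 : f ≠ 0 := by
    rintro rfl
    simp at h0
  have hsp : f = Polynomial.C f.leadingCoeff * (f.roots.map fun z => Polynomial.X - Polynomial.C z).prod :=
    (IsAlgClosed.splits f).eq_prod_roots
  have hev : ∀ x : ℂ, f.eval x = f.leadingCoeff * (f.roots.map fun z => x - z).prod := by
    intro x
    conv_lhs => rw [hsp]
    rw [Polynomial.eval_mul, Polynomial.eval_C, Polynomial.eval_multiset_prod, Multiset.map_map]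
    congr 2
    refine Multiset.map_congr rfl fun z _ => ?_
    simp
  have hz : ∀ z ∈ f.roots, z ≠ 0 := by
    intro z hz hz0
    have h1 := (Polynomial.mem_roots hf0).1 hz
    rw [Polynomial.IsRoot, hz0, h0] at h1
    exact one_ne_zero h1
  have key : ∀ x : ℂ, f.eval x = (f.roots.map fun z => 1 - z⁻¹ * x).prod := by
    intro x
    have h1 := hev x
    have h2 := hev 0
    rw [h0] at h2
    have h3 : (f.roots.map fun z => (0 : ℂ) - z).prod * (f.roots.map fun z => 1 - z⁻¹ * x).prod =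
        (f.roots.map fun z => x - z).prod := by
      rw [← Multiset.prod_map_mul]
      congr 1
      refine Multiset.map_congr rfl fun z hz' => ?_
      have := hz z hz'
      field_simp
      ring
    rw [h1, ← h3, ← mul_assoc, ← h2, one_mul]
  refine ⟨(f.roots.map fun z => (z⁻¹, p)).toList, ?_, fun s => ?_⟩
  · intro x hx
    rw [Multiset.mem_toList, Multiset.mem_map] at hx
    obtain ⟨z, hz1, rfl⟩ := hx
    refine ⟨rfl, ?_⟩
    have h1 := hr z ((Polynomial.mem_roots hf0).1 hz1)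
    have hp0 : (0 : ℝ) < p := by exact_mod_cast hp.pos
    have h2 : 0 < (p : ℝ) ^ (-(1 / 2) : ℝ) := Real.rpow_pos_of_pos hp0 _
    rw [norm_inv]
    calc ‖z‖⁻¹ ≤ ((p : ℝ) ^ (-(1 / 2) : ℝ))⁻¹ := inv_anti₀ h2 h1
      _ = Real.sqrt p := by
          rw [Real.rpow_neg hp0.le, inv_inv, Real.sqrt_eq_rpow]
  · rw [key, plL]
    have h1 : ((f.roots.map fun z => (z⁻¹, p)).toList.map
        fun x : ℂ × ℕ => 1 - x.1 * (x.2 : ℂ) ^ (-s)).prod =
        ((f.roots.map fun z => (z⁻¹, p)).map fun x : ℂ × ℕ => 1 - x.1 * (x.2 : ℂ) ^ (-s)).prod := by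
      conv_rhs => rw [← Multiset.coe_toList (f.roots.map fun z => (z⁻¹, p))]
      rw [Multiset.map_coe, Multiset.prod_coe]
    rw [h1, Multiset.map_map]
    rfl

variable {T : Finset ℕ} (D : LocData T) (F : Type) [Field F] [NumberField F]

theorem pl_list : ∃ L : List (ℂ × ℕ), (∀ x ∈ L, x.2.Prime ∧ x.2 ∈ T ∧ ‖x.1‖ ≤ Real.sqrt x.2) ∧
      ∀ s : ℂ, D.pl F s = plL L s := by
  classical
  have key : ∀ T' : Finset ℕ, T' ⊆ T → ∃ L : List (ℂ × ℕ),
      (∀ x ∈ L, x.2.Prime ∧ x.2 ∈ T ∧ ‖x.1‖ ≤ Real.sqrt x.2) ∧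
      ∀ s : ℂ, (∏ p ∈ T', if h : p.Prime then haveI := Fact.mk h;
        (D.pol p (ℚ_[p] ⊗[ℚ] F)).eval ((p : ℂ) ^ (-s)) else 1) = plL L s := by
    intro T'
    induction T' using Finset.induction_on with
    | empty =>
      intro _
      refine ⟨[], by simp, fun s => ?_⟩
      rw [Finset.prod_empty, plL, List.map_nil, List.prod_nil]
    | insert p T' hpT ih =>
      intro hsub
      obtain ⟨L, hL, hL'⟩ := ih fun q hq => hsub (Finset.mem_insert_of_mem hq)
      by_cases hp : p.Prime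
      · haveI := Fact.mk hp
        obtain ⟨L1, hL1, hL1'⟩ := poly_list p hp (D.pol p (ℚ_[p] ⊗[ℚ] F)) (D.pol_zero p _)
          (D.pol_root p _)
        refine ⟨L1 ++ L, ?_, fun s => ?_⟩
        · intro x hx
          rcases List.mem_append.1 hx with h | h
          · obtain ⟨h1, h2⟩ := hL1 x h
            exact ⟨by rw [h1]; exact hp, by rw [h1]; exact hsub (Finset.mem_insert_self _ _), h2⟩
          · exact hL x h
        · rw [Finset.prod_insert hpT, hL' s, dif_pos hp, hL1' s, plL, plL, plL, List.map_append,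
            List.prod_append]
      · refine ⟨L, hL, fun s => ?_⟩
        rw [Finset.prod_insert hpT, hL' s, dif_neg hp, one_mul]
  obtain ⟨L, hL, hL'⟩ := key T le_rfl
  exact ⟨L, hL, fun s => hL' s⟩

theorem plL_diff (L : List (ℂ × ℕ)) (hL : ∀ x ∈ L, x.2 ≠ 0) : Differentiable ℂ (plL L) := by
  induction L with
  | nil => exact differentiable_const (1 : ℂ)
  | cons x L ih =>
    have h1 := ih fun y hy => hL y (List.mem_cons_of_mem _ hy)
    have h2 : (x.2 : ℂ) ≠ 0 := by exact_mod_cast hL x List.mem_cons_self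
    have h3 : plL (x :: L) = fun s => (1 - x.1 * (x.2 : ℂ) ^ (-s)) * plL L s := by
      funext s
      rw [plL, List.map_cons, List.prod_cons, plL]
    rw [h3]
    exact ((differentiable_const _).sub ((differentiable_const _).mul
      (differentiable_id.neg.const_cpow (Or.inl h2)))).mul h1

/-- bounded in strips -/
theorem plL_bdd (L : List (ℂ × ℕ)) (hL : ∀ x ∈ L, x.2 ≠ 0) (a b : ℝ) : ∃ C : ℝ, 0 ≤ C ∧
    ∀ s : ℂ, a ≤ s.re → s.re ≤ b → ‖plL L s‖ ≤ C := by
  induction L with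
  | nil =>
    refine ⟨1, zero_le_one, fun s _ _ => ?_⟩
    rw [plL, List.map_nil, List.prod_nil, norm_one]
  | cons x L ih =>
    obtain ⟨C, hC, h1⟩ := ih fun y hy => hL y (List.mem_cons_of_mem _ hy)
    have h2 : 0 < (x.2 : ℝ) := by
      exact_mod_cast Nat.pos_of_ne_zero (hL x List.mem_cons_self)
    obtain ⟨C', h3⟩ := (ps_cpow_bdd h2 (-b) (-a))
    refine ⟨(1 + ‖x.1‖ * |C'|) * C, by positivity, fun s h4 h5 => ?_⟩
    rw [plL, List.map_cons, List.prod_cons, norm_mul]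
    refine mul_le_mul ?_ (h1 s h4 h5) (norm_nonneg _) (by positivity)
    refine (norm_sub_le _ _).trans ?_
    rw [norm_one, norm_mul]
    have h6 := h3 (-s) (by rw [Complex.neg_re]; linarith) (by rw [Complex.neg_re]; linarith)
    rw [Complex.ofReal_natCast] at h6
    have := h6.trans (le_abs_self C')
    gcongr

/-- no small values for `Re s > 1/2 + δ` -/
theorem plL_lower (L : List (ℂ × ℕ)) (hL : ∀ x ∈ L, x.2.Prime ∧ ‖x.1‖ ≤ Real.sqrt x.2) {s : ℂ}
    (hs : 3 / 2 ≤ s.re) : (1 / 2) ^ L.length ≤ ‖plL L s‖ := by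
  induction L with
  | nil => rw [plL, List.map_nil, List.prod_nil, norm_one, List.length_nil, pow_zero]
  | cons x L ih =>
    have h1 := ih fun y hy => hL y (List.mem_cons_of_mem _ hy)
    obtain ⟨h2, h3⟩ := hL x List.mem_cons_self
    rw [List.length_cons, pow_succ', plL, List.map_cons, List.prod_cons, norm_mul]
    refine mul_le_mul ?_ h1 (by positivity) (norm_nonneg _)
    have h4 : ‖x.1 * (x.2 : ℂ) ^ (-s)‖ ≤ 1 / 2 := by
      rw [norm_mul, Complex.norm_natCast_cpow_of_pos h2.pos, Complex.neg_re]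
      have h5 : (2 : ℝ) ≤ x.2 := by exact_mod_cast h2.two_le
      have h6 : (x.2 : ℝ) ^ (-s.re) ≤ (x.2 : ℝ) ^ (-(3 / 2) : ℝ) :=
        Real.rpow_le_rpow_of_exponent_le (by linarith) (by linarith)
      calc ‖x.1‖ * (x.2 : ℝ) ^ (-s.re) ≤ Real.sqrt x.2 * (x.2 : ℝ) ^ (-(3 / 2) : ℝ) :=
            mul_le_mul h3 h6 (by positivity) (Real.sqrt_nonneg _)
        _ = (x.2 : ℝ)⁻¹ := by
            rw [Real.sqrt_eq_rpow, ← Real.rpow_add (by linarith), ← Real.rpow_neg_one]
            norm_num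
        _ ≤ 1 / 2 := by
            rw [one_div]
            exact inv_anti₀ (by norm_num) h5
    have h7 := norm_sub_norm_le (1 : ℂ) (x.1 * (x.2 : ℂ) ^ (-s))
    rw [norm_one] at h7
    linarith

theorem pl_diff : Differentiable ℂ (D.pl F) := by
  obtain ⟨L, hL, h⟩ := pl_list D F
  have : D.pl F = plL L := funext h
  rw [this]
  exact plL_diff L fun x hx => (hL x hx).1.ne_zero

theorem pl_ne {s : ℂ} (hs : 3 / 2 ≤ s.re) : D.pl F s ≠ 0 := by
  obtain ⟨L, hL, h⟩ := pl_list D F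
  rw [h]
  have h1 := plL_lower L (fun x hx => ⟨(hL x hx).1, (hL x hx).2.2⟩) hs
  intro h0
  rw [h0, norm_zero] at h1
  have : (0 : ℝ) < (1 / 2) ^ L.length := by positivity
  linarith

/-- the quotient in the functional equation -/
theorem pl_ratio_bd : PolyStrip (1 / 2) fun s => D.pl F s * (D.pl F (2 - s))⁻¹ := by
  obtain ⟨L, hL, h⟩ := pl_list D F
  refine ps_mul (ps_of_bdd fun a b _ => ?_) (ps_of_bdd fun a b hb => ?_)
  · obtain ⟨C, _, h1⟩ := plL_bdd L (fun x hx => (hL x hx).1.ne_zero) a b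
    exact ⟨C, fun s h2 h3 => by rw [h]; exact h1 s h2 h3⟩
  · refine ⟨((1 / 2 : ℝ) ^ L.length)⁻¹, fun s _ h3 => ?_⟩
    rw [h, norm_inv]
    refine inv_anti₀ (by positivity) (plL_lower L (fun x hx => ⟨(hL x hx).1, (hL x hx).2.2⟩) ?_)
    rw [Complex.sub_re]
    have : (2 : ℂ).re = 2 := rfl
    rw [this]
    linarith

theorem pl_ratio_diff {s : ℂ} (hs : s.re ≤ 1 / 2) :
    DifferentiableAt ℂ (fun s => D.pl F s * (D.pl F (2 - s))⁻¹) s := by
  refine (pl_diff D F s).mul (DifferentiableAt.inv ?_ (pl_ne D F ?_))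
  · exact (pl_diff D F (2 - s)).comp s ((differentiableAt_const _).sub differentiableAt_id)
  · rw [Complex.sub_re]
    have : (2 : ℂ).re = 2 := rfl
    rw [this]
    linarith

end Pool.Agent.QD.In
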