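import Pool.Agent.QD.In.CongZ

/-!
# QD-In-ZZ: the zeta function of `K(√x)`

PLAN.  `x` not a square, `L = (qf h).L`: `zeta_fe L` gives `Z`; take `fun w => (w - 1) * Z w`
(`finOrd_mul`, `finOrd_id`... of In/Gam.lean), `ZP_quad L (qf h).deg` (N4Main; `ty = tt` by
`dif_neg`).
`x` a square: `Z` from `zeta_fe K`; take `fun w => Z w ^ 2`;
`ZP K w ^ 2 = ∏' v, ((1 - N^(-w))⁻¹)^2`: `Multipliable.tprod_pow` or `tprod_mul` (multipliable:
`sum_zf` (In/Prod.lean) with all `t = 1` gives summability of `‖zf - 1‖`; or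
`multipliable_one_add_of_summable`-like for the factors `(1 - N^(-w))⁻¹`, `summable_nrm`, `nrm v ≥ 2`);
`zf q 1 w = ((1 - q^(-w))⁻¹)^2`.  Discriminant: `((|d| : ℝ) : ℂ)^(2 z) = ((d^2 : ℝ) : ℂ)^z`
(`Complex.ofReal_cpow`-free: write both as `exp (z log ..)`, or
`Complex.cpow_nat_mul`/`Complex.mul_cpow_ofReal_nonneg` on `|d| * |d|`); `gR^r1` squared is `gR^(2 r1)`.
-/

namespace Pool.Agent.QD.In

open NumberField IsDedekindDomain Pool.Agent.HWR

variable {K : Type} [Field K] [NumberField K]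

private theorem ZP_sq {w : ℂ} (hw : 1 < w.re) :
    ∏' v : HeightOneSpectrum (𝓞 K), zf (nrm v) 1 w = ZP K w ^ 2 := by
  have h1 := sum_zf (K := K) (fun _ => 0) (fun _ => Or.inr (Or.inr rfl)) hw
  have e0 : ∀ v : HeightOneSpectrum (𝓞 K), zf (nrm v) 0 w = (1 - (nrm v : ℂ) ^ (-w))⁻¹ := by
    intro v
    unfold zf
    rw [Int.cast_zero, zero_mul, sub_zero, inv_one, mul_one]
  have h2 : Multipliable fun v : HeightOneSpectrum (𝓞 K) => (1 - (nrm v : ℂ) ^ (-w))⁻¹ := by
    have h3 := multipliable_one_add_of_summable h1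
    refine h3.congr fun v => ?_
    rw [e0]
    ring
  unfold ZP
  rw [pow_two, ← Multipliable.tprod_mul h2 h2]
  refine tprod_congr fun v => ?_
  unfold zf
  rw [Int.cast_one, one_mul]

theorem exists_ZZ (x : Kˣ) : ∃ Z, IsZZ x Z := by
  classical
  by_cases h : IsSquare x
  · obtain ⟨Z, h1, h2, -, h4, h5⟩ := zeta_fe K
    refine ⟨fun w => Z w ^ 2, h1.pow 2, finOrd_pow h2 2, fun w hw => ?_, fun w hw => ?_⟩
    · have e : ∀ v : HeightOneSpectrum (𝓞 K), tt x v = 1 := fun v => dif_pos h
      simp only [e]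
      rw [ZP_sq hw, h4 w hw]
      ring
    · have e : ∀ v : HeightOneSpectrum (𝓞 K), tt x v = 1 := fun v => dif_pos h
      have hw' : 1 < (1 - w).re := by
        rw [Complex.sub_re, Complex.one_re]
        linarith
      simp only [e]
      rw [ZP_sq hw', h5 w hw]
      have e1 : dd x = |(NumberField.discr K : ℝ)| * |(NumberField.discr K : ℝ)| := by
        unfold dd
        rw [dif_pos h, abs_mul_abs_self, pow_two]
      have e2 : nr x = InfinitePlace.nrRealPlaces K * 2 := by
        unfold nr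
        rw [dif_pos h, mul_comm]
      have e3 : nc x = InfinitePlace.nrComplexPlaces K * 2 := by
        unfold nc
        rw [dif_pos h, mul_comm]
      rw [e1, e2, e3, Complex.ofReal_mul,
        Complex.mul_cpow_ofReal_nonneg (abs_nonneg _) (abs_nonneg _), pow_mul, pow_mul,
        Int.cast_abs]
      ring
  · obtain ⟨Z, h1, h2, -, h4, h5⟩ := zeta_fe (qf h).L
    have e : ∀ v : HeightOneSpectrum (𝓞 K), tt x v = ty K (qf h).L v := fun v => dif_neg h
    refine ⟨fun w => (w - 1) * Z w, (differentiable_id.sub_const 1).mul h1,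
      finOrd_mul (finOrd_add finOrd_id (finOrd_const (-1))) h2, fun w hw => ?_, fun w hw => ?_⟩
    · simp only [e]
      rw [h4 w hw, ← ZP_quad (qf h).L (qf h).deg hw]
      ring
    · have hw' : 1 < (1 - w).re := by
        rw [Complex.sub_re, Complex.one_re]
        linarith
      simp only [e]
      rw [h5 w hw, ← ZP_quad (qf h).L (qf h).deg hw']
      have e1 : dd x = |(NumberField.discr (qf h).L : ℝ)| := dif_neg h
      have e2 : nr x = InfinitePlace.nrRealPlaces (qf h).L := dif_neg h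
      have e3 : nc x = InfinitePlace.nrComplexPlaces (qf h).L := dif_neg h
      rw [e1, e2, e3, Int.cast_abs]
      ring

theorem isZZ (x : Kˣ) : IsZZ x (ZZ x) := Classical.epsilon_spec (exists_ZZ x)

end Pool.Agent.QD.In
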