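import Pool.Agent.QD.In.GamX
import Pool.Agent.QD.In.ZZ

/-!
# QD-In-ZSx: the zeta function of `K(√x)` without the Euler factors at `S`

`ZS S x w = ZZ x w * ∏ v ∈ S, (zf (nrm v) (tt x v) w)⁻¹`; `isZZ x` (In/ZZ.lean) gives all properties of
`ZZ x`.

PLAN.  `ZS_diff`, `ZS_ord`: `zf_inv_diff`, `zf_inv_finOrd`, finite products (`Finset` induction;
`finOrd_mul`, `finOrd_const`).
`ZS_eq`: `tprod_split S` (In/Prod.lean) with `sum_zf`; the finite product cancels (`zf_ne`);
outside `S` `tt x v = uK v x` (`tt_uK`, `h2`); `zf = (1 - N^(-w))⁻¹ (1 - u N^(-w))⁻¹` and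
`Multipliable.tprod_mul` (both families multipliable: `multipliable_one_add_of_summable` or as in
In/Prod.lean; `uK_cases`).
`ZS_fe`: same with `1 - w` in place of `w`; `dd x = D0 S x * oddN S x` (`dd_eq`),
`Complex.mul_cpow_ofReal_nonneg`; the factors `zf(1-w) (zf w)⁻¹ = zr` at `S`.
-/

namespace Pool.Agent.QD.In

open NumberField IsDedekindDomain Pool.Agent.HWR

variable {K : Type} [Field K] [NumberField K] (S : Finset (HeightOneSpectrum (𝓞 K)))

private theorem two_le_nrm' (v : HeightOneSpectrum (𝓞 K)) : 2 ≤ nrm v := by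
  have hq0 : nrm v ≠ 0 := nrm_ne_zero v
  have hq1 : nrm v ≠ 1 := nrm_ne_one v
  omega

theorem ZS_diff (x : Kˣ) : Differentiable ℂ (ZS S x) := by
  classical
  have h1 : Differentiable ℂ fun w => ∏ v ∈ S, (zf (nrm v) (tt x v) w)⁻¹ := by
    induction S using Finset.induction_on with
    | empty => simp only [Finset.prod_empty]; exact differentiable_const _
    | insert v S hv ih =>
      simp only [Finset.prod_insert hv]
      exact (zf_inv_diff (two_le_nrm' v) (tt_cases x v)).mul ih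
  exact (isZZ x).1.mul h1

theorem ZS_ord (x : Kˣ) : FinOrd (ZS S x) := by
  classical
  have h1 : FinOrd fun w => ∏ v ∈ S, (zf (nrm v) (tt x v) w)⁻¹ := by
    induction S using Finset.induction_on with
    | empty => simp only [Finset.prod_empty]; exact finOrd_const _
    | insert v S hv ih =>
      simp only [Finset.prod_insert hv]
      exact finOrd_mul (zf_inv_finOrd (two_le_nrm' v) (tt_cases x v)) ih
  exact finOrd_mul (isZZ x).2.1 h1

variable (h2 : ∀ v : HeightOneSpectrum (𝓞 K), (2 : 𝓞 K) ∈ v.asIdeal → v ∈ S)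
include h2

/-- Euler product outside `S` -/
theorem tprod_zf (x : Kˣ) {w : ℂ} (hw : 1 < w.re) :
    ∏' v : HeightOneSpectrum (𝓞 K), zf (nrm v) (tt x v) w =
      (∏ v ∈ S, zf (nrm v) (tt x v) w) *
        ((∏' v : Io S, (1 - (nrm v.1 : ℂ) ^ (-w))⁻¹) *
          ∏' v : Io S, (1 - (uK v.1 x : ℂ) * (nrm v.1 : ℂ) ^ (-w))⁻¹) := by
  have htt : ∀ v : Io S, tt x v.1 = uK v.1 x := fun v => tt_uK x v.1 fun h => v.2 (h2 v.1 h)
  have hs := sum_zf (tt x) (tt_cases x) hw
  have e0 : ∀ v : HeightOneSpectrum (𝓞 K), zf (nrm v) 0 w = (1 - (nrm v : ℂ) ^ (-w))⁻¹ := by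
    intro v
    unfold zf
    rw [Int.cast_zero, MulZeroClass.zero_mul, sub_zero, inv_one, mul_one]
  have hA : Multipliable fun v : Io S => (1 - (nrm v.1 : ℂ) ^ (-w))⁻¹ := by
    have h3 := (sum_zf (K := K) (fun _ => 0) (fun _ => Or.inr (Or.inr rfl)) hw).comp_injective
      (Subtype.val_injective (p := fun v => v ∉ S))
    have h4 := multipliable_one_add_of_summable
      (f := fun v : Io S => zf (nrm v.1) 0 w - 1) h3
    refine h4.congr fun v => ?_
    rw [e0]
    ring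
  have hne : ∀ v : HeightOneSpectrum (𝓞 K), 1 - (nrm v : ℂ) ^ (-w) ≠ 0 := by
    intro v h0
    have h3 := zf_ne (two_le_nrm' v) (t := 0) (Or.inr (Or.inr rfl)) (w := w) (by linarith)
    rw [e0, h0, inv_zero] at h3
    exact h3 rfl
  have hC : Multipliable fun v : Io S => 1 - (nrm v.1 : ℂ) ^ (-w) := by
    have h3 : Summable fun v : Io S => ‖-((nrm v.1 : ℂ) ^ (-w))‖ := by
      have h4 := (summable_nrm K hw).comp_injective (Subtype.val_injective (p := fun v => v ∉ S))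
      refine h4.congr fun v => ?_
      rw [norm_neg, Complex.norm_natCast_cpow_of_pos (by have := two_le_nrm' v.1; omega),
        Complex.neg_re]
      rfl
    refine (multipliable_one_add_of_summable h3).congr fun v => ?_
    ring
  have hZ : Multipliable fun v : Io S => zf (nrm v.1) (tt x v.1) w := by
    have h3 := hs.comp_injective (Subtype.val_injective (p := fun v => v ∉ S))
    refine (multipliable_one_add_of_summable
      (f := fun v : Io S => zf (nrm v.1) (tt x v.1) w - 1) h3).congr fun v => ?_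
    ring
  have hB : Multipliable fun v : Io S => (1 - (uK v.1 x : ℂ) * (nrm v.1 : ℂ) ^ (-w))⁻¹ := by
    refine (hC.mul hZ).congr fun v => ?_
    unfold zf
    rw [← mul_assoc, mul_inv_cancel₀ (hne v.1), one_mul, htt v]
  rw [tprod_split S (fun v => zf (nrm v) (tt x v) w) hs, ← Multipliable.tprod_mul hA hB]
  congr 1
  refine tprod_congr fun v => ?_
  unfold zf
  rw [htt v]

theorem ZS_eq (x : Kˣ) {w : ℂ} (hw : 1 < w.re) : ZS S x w =
    (w - 1) ^ 2 * (∏' v : Io S, (1 - (nrm v.1 : ℂ) ^ (-w))⁻¹) *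
      ∏' v : Io S, (1 - (uK v.1 x : ℂ) * (nrm v.1 : ℂ) ^ (-w))⁻¹ := by
  have hne : ∏ v ∈ S, zf (nrm v) (tt x v) w ≠ 0 := Finset.prod_ne_zero_iff.2 fun v _ =>
    zf_ne (two_le_nrm' v) (tt_cases x v) (by linarith)
  unfold ZS
  rw [(isZZ x).2.2.1 w hw, tprod_zf S h2 x hw, Finset.prod_inv_distrib]
  field_simp

theorem ZS_fe (x : Kˣ) {w : ℂ} (hw : w.re < 0) : ZS S x w =
    (w - 1) ^ 2 * (oddN S x : ℂ) ^ (1 / 2 - w) * GamX S x w *
      (∏' v : Io S, (1 - (nrm v.1 : ℂ) ^ (-(1 - w)))⁻¹) *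
      ∏' v : Io S, (1 - (uK v.1 x : ℂ) * (nrm v.1 : ℂ) ^ (-(1 - w)))⁻¹ := by
  have hw' : 1 < (1 - w).re := by
    rw [Complex.sub_re, Complex.one_re]
    linarith
  have h3 : ((dd x : ℝ) : ℂ) ^ (1 / 2 - w) =
      ((D0 S x : ℝ) : ℂ) ^ (1 / 2 - w) * (oddN S x : ℂ) ^ (1 / 2 - w) := by
    rw [dd_eq S x, Complex.ofReal_mul,
      Complex.mul_cpow_ofReal_nonneg (D0_pos S x).le (Nat.cast_nonneg _), Complex.ofReal_natCast]
  have h4 : ∏ v ∈ S, zr (nrm v) (tt x v) w =
      (∏ v ∈ S, zf (nrm v) (tt x v) (1 - w)) * ∏ v ∈ S, (zf (nrm v) (tt x v) w)⁻¹ := by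
    rw [← Finset.prod_mul_distrib]
    rfl
  unfold ZS GamX
  rw [(isZZ x).2.2.2 w hw, tprod_zf S h2 x hw', h3, h4]
  ring

end Pool.Agent.QD.In
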